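import Pool.Agent.W388.TW.Defs

/-! # Statements of the parts of the second round (vertical shifts; zeros and poles of quotients) -/

set_option autoImplicit false

open Complex Filter

namespace Pool.Agent.Y772.ND

/-- SHIFT : a vertical shift of an L-function satisfies the same analytic axioms. -/
def P_SHIFT : Prop := ∀ (d A : ℝ) (F : ℂ → ℂ) (a : ℕ → ℂ), 1 ≤ d → 1 ≤ A → W388.GoodE d A 1 F a →
  ∀ τ : ℝ, 0 ≤ τ → ∃ A' : ℝ, 1 ≤ A' ∧
    W388.GoodE d A' 1 (fun s => F (s + I * τ)) (fun n => a n * (n : ℂ) ^ (-(I * (τ : ℂ))))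

/-- NASY : asymptotic number of zeros. -/
def P_NASY : Prop := ∀ (d A : ℝ) (F : ℂ → ℂ) (a : ℕ → ℂ), 1 ≤ d → 1 ≤ A → W388.GoodE d A 1 F a →
  ∃ C : ℝ, ∀ᶠ T : ℝ in atTop,
    |(H370.NN F T (2 * T) : ℝ) - d / (2 * Real.pi) * T * Real.log T| ≤ C * T

end Pool.Agent.Y772.ND
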