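import Mathlib

/-!
# Linear independence of the divisors of L-functions: statements of the analytic parts

Owner helper772 (project ND, target MP_0f5a55_nt).  Every `def P_... : Prop` is one part; a proof is
a theorem `t_... : P_...` in a file `Pool/Agent/Y<your number>/ND/....lean` which imports this one.
Mathlib only.
-/

set_option autoImplicit false

open Complex MeasureTheory
open scoped ComplexConjugate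

namespace Pool.Agent.Y772.ND

/-- `A(u,t) = Σ a(z) e^{iuz} e^{-(z-t)²}` -/
noncomputable def Az (Z : Finset ℂ) (a : ℂ → ℂ) (u t : ℝ) : ℂ :=
  ∑ z ∈ Z, a z * (cexp (I * u * z) * cexp (-(z - t) ^ 2))

/-- RANK : a sum over few points has small `L¹` norm. -/
def P_RANK : Prop := ∀ (E : Type) [NormedAddCommGroup E] [InnerProductSpace ℂ E]
  (φ : ℂ → ℂ) (k : ℂ → E), (∀ z w, inner ℂ (k z) (k w) = φ (w - conj z)) →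
  (∀ z, φ (-z) = φ z) → Continuous φ → ∀ (B : ℝ), 0 ≤ B →
  (∀ (Z : Finset ℂ) (c : ℂ → ℂ), Integrable (fun t : ℝ => ‖∑ z ∈ Z, c z * φ (t - z)‖ ^ 2) ∧
    ∫ t : ℝ, ‖∑ z ∈ Z, c z * φ (t - z)‖ ^ 2 ≤
      B * (∑ z ∈ Z, ∑ w ∈ Z, c z * conj (c w) * φ (conj w - z)).re) →
  ∀ (Z : Finset ℂ) (a : ℂ → ℂ), (∀ z ∈ Z, conj z ∈ Z) → (∀ z ∈ Z, a (conj z) = conj (a z)) →
    Integrable (fun t : ℝ => ‖∑ z ∈ Z, a z * φ (z - t) ^ 2‖) ∧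
    (∫ t : ℝ, ‖∑ z ∈ Z, a z * φ (z - t) ^ 2‖) ^ 2 ≤
      B ^ 2 * (Z.filter (fun z => a z ≠ 0)).card * (∑ z ∈ Z, ∑ w ∈ Z, a z * a w * φ (z - w) ^ 2).re

/-- BESS : the Bessel inequality for the kernel `φ(z) = κ(Λ z) e^{-z²/4}`, where `κ` is the Fourier
transform of a bounded window `0 ≤ g ≤ G` on `[-1/2,1/2]`. -/
def P_BESS : Prop := ∀ (g : ℝ → ℝ), Continuous g → (∀ x, g (-x) = g x) → ∀ (G : ℝ),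
  (∀ x ∈ Set.Icc (-1 / 2 : ℝ) (1 / 2), 0 ≤ g x ∧ g x ≤ G) → ∀ (Λ : ℝ), 0 < Λ →
  ∀ (φ : ℂ → ℂ), (∀ z, φ z = (∫ x in (-1 / 2 : ℝ)..(1 / 2), (g x : ℂ) * cexp (I * (Λ * z) * x)) *
    cexp (-z ^ 2 / 4)) →
  ∀ (Z : Finset ℂ) (c : ℂ → ℂ), Integrable (fun t : ℝ => ‖∑ z ∈ Z, c z * φ (t - z)‖ ^ 2) ∧
    ∫ t : ℝ, ‖∑ z ∈ Z, c z * φ (t - z)‖ ^ 2 ≤
      (2 * Real.pi * G / Λ) * (∑ z ∈ Z, ∑ w ∈ Z, c z * conj (c w) * φ (conj w - z)).re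

/-- QEXP : the quadratic form through `A(u,t)`. -/
def P_QEXP : Prop := ∀ (κ : ℂ → ℂ) (R : ℝ → ℝ), Continuous R → (∀ α, R (-α) = R α) →
  (∀ z : ℂ, κ z ^ 2 = ∫ α in (-1 : ℝ)..1, (R α : ℂ) * cexp (I * z * α)) →
  ∀ (Λ : ℝ), 0 < Λ → ∀ (Z : Finset ℂ) (a : ℂ → ℂ), (∀ z ∈ Z, conj z ∈ Z) →
    (∀ z ∈ Z, a (conj z) = conj (a z)) →
    (∑ z ∈ Z, ∑ w ∈ Z, a z * a w * (κ (Λ * (z - w)) * cexp (-(z - w) ^ 2 / 4)) ^ 2).re =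
      2 * Real.sqrt (2 / Real.pi) * ∫ α in (0 : ℝ)..1, R α * ∫ t : ℝ, ‖Az Z a (Λ * α) t‖ ^ 2

/-- VEXP : the linear functional through `A(u,t)`. -/
def P_VEXP : Prop := ∀ (κ : ℂ → ℂ) (R : ℝ → ℝ), Continuous R → (∀ α, R (-α) = R α) →
  (∀ z : ℂ, κ z ^ 2 = ∫ α in (-1 : ℝ)..1, (R α : ℂ) * cexp (I * z * α)) →
  ∀ (Λ : ℝ), 0 < Λ → ∀ (Z : Finset ℂ) (a : ℂ → ℂ), (∀ z ∈ Z, conj z ∈ Z) →
    (∀ z ∈ Z, a (conj z) = conj (a z)) → ∀ s : ℝ,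
    ∑ z ∈ Z, a z * (κ (Λ * (z - s)) * cexp (-(z - s) ^ 2 / 4)) ^ 2 =
      ((2 * Real.sqrt (2 / Real.pi) * (∫ α in (0 : ℝ)..1, (R α : ℂ) *
        (cexp (-(I * (Λ * α) * s)) * ∫ t : ℝ, Real.exp (-(t - s) ^ 2) * Az Z a (Λ * α) t)).re : ℝ) : ℂ)

/-- the main term of the explicit formula -/
noncomputable def Mz (L : ℝ) (N : ℕ) (b : ℕ → ℂ) (u t : ℝ) : ℂ :=
  (1 / (2 * Real.sqrt Real.pi) : ℝ) * ((L : ℂ) * cexp (I * t * u) * Real.exp (-u ^ 2 / 4) -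
    ∑ n ∈ Finset.Icc 1 N, b n * (Real.sqrt n : ℂ)⁻¹ * cexp (I * t * (u - Real.log n)) *
      Real.exp (-(u - Real.log n) ^ 2 / 4))

/-- the weight `W(ℓ)` -/
noncomputable def Wz (R : ℝ → ℝ) (Λ ℓ : ℝ) : ℝ :=
  ∫ α in (0 : ℝ)..1, R α * Real.exp (-(Λ * α - ℓ) ^ 2 / 2)

/-- the coefficients of the Dirichlet polynomial -/
noncomputable def dz (R : ℝ → ℝ) (Λ L : ℝ) (b : ℕ → ℂ) (n : ℕ) : ℂ :=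
  (Real.sqrt (2 / Real.pi) * Wz R Λ (Real.log n) : ℝ) *
    ((if n = 1 then (L : ℂ) else 0) - b n * (Real.sqrt n : ℂ)⁻¹)

/-- GAUS : the main term of the linear functional is a Dirichlet polynomial. -/
def P_GAUS : Prop := ∀ (R : ℝ → ℝ), Continuous R → ∀ (Λ L : ℝ), 0 < Λ → ∀ (N : ℕ), 1 ≤ N →
  ∀ (b : ℕ → ℂ) (s : ℝ),
    ((2 * Real.sqrt (2 / Real.pi) : ℝ) : ℂ) * (∫ α in (0 : ℝ)..1, (R α : ℂ) *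
      (cexp (-(I * (Λ * α) * s)) * ∫ t : ℝ, Real.exp (-(t - s) ^ 2) * Mz L N b (Λ * α) t)) =
    ∑ n ∈ Finset.Icc 1 N, dz R Λ L b n * cexp (-(I * s * Real.log n))

/-- MSQ : mean square of the prime part of the main term. -/
def P_MSQ : Prop := ∃ C : ℝ, 0 < C ∧ ∀ (D : ℝ) (b : ℕ → ℂ), 0 ≤ D →
  (∀ n, ‖b n‖ ≤ D * ArithmeticFunction.vonMangoldt n) → ∀ (N : ℕ) (X Y u : ℝ), 1 ≤ N → X ≤ Y → 0 ≤ u →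
    ∫ t in X..Y, ‖∑ n ∈ Finset.Icc 1 N, b n * (Real.sqrt n : ℂ)⁻¹ * cexp (I * t * (u - Real.log n)) *
      Real.exp (-(u - Real.log n) ^ 2 / 4)‖ ^ 2 ≤ C * D ^ 2 * (Y - X + (N : ℝ) ^ 3) * (u + 1)

/-- FAR : the contribution of `t` near and beyond the end points. -/
def P_FAR : Prop := ∃ C : ℝ, 0 < C ∧ ∀ (Z : Finset ℂ) (a : ℂ → ℂ) (V1 V2 κ n0 N u : ℝ),
  1 ≤ κ → V1 + 4 * κ ≤ V2 → 0 ≤ u → (∀ z ∈ Z, |z.im| ≤ 1 / 2 ∧ V1 ≤ z.re ∧ z.re ≤ V2) →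
  ∑ z ∈ Z, ‖a z‖ ≤ N → ∑ z ∈ Z.filter (fun z => z.re ≤ V1 + 3 * κ), ‖a z‖ ≤ n0 →
  ∑ z ∈ Z.filter (fun z => V2 - 3 * κ ≤ z.re), ‖a z‖ ≤ n0 →
    Integrable (fun t : ℝ => ‖Az Z a u t‖ ^ 2) ∧
    ∫ t in (Set.Icc (V1 + κ) (V2 - κ))ᶜ, ‖Az Z a u t‖ ^ 2 ≤
      C * Real.exp u * (κ * n0 ^ 2 + κ * N ^ 2 * Real.exp (-κ ^ 2))

/-- MOM : the moment argument.  A Dirichlet polynomial with prime power coefficients and bounded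
constant term which is not small in mean square is not small in mean. -/
def P_MOM : Prop := ∀ C0 c0 : ℝ, 1 ≤ C0 → 0 < c0 → ∃ c Λ0 : ℝ, 0 < c ∧ 1 ≤ Λ0 ∧
  ∀ (Λ T : ℝ) (N : ℕ) (d : ℕ → ℂ), Λ0 ≤ Λ → Real.exp (20 * Λ) ≤ T → 1 ≤ N →
    (N : ℝ) ≤ Real.exp (2 * Λ) → (d 1).im = 0 → ‖d 1‖ ≤ C0 →
    (∀ n, 2 ≤ n → ‖d n‖ ≤ C0 * ArithmeticFunction.vonMangoldt n / (Λ * Real.sqrt n)) →
    c0 ≤ ∑ n ∈ Finset.Icc 1 N, ‖d n‖ ^ 2 →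
    c * T ≤ ∫ s in T..(2 * T), |(∑ n ∈ Finset.Icc 1 N, d n * cexp (-(I * s * Real.log n))).re|

/-- LOW : from a Mertens type lower bound to the mean square of the coefficients. -/
def P_LOW : Prop := ∀ (R : ℝ → ℝ), Continuous R → (∀ α ∈ Set.Icc (0 : ℝ) (3 / 4), 0 < R α) →
  (∀ α ∈ Set.Icc (0 : ℝ) 1, 0 ≤ R α) →
  ∀ (D c1 : ℝ) (b : ℕ → ℂ), 0 ≤ D → 0 < c1 →
  (∀ n, ‖b n‖ ≤ D * ArithmeticFunction.vonMangoldt n) →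
  (∀ᶠ x : ℝ in Filter.atTop, c1 * Real.log x ≤
    ∑ n ∈ (Finset.Icc 1 ⌊x⌋₊).filter Nat.Prime, ‖b n‖ ^ 2 / (n * Real.log n)) →
  ∃ c0 Λ0 : ℝ, 0 < c0 ∧ 1 ≤ Λ0 ∧ ∀ (Λ L : ℝ) (N : ℕ), Λ0 ≤ Λ → Real.exp Λ ≤ N →
    c0 ≤ ∑ n ∈ Finset.Icc 1 N, ‖dz R Λ L b n‖ ^ 2

/-- TAU : from Abel averages (`σ → 0+`) to a Mertens type lower bound, with Cauchy-Schwarz. -/
def P_TAU : Prop := ∀ (D c : ℝ) (f g : ℕ → ℂ), 0 < D → 0 < c → (∀ n, ‖f n‖ ≤ D) → (∀ n, ‖g n‖ ≤ D) →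
  (∀ᶠ σ : ℝ in nhdsWithin 0 (Set.Ioi 0), c ≤
    σ * ∑' n : ℕ, (f n * conj (g n)).re * ArithmeticFunction.vonMangoldt n * (n : ℝ) ^ (-(1 + σ))) →
  ∃ c1 : ℝ, 0 < c1 ∧ ∀ᶠ x : ℝ in Filter.atTop, c1 * Real.log x ≤
    ∑ n ∈ (Finset.Icc 1 ⌊x⌋₊).filter Nat.Prime, ‖(ArithmeticFunction.vonMangoldt n : ℂ) * f n‖ ^ 2 /
      (n * Real.log n)

end Pool.Agent.Y772.ND
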