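import Pool.Agent.Y179.ND.Gaus
import Pool.Agent.Y528.ND.Vexp

/-! # The linear functional is close to a Dirichlet polynomial -/

set_option autoImplicit false

open Complex Filter Topology Set MeasureTheory
open scoped ComplexConjugate

namespace Pool.Agent.Y772.ND

lemma int_gauss1 (s : ℝ) : Integrable (fun t : ℝ => Real.exp (-(t - s) ^ 2)) ∧
    ∫ t : ℝ, Real.exp (-(t - s) ^ 2) ≤ 2 := by
  have h1 : Integrable (fun t : ℝ => Real.exp (-1 * t ^ 2)) := integrable_exp_neg_mul_sq one_pos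
  have h2 := integral_gaussian 1
  have e : ∀ t : ℝ, Real.exp (-(t - s) ^ 2) = (fun t : ℝ => Real.exp (-1 * t ^ 2)) (t - s) := by
    intro t; simp
  simp_rw [e]
  refine ⟨h1.comp_sub_right s, ?_⟩
  rw [integral_sub_right_eq_self (fun t : ℝ => Real.exp (-1 * t ^ 2)) s, h2, div_one]
  rw [show (2 : ℝ) = Real.sqrt 4 by rw [show (4 : ℝ) = 2 ^ 2 by norm_num]; simp]
  exact Real.sqrt_le_sqrt Real.pi_le_four

lemma int_gauss2 (s : ℝ) : Integrable (fun t : ℝ => Real.exp (-(t - s) ^ 2 / 2)) ∧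
    ∫ t : ℝ, Real.exp (-(t - s) ^ 2 / 2) ≤ 3 := by
  have h1 : Integrable (fun t : ℝ => Real.exp (-(1 / 2) * t ^ 2)) :=
    integrable_exp_neg_mul_sq (by norm_num)
  have h2 := integral_gaussian (1 / 2)
  have e : ∀ t : ℝ, Real.exp (-(t - s) ^ 2 / 2) = (fun t : ℝ => Real.exp (-(1 / 2) * t ^ 2)) (t - s) := by
    intro t; simp only; congr 1; ring
  simp_rw [e]
  refine ⟨h1.comp_sub_right s, ?_⟩
  rw [integral_sub_right_eq_self (fun t : ℝ => Real.exp (-(1 / 2) * t ^ 2)) s, h2]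
  rw [show (3 : ℝ) = Real.sqrt 9 by rw [show (9 : ℝ) = 3 ^ 2 by norm_num]; simp]
  refine Real.sqrt_le_sqrt ?_
  linarith [Real.pi_le_four]

/-- the inner integral -/
lemma inner_le {f g : ℝ → ℂ} (hf : Continuous f) (hg : Continuous g) {s κ E ε : ℝ} (hκ : 0 ≤ κ)
    (hε : 0 ≤ ε) (h1 : ∀ t : ℝ, |t - s| ≤ κ → ‖f t - g t‖ ≤ ε)
    (h2 : ∀ t : ℝ, ‖f t - g t‖ ≤ E) :
    ‖∫ t : ℝ, ((Real.exp (-(t - s) ^ 2) : ℝ) : ℂ) * (f t - g t)‖ ≤
      2 * ε + 3 * (E * Real.exp (-κ ^ 2 / 2)) := by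
  have hE : 0 ≤ E := (norm_nonneg _).trans (h2 0)
  obtain ⟨i1, i2⟩ := int_gauss1 s
  obtain ⟨j1, j2⟩ := int_gauss2 s
  have hb : ∀ t : ℝ, ‖((Real.exp (-(t - s) ^ 2) : ℝ) : ℂ) * (f t - g t)‖ ≤
      ε * Real.exp (-(t - s) ^ 2) + (E * Real.exp (-κ ^ 2 / 2)) * Real.exp (-(t - s) ^ 2 / 2) := by
    intro t
    rw [norm_mul, Complex.norm_real, Real.norm_of_nonneg (Real.exp_pos _).le]
    by_cases ht : |t - s| ≤ κ
    · have := mul_le_mul_of_nonneg_left (h1 t ht) (Real.exp_pos (-(t - s) ^ 2)).le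
      have h3 : 0 ≤ (E * Real.exp (-κ ^ 2 / 2)) * Real.exp (-(t - s) ^ 2 / 2) := by positivity
      linarith
    · push Not at ht
      have h3 : Real.exp (-(t - s) ^ 2) ≤ Real.exp (-κ ^ 2 / 2) * Real.exp (-(t - s) ^ 2 / 2) := by
        rw [← Real.exp_add]
        apply Real.exp_le_exp.2
        have : κ ^ 2 ≤ (t - s) ^ 2 := by
          rw [← sq_abs (t - s)]
          exact pow_le_pow_left₀ hκ ht.le 2
        linarith
      have h4 := mul_le_mul h3 (h2 t) (norm_nonneg _) (by positivity)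
      have h5 : 0 ≤ ε * Real.exp (-(t - s) ^ 2) := by positivity
      linarith
  refine (norm_integral_le_of_norm_le (g := fun t => ε * Real.exp (-(t - s) ^ 2) +
    (E * Real.exp (-κ ^ 2 / 2)) * Real.exp (-(t - s) ^ 2 / 2))
    ((i1.const_mul ε).add (j1.const_mul _)) (ae_of_all _ hb)).trans ?_
  rw [integral_add (i1.const_mul ε) (j1.const_mul _), integral_const_mul, integral_const_mul]
  have h3 : 0 ≤ E * Real.exp (-κ ^ 2 / 2) := by positivity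
  nlinarith

lemma Az_cont (Z : Finset ℂ) (a : ℂ → ℂ) (u : ℝ) : Continuous fun t : ℝ => Az Z a u t := by
  unfold Az; fun_prop

lemma Mz_cont (L : ℝ) (N : ℕ) (b : ℕ → ℂ) (u : ℝ) : Continuous fun t : ℝ => Mz L N b u t := by
  unfold Mz; fun_prop

lemma Az_gint (Z : Finset ℂ) (a : ℂ → ℂ) (s u : ℝ) :
    Integrable fun t : ℝ => ((Real.exp (-(t - s) ^ 2) : ℝ) : ℂ) * Az Z a u t := by
  have h1 : ∀ t : ℝ, ((Real.exp (-(t - s) ^ 2) : ℝ) : ℂ) * Az Z a u t =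
      ∑ z ∈ Z, a z * cexp (I * u * z) * (((Real.exp (-(t - s) ^ 2) : ℝ) : ℂ) * cexp (-(z - t) ^ 2)) := by
    intro t
    unfold Az
    rw [Finset.mul_sum]
    exact Finset.sum_congr rfl fun z _ => by ring
  simp_rw [h1]
  exact integrable_finsetSum _ fun z _ => (Y528.ND.g_int z s).const_mul _

lemma Mz_gint (L : ℝ) (N : ℕ) (b : ℕ → ℂ) (s u : ℝ) :
    Integrable fun t : ℝ => ((Real.exp (-(t - s) ^ 2) : ℝ) : ℂ) * Mz L N b u t := by
  have h1 : ∀ t : ℝ, ((Real.exp (-(t - s) ^ 2) : ℝ) : ℂ) * Mz L N b u t =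
      (1 / (2 * Real.sqrt Real.pi) : ℝ) * ((L : ℂ) * Real.exp (-u ^ 2 / 4)) *
        (((Real.exp (-(t - s) ^ 2) : ℝ) : ℂ) * cexp (I * t * (u : ℝ))) -
      ∑ n ∈ Finset.Icc 1 N, ((1 / (2 * Real.sqrt Real.pi) : ℝ) * (b n * (Real.sqrt n : ℂ)⁻¹ *
        Real.exp (-(u - Real.log n) ^ 2 / 4))) *
        (((Real.exp (-(t - s) ^ 2) : ℝ) : ℂ) * cexp (I * t * ((u - Real.log n : ℝ) : ℂ))) := by
    intro t
    unfold Mz
    rw [mul_sub, mul_sub, Finset.mul_sum, Finset.mul_sum]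
    congr 1
    · ring
    · refine Finset.sum_congr rfl fun n _ => ?_
      push_cast; ring
  simp_rw [h1]
  exact ((Y179.ND.gs_int s u).const_mul _).sub
    (integrable_finsetSum _ fun n _ => (Y179.ND.gs_int s _).const_mul _)

/-- **The linear functional** -/
theorem V_approx (κ0 : ℂ → ℂ) (R : ℝ → ℝ) (hR : Continuous R) (hev : ∀ α, R (-α) = R α)
    (hsq : ∀ z : ℂ, κ0 z ^ 2 = ∫ α in (-1 : ℝ)..1, (R α : ℂ) * cexp (I * z * α))
    {R0 : ℝ} (hR0 : ∀ α ∈ Set.Icc (0 : ℝ) 1, 0 ≤ R α ∧ R α ≤ R0) {Λ L C E κ : ℝ} (hΛ : 0 < Λ)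
    (hC : 0 ≤ C) (hκ : 0 ≤ κ) {N : ℕ} (hN : 1 ≤ N) (b : ℕ → ℂ) (Z : Finset ℂ) (a : ℂ → ℂ)
    (hZ : ∀ z ∈ Z, conj z ∈ Z) (ha : ∀ z ∈ Z, a (conj z) = conj (a z)) (s : ℝ)
    (h1 : ∀ u t : ℝ, 0 ≤ u → u ≤ Λ → |t - s| ≤ κ → ‖Az Z a u t - Mz L N b u t‖ ≤ C * Real.exp (-u))
    (h2 : ∀ u t : ℝ, 0 ≤ u → u ≤ Λ → ‖Az Z a u t - Mz L N b u t‖ ≤ E)
    (h3 : E * Real.exp (-κ ^ 2 / 2) ≤ Real.exp (-Λ)) :
    |(∑ n ∈ Finset.Icc 1 N, dz R Λ L b n * cexp (-(I * s * Real.log n))).re| -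
      4 * R0 * (2 * C + 3) / Λ ≤
    ‖∑ z ∈ Z, a z * (κ0 (Λ * (z - s)) * cexp (-(z - s) ^ 2 / 4)) ^ 2‖ := by
  rw [Y528.ND.t_VEXP κ0 R hR hev hsq Λ hΛ Z a hZ ha s, Complex.norm_real, Real.norm_eq_abs,
    ← Y179.ND.t_GAUS R hR Λ L hΛ N hN b s, Complex.re_ofReal_mul,
    abs_mul (2 * Real.sqrt (2 / Real.pi)), abs_mul (2 * Real.sqrt (2 / Real.pi)),
    abs_of_nonneg (by positivity : (0:ℝ) ≤ 2 * Real.sqrt (2 / Real.pi))]
  set FA : ℝ → ℂ := fun α => (R α : ℂ) * (cexp (-(I * (Λ * α) * s)) *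
    ∫ t : ℝ, ((Real.exp (-(t - s) ^ 2) : ℝ) : ℂ) * Az Z a (Λ * α) t) with hFA
  set FM : ℝ → ℂ := fun α => (R α : ℂ) * (cexp (-(I * (Λ * α) * s)) *
    ∫ t : ℝ, ((Real.exp (-(t - s) ^ 2) : ℝ) : ℂ) * Mz L N b (Λ * α) t) with hFM
  have hFAc : Continuous FA := by
    have e : FA = fun α : ℝ => (R α : ℂ) *
        ((Real.sqrt (Real.pi / 2) : ℂ) * Y528.ND.SS Z a s (Λ * α)) := by
      funext α
      simp only [hFA]
      congr 1
      have := Y528.ND.G_eq Z a s (Λ * α)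
      push_cast at this ⊢
      exact this
    rw [e]
    exact (Complex.continuous_ofReal.comp hR).mul (continuous_const.mul
      ((Y528.ND.SS_cont Z a s).comp (by fun_prop)))
  have hFMc : Continuous FM := by
    have e : FM = fun α : ℝ => (R α : ℂ) * (cexp (-(I * (Λ * α) * s)) *
        (1 / 2 * ((L : ℂ) * cexp (I * s * (Λ * α : ℝ)) * (Real.exp (-(Λ * α) ^ 2 / 2) : ℝ) -
        ∑ n ∈ Finset.Icc 1 N, b n * (Real.sqrt n : ℂ)⁻¹ *
          cexp (I * s * ((Λ * α - Real.log n : ℝ) : ℂ)) *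
            (Real.exp (-(Λ * α - Real.log n) ^ 2 / 2) : ℝ)))) := by
      funext α
      simp only [hFM]
      rw [Y179.ND.gs_M L N b (Λ * α) s]
    rw [e]
    fun_prop
  have hdiff : ‖(∫ α in (0 : ℝ)..1, FM α) - ∫ α in (0 : ℝ)..1, FA α‖ ≤ R0 * (2 * C + 3) / Λ := by
    rw [← intervalIntegral.integral_sub (hFMc.intervalIntegrable _ _) (hFAc.intervalIntegrable _ _)]
    have hR00 : 0 ≤ R0 := by
      obtain ⟨g1, g2⟩ := hR0 0 ⟨le_rfl, zero_le_one⟩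
      linarith
    have hbd : ∀ α ∈ Set.Ioc (0 : ℝ) 1, ‖FM α - FA α‖ ≤ R0 * (2 * C + 3) * Real.exp (-(Λ * α)) := by
      intro α hα
      obtain ⟨g1, g2⟩ := hR0 α ⟨hα.1.le, hα.2⟩
      have hu0 : 0 ≤ Λ * α := by have := hα.1; positivity
      have hu1 : Λ * α ≤ Λ := by have := hα.2; nlinarith
      have e : FM α - FA α = -((R α : ℂ) * (cexp (-(I * (Λ * α) * s)) *
          ∫ t : ℝ, ((Real.exp (-(t - s) ^ 2) : ℝ) : ℂ) * (Az Z a (Λ * α) t - Mz L N b (Λ * α) t))) := by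
        simp only [hFA, hFM]
        simp_rw [mul_sub (((Real.exp (-(_ - s) ^ 2) : ℝ) : ℂ))]
        rw [integral_sub (Az_gint Z a s _) (Mz_gint L N b s _)]
        ring
      rw [e, norm_neg, norm_mul, norm_mul, Complex.norm_real, Real.norm_of_nonneg g1]
      have e2 : ‖cexp (-(I * (Λ * α) * s))‖ = 1 := by
        have : -(I * ((Λ : ℂ) * (α : ℂ)) * (s : ℂ)) = ((-(Λ * α * s) : ℝ) : ℂ) * I := by
          push_cast; ring
        rw [this, Complex.norm_exp_ofReal_mul_I]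
      rw [e2, one_mul]
      have g3 := inner_le (Az_cont Z a (Λ * α)) (Mz_cont L N b (Λ * α)) (s := s) hκ
        (mul_nonneg hC (Real.exp_pos (-(Λ * α))).le) (fun t ht => h1 (Λ * α) t hu0 hu1 ht)
        (fun t => h2 (Λ * α) t hu0 hu1)
      have g4 : Real.exp (-Λ) ≤ Real.exp (-(Λ * α)) := Real.exp_le_exp.2 (by linarith)
      calc R α * _ ≤ R0 * (2 * (C * Real.exp (-(Λ * α))) + 3 * (E * Real.exp (-κ ^ 2 / 2))) :=
            mul_le_mul g2 g3 (norm_nonneg _) hR00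
        _ ≤ R0 * (2 * (C * Real.exp (-(Λ * α))) + 3 * Real.exp (-(Λ * α))) := by
            refine mul_le_mul_of_nonneg_left ?_ hR00
            linarith
        _ = _ := by ring
    refine (intervalIntegral.norm_integral_le_of_norm_le zero_le_one (ae_of_all _ hbd) ?_).trans ?_
    · apply Continuous.intervalIntegrable
      fun_prop
    · rw [intervalIntegral.integral_const_mul]
      have h5 : ∫ α in (0 : ℝ)..1, Real.exp (-(Λ * α)) ≤ 1 / Λ := by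
        have e : ∀ α : ℝ, Real.exp (-(Λ * α)) = Real.exp ((-Λ) * α) := by intro α; ring_nf
        simp_rw [e]
        rw [intervalIntegral.integral_comp_mul_left (fun x => Real.exp x) (neg_ne_zero.2 hΛ.ne'),
          integral_exp, smul_eq_mul]
        rw [mul_zero, Real.exp_zero, mul_one, inv_neg, one_div]
        have : 0 < Real.exp (-Λ) := Real.exp_pos _
        have h6 : 0 < Λ⁻¹ := by positivity
        nlinarith
      calc _ ≤ R0 * (2 * C + 3) * (1 / Λ) := mul_le_mul_of_nonneg_left h5 (by positivity)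
        _ = _ := by ring
  have hre : |(∫ α in (0 : ℝ)..1, FM α).re| ≤ |(∫ α in (0 : ℝ)..1, FA α).re| + R0 * (2 * C + 3) / Λ := by
    have g1 := (abs_re_le_norm ((∫ α in (0 : ℝ)..1, FM α) - ∫ α in (0 : ℝ)..1, FA α)).trans hdiff
    rw [Complex.sub_re] at g1
    have g2 := abs_sub_abs_le_abs_sub (∫ α in (0 : ℝ)..1, FM α).re (∫ α in (0 : ℝ)..1, FA α).re
    linarith
  have hs2 : 2 * Real.sqrt (2 / Real.pi) ≤ 4 := by
    have : Real.sqrt (2 / Real.pi) ≤ 1 := by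
      rw [Real.sqrt_le_one]
      rw [div_le_one Real.pi_pos]
      linarith [Real.pi_gt_three]
    linarith
  have h7 := mul_le_mul_of_nonneg_left hre (by positivity : (0:ℝ) ≤ 2 * Real.sqrt (2 / Real.pi))
  have h8 : 0 ≤ R0 * (2 * C + 3) / Λ := (norm_nonneg _).trans hdiff
  have h9 : 2 * Real.sqrt (2 / Real.pi) * (R0 * (2 * C + 3) / Λ) ≤ 4 * R0 * (2 * C + 3) / Λ := by
    calc _ ≤ 4 * (R0 * (2 * C + 3) / Λ) := mul_le_mul_of_nonneg_right hs2 h8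
      _ = _ := by ring
  rw [mul_add] at h7
  linarith

end Pool.Agent.Y772.ND
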