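import Pool.Agent.H385R2.PerChi
import Pool.Agent.Y772.ND.Vlo

/-! # The window -/

set_option autoImplicit false

open Complex Filter Topology Set MeasureTheory
open scoped ComplexConjugate
open H385

namespace Pool.Agent.Y772.ND

open PerChi (phiw_even Rw_cont)

lemma pi1 : (1 : ℝ) < Real.pi := by linarith [Real.pi_gt_three]

/-- the bound for the window -/
noncomputable def G1 : ℝ := 1 / (2 * Real.sin (1 / 2))

lemma sin_half_pos : 0 < Real.sin (1 / 2) :=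
  Real.sin_pos_of_pos_of_lt_pi (by norm_num) (by linarith [Real.pi_gt_three])

lemma G1_pos : 0 < G1 := by
  unfold G1
  have := sin_half_pos
  positivity

lemma gw_even (x : ℝ) : gw 1 (-x) = gw 1 x := by
  unfold gw; rw [mul_neg, Real.cos_neg]

lemma gw_cont : Continuous (gw 1) := by
  unfold gw; fun_prop

lemma gw_bd (x : ℝ) (hx : x ∈ Set.Icc (-1 / 2 : ℝ) (1 / 2)) : 0 ≤ gw 1 x ∧ gw 1 x ≤ G1 := by
  refine ⟨gw_nonneg 1 one_pos pi1 x (by linarith [hx.1]) (by linarith [hx.2]), ?_⟩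
  unfold gw G1
  rw [one_mul, one_mul]
  have := sin_half_pos
  have h2 := Real.cos_le_one x
  gcongr

/-- the kernel -/
noncomputable def ph (Λ : ℝ) (z : ℂ) : ℂ := kapw 1 (Λ * z) * cexp (-z ^ 2 / 4)

lemma kapw_cont : Continuous (kapw 1) := by
  have h : Continuous (Function.uncurry fun (z : ℂ) (x : ℝ) => (gw 1 x : ℂ) * cexp (I * z * x)) := by
    have := gw_cont
    unfold Function.uncurry
    fun_prop
  exact intervalIntegral.continuous_parametric_intervalIntegral_of_continuous' h _ _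

lemma ph_cont (Λ : ℝ) : Continuous (ph Λ) := by
  unfold ph
  have := kapw_cont
  fun_prop

lemma ph_even (Λ : ℝ) (z : ℂ) : ph Λ (-z) = ph Λ z := by
  unfold ph
  rw [mul_neg, kapw_even, neg_sq]

lemma sqrt2_sq : ((Real.sqrt 2 : ℝ) : ℂ) * ((Real.sqrt 2 : ℝ) : ℂ) = 2 := by
  rw [← Complex.ofReal_mul, Real.mul_self_sqrt (by norm_num)]
  norm_num

lemma ph_eq (Λ : ℝ) (z : ℂ) : ph Λ z = phiw 1 (Λ / Real.sqrt 2) (Real.sqrt 2 * z) := by
  unfold ph phiw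
  have h1 : ((Λ / Real.sqrt 2 : ℝ) : ℂ) * ((Real.sqrt 2 : ℝ) * z) = Λ * z := by
    have h0 : ((Real.sqrt 2 : ℝ) : ℂ) ≠ 0 := by
      rw [Ne, Complex.ofReal_eq_zero]; positivity
    push_cast
    field_simp
  have h2 : -(((Real.sqrt 2 : ℝ) : ℂ) * z) ^ 2 / 8 = -z ^ 2 / 4 := by
    rw [mul_pow, sq ((Real.sqrt 2 : ℝ) : ℂ), sqrt2_sq]; ring
  rw [h1, h2]

lemma gram_ph (Λ : ℝ) : ∃ (E : Type) (_ : NormedAddCommGroup E) (_ : InnerProductSpace ℂ E)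
    (k : ℂ → E), ∀ z w, inner ℂ (k z) (k w) = ph Λ (w - conj z) := by
  obtain ⟨E, i1, i2, k, hk⟩ := gram_w 1 one_pos pi1 (Λ / Real.sqrt 2)
  refine ⟨E, i1, i2, fun z => k (Real.sqrt 2 * z), fun z w => ?_⟩
  rw [hk, ph_eq]
  congr 1
  rw [map_mul, Complex.conj_ofReal]
  ring

lemma Rw_even1 (α : ℝ) : Rw 1 (-α) = Rw 1 α := Rw_even 1 α

lemma Rw_cont1 : Continuous (Rw 1) := Rw_cont 1 one_pos pi1

lemma Rw_nn (α : ℝ) : 0 ≤ Rw 1 α := Rw_nonneg 1 one_pos pi1 α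

lemma Rw_le0 (α : ℝ) (h : 0 ≤ α) : Rw 1 α ≤ Rw 1 0 :=
  Rw_antitone 1 one_pos pi1 (Set.mem_Ici.2 le_rfl) (Set.mem_Ici.2 h) h

lemma Rw_pos (α : ℝ) (h : α ∈ Set.Icc (0 : ℝ) (3 / 4)) : 0 < Rw 1 α := by
  unfold Rw
  have h1 : |α| = α := abs_of_nonneg h.1
  rw [h1, if_pos (by linarith [h.2])]
  have h2 := sin_half_pos
  have h3 : 0 < Real.cos (1 * α) := by
    rw [one_mul]
    exact Real.cos_pos_of_mem_Ioo ⟨by linarith [h.1, Real.pi_gt_three], by linarith [h.2, Real.pi_gt_three]⟩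
  have h4 : 0 < Real.sin (1 * (1 - α)) := by
    rw [one_mul]
    exact Real.sin_pos_of_pos_of_lt_pi (by linarith [h.2]) (by linarith [h.1, Real.pi_gt_three])
  have h5 : 0 < 1 - α := by linarith [h.2]
  rw [show (1 : ℝ) / 2 = 1 / 2 from rfl] at h2
  positivity

lemma Rw0_pos : 0 < Rw 1 0 := Rw_pos 0 ⟨le_rfl, by norm_num⟩

lemma Wz_nn (Λ ℓ : ℝ) : 0 ≤ Wz (Rw 1) Λ ℓ := by
  unfold Wz
  exact intervalIntegral.integral_nonneg zero_le_one fun α _ => mul_nonneg (Rw_nn α) (Real.exp_pos _).le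

lemma gauss_le (Λ ℓ : ℝ) (hΛ : 0 < Λ) : ∫ α in (0 : ℝ)..1, Real.exp (-(Λ * α - ℓ) ^ 2 / 2) ≤ 3 / Λ := by
  have h1 := intervalIntegral.integral_comp_mul_left (a := (0 : ℝ)) (b := 1)
    (fun x => Real.exp (-(x - ℓ) ^ 2 / 2)) hΛ.ne'
  simp only [mul_zero, mul_one, smul_eq_mul] at h1
  rw [h1]
  obtain ⟨j1, j2⟩ := int_gauss2 ℓ
  have h2 : ∫ x in (0 : ℝ)..Λ, Real.exp (-(x - ℓ) ^ 2 / 2) ≤ 3 := by
    rw [intervalIntegral.integral_of_le hΛ.le]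
    exact (setIntegral_le_integral j1 (ae_of_all _ fun x => (Real.exp_pos _).le)).trans j2
  calc Λ⁻¹ * _ ≤ Λ⁻¹ * 3 := mul_le_mul_of_nonneg_left h2 (by positivity)
    _ = 3 / Λ := by ring

lemma Wz_le (Λ ℓ : ℝ) (hΛ : 0 < Λ) : Wz (Rw 1) Λ ℓ ≤ 3 * Rw 1 0 / Λ := by
  unfold Wz
  have h1 : ∫ α in (0 : ℝ)..1, Rw 1 α * Real.exp (-(Λ * α - ℓ) ^ 2 / 2) ≤
      ∫ α in (0 : ℝ)..1, Rw 1 0 * Real.exp (-(Λ * α - ℓ) ^ 2 / 2) := by
    refine intervalIntegral.integral_mono_on zero_le_one ?_ ?_ fun α hα =>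
      mul_le_mul_of_nonneg_right (Rw_le0 α hα.1) (Real.exp_pos _).le
    · have := Rw_cont1
      apply Continuous.intervalIntegrable
      fun_prop
    · apply Continuous.intervalIntegrable
      fun_prop
  refine h1.trans ?_
  rw [intervalIntegral.integral_const_mul]
  calc Rw 1 0 * _ ≤ Rw 1 0 * (3 / Λ) := mul_le_mul_of_nonneg_left (gauss_le Λ ℓ hΛ) (Rw_nn 0)
    _ = _ := by ring

end Pool.Agent.Y772.ND
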