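import Pool.Agent.Y772.ND.Sgl2
import Pool.Agent.Y772.ND.Wnd

/-! # The core: linear combinations of the divisors, upper and lower bounds -/

set_option autoImplicit false

open Complex Filter Topology Set MeasureTheory
open scoped ComplexConjugate
open H370 (zset mult NN Nd Ns)
open W388 H385

namespace Pool.Agent.Y772.ND

open PerChi (zz_spec zz_refl zz_inj zz_re zz_im)

section

variable {ι : Type} [Fintype ι]

lemma Mz_sum (lam : ι → ℝ) (L : ι → ℝ) (N : ℕ) (a : ι → ℕ → ℂ) (u t : ℝ) :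
    Mz (∑ i, lam i * L i) N (fun n => ∑ i, (lam i : ℂ) * a i n) u t =
      ∑ i, (lam i : ℂ) * Mz (L i) N (a i) u t := by
  unfold Mz
  simp_rw [mul_left_comm ((lam _ : ℂ)), ← Finset.mul_sum]
  congr 1
  simp_rw [mul_sub, Finset.sum_sub_distrib]
  congr 1
  · push_cast
    rw [Finset.sum_mul, Finset.sum_mul]
    exact Finset.sum_congr rfl fun i _ => by ring
  · simp_rw [Finset.mul_sum]
    rw [Finset.sum_comm]
    refine Finset.sum_congr rfl fun n _ => ?_
    rw [Finset.sum_mul, Finset.sum_mul, Finset.sum_mul]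
    exact Finset.sum_congr rfl fun i _ => by ring

lemma Mz_crude (L : ℝ) (N : ℕ) (b : ℕ → ℂ) {D : ℝ} (hD : 0 ≤ D)
    (hb : ∀ n, ‖b n‖ ≤ D * ArithmeticFunction.vonMangoldt n) (u t : ℝ) :
    ‖Mz L N b u t‖ ≤ |L| + D * (N : ℝ) ^ 2 := by
  have h9 : (1 / (2 * Real.sqrt Real.pi) : ℝ) ≤ 1 := by
    rw [div_le_one (by positivity)]
    have : 1 ≤ Real.sqrt Real.pi := by
      rw [Real.one_le_sqrt]
      linarith [Real.pi_gt_three]
    linarith
  unfold Mz
  rw [norm_mul, Complex.norm_real, Real.norm_of_nonneg (by positivity : (0:ℝ) ≤ 1 / (2 * Real.sqrt Real.pi))]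
  have h0 : ∀ v : ℝ, Real.exp (-v ^ 2 / 4) ≤ 1 := fun v => by
    rw [Real.exp_le_one_iff]; nlinarith [sq_nonneg v]
  have hcis : ∀ v : ℝ, ‖cexp (I * t * v)‖ = 1 := by
    intro v
    have e : I * (t : ℂ) * (v : ℂ) = ((t * v : ℝ) : ℂ) * I := by push_cast; ring
    rw [e, Complex.norm_exp_ofReal_mul_I]
  have h1 : ‖(L : ℂ) * cexp (I * t * u) * Real.exp (-u ^ 2 / 4)‖ ≤ |L| := by
    rw [norm_mul, norm_mul, hcis, mul_one, Complex.norm_real, Complex.norm_real, Real.norm_eq_abs,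
      Real.norm_of_nonneg (Real.exp_pos _).le]
    exact mul_le_of_le_one_right (abs_nonneg _) (h0 u)
  have h2 : ‖∑ n ∈ Finset.Icc 1 N, b n * (Real.sqrt n : ℂ)⁻¹ * cexp (I * t * (u - Real.log n)) *
      Real.exp (-(u - Real.log n) ^ 2 / 4)‖ ≤ D * (N : ℝ) ^ 2 := by
    refine (norm_sum_le _ _).trans ?_
    have h3 : ∀ n ∈ Finset.Icc 1 N, ‖b n * (Real.sqrt n : ℂ)⁻¹ * cexp (I * t * (u - Real.log n)) *
      Real.exp (-(u - Real.log n) ^ 2 / 4)‖ ≤ D * N := by
      intro n hn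
      obtain ⟨hn1, hn2⟩ := Finset.mem_Icc.1 hn
      have hn1' : (1 : ℝ) ≤ n := by exact_mod_cast hn1
      have hn2' : (n : ℝ) ≤ N := by exact_mod_cast hn2
      have e1 := hcis (u - Real.log n)
      rw [Complex.ofReal_sub] at e1
      rw [norm_mul, norm_mul, norm_mul, e1, mul_one, norm_inv, Complex.norm_real,
        Complex.norm_real, Real.norm_of_nonneg (Real.sqrt_nonneg _),
        Real.norm_of_nonneg (Real.exp_pos _).le]
      have e2 : (Real.sqrt n)⁻¹ ≤ 1 := inv_le_one_of_one_le₀ (Real.one_le_sqrt.2 hn1')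
      have e3 : ‖b n‖ ≤ D * N := by
        refine (hb n).trans ?_
        refine mul_le_mul_of_nonneg_left ?_ hD
        refine ArithmeticFunction.vonMangoldt_le_log.trans ?_
        have := Real.log_le_sub_one_of_pos (show (0:ℝ) < n by linarith)
        linarith
      calc ‖b n‖ * (Real.sqrt n)⁻¹ * Real.exp (-(u - Real.log n) ^ 2 / 4)
          ≤ D * N * 1 * 1 := by
            have := h0 (u - Real.log n)
            gcongr
        _ = _ := by ring
    refine (Finset.sum_le_sum h3).trans ?_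
    rw [Finset.sum_const, Nat.card_Icc, nsmul_eq_mul]
    rw [Nat.add_sub_cancel]
    apply le_of_eq
    ring
  calc _ ≤ 1 * ‖(L : ℂ) * cexp (I * t * u) * Real.exp (-u ^ 2 / 4) -
      ∑ n ∈ Finset.Icc 1 N, b n * (Real.sqrt n : ℂ)⁻¹ * cexp (I * t * (u - Real.log n)) *
      Real.exp (-(u - Real.log n) ^ 2 / 4)‖ := mul_le_mul_of_nonneg_right h9 (norm_nonneg _)
    _ ≤ _ := by
      rw [one_mul]
      exact (norm_sub_le _ _).trans (add_le_add h1 h2)

/-- crude bound for the Gaussian sum over zeros -/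
lemma A1_crude {F : ℂ → ℂ} {V1 V2 : ℝ} (h : (zset F V1 V2).Finite) {u t : ℝ} (hu : 0 ≤ u) :
    ‖A1 F V1 V2 u t‖ ≤ 2 * Real.exp u * NN F V1 V2 := by
  rw [← Az_Zf h, ← sum_wf h]
  unfold Az
  refine (norm_sum_le _ _).trans ?_
  rw [Finset.mul_sum]
  refine Finset.sum_le_sum fun z hz => ?_
  rw [mem_Zf] at hz
  obtain ⟨g1, g2, -, -, -⟩ := hz
  have e1 : (1 / 2 + I * z).re = 1 / 2 - z.im := by simp [sub_eq_add_neg]
  rw [e1] at g1 g2
  rw [norm_mul, norm_mul, Complex.norm_exp, Complex.norm_exp]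
  have e2 : (I * u * z).re = -(u * z.im) := by
    rw [mul_assoc]; simp
  have e3 : (-(z - t) ^ 2).re = -(z.re - t) ^ 2 + z.im ^ 2 := by
    rw [sq]; simp; ring
  rw [e2, e3, ← Real.exp_add]
  have e4 : Real.exp (-(u * z.im) + (-(z.re - t) ^ 2 + z.im ^ 2)) ≤ 2 * Real.exp u := by
    have q1 : Real.exp (-(u * z.im) + (-(z.re - t) ^ 2 + z.im ^ 2)) ≤ Real.exp (1 / 2 + u) := by
      apply Real.exp_le_exp.2
      have : z.im ^ 2 ≤ 1 / 4 := by nlinarith
      nlinarith [sq_nonneg (z.re - t)]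
    have q3 : Real.exp (1 / 2 + u) = Real.exp (1 / 2) * Real.exp u := Real.exp_add _ _
    rw [q3] at q1
    have q2 : Real.exp (1 / 2) ≤ 2 := by
      have h1 := Real.exp_one_lt_d9
      have h2 : Real.exp (1 / 2) ^ 2 = Real.exp 1 := by rw [← Real.exp_nat_mul]; norm_num
      nlinarith [Real.exp_pos (1 / 2)]
    refine q1.trans (mul_le_mul_of_nonneg_right q2 (Real.exp_pos _).le)
  calc ‖(wf F V1 V2 z : ℂ)‖ * _ ≤ ‖(wf F V1 V2 z : ℂ)‖ * (2 * Real.exp u) :=
        mul_le_mul_of_nonneg_left e4 (norm_nonneg _)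
    _ = _ := by ring

end

end Pool.Agent.Y772.ND
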