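import Pool.Agent.Y772.ND.Cor

/-! # The core: the combined zero sum -/

set_option autoImplicit false

open Complex Filter Topology Set MeasureTheory
open scoped ComplexConjugate
open H370 (zset mult NN Nd Ns)
open W388 H385

namespace Pool.Agent.Y772.ND

open PerChi (zz_spec zz_refl zz_inj zz_re zz_im)

section

variable {ι : Type} [Fintype ι]

/-- all zeros -/
noncomputable def ZZ {F : ι → ℂ → ℂ} {V1 V2 : ι → ℝ} (h : ∀ i, (zset (F i) (V1 i) (V2 i)).Finite) :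
    Finset ℂ := Finset.univ.biUnion fun i => Zf (h i)

/-- the combined weights -/
noncomputable def aa (F : ι → ℂ → ℂ) (V1 V2 lam : ι → ℝ) (z : ℂ) : ℂ :=
  ∑ i, (lam i : ℂ) * (wf (F i) (V1 i) (V2 i) z : ℂ)

lemma mem_ZZ {F : ι → ℂ → ℂ} {V1 V2 : ι → ℝ} (h : ∀ i, (zset (F i) (V1 i) (V2 i)).Finite) {z : ℂ} :
    z ∈ ZZ h ↔ ∃ i, 1 / 2 + I * z ∈ zset (F i) (V1 i) (V2 i) := by
  unfold ZZ
  rw [Finset.mem_biUnion]
  constructor
  · rintro ⟨i, -, hi⟩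
    exact ⟨i, (mem_Zf (h i)).1 hi⟩
  · rintro ⟨i, hi⟩
    exact ⟨i, Finset.mem_univ i, (mem_Zf (h i)).2 hi⟩

lemma Az_ZZ {F : ι → ℂ → ℂ} {V1 V2 : ι → ℝ} (h : ∀ i, (zset (F i) (V1 i) (V2 i)).Finite)
    (lam : ι → ℝ) (u t : ℝ) :
    Az (ZZ h) (aa F V1 V2 lam) u t = ∑ i, (lam i : ℂ) * A1 (F i) (V1 i) (V2 i) u t := by
  have h1 : ∀ i, A1 (F i) (V1 i) (V2 i) u t = Az (ZZ h) (fun z => (wf (F i) (V1 i) (V2 i) z : ℂ)) u t := by
    intro i
    rw [← Az_Zf (h i)]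
    unfold Az
    refine Finset.sum_subset ?_ ?_
    · intro z hz
      exact (mem_ZZ h).2 ⟨i, (mem_Zf (h i)).1 hz⟩
    · intro z _ hz
      rw [mem_Zf] at hz
      simp only [wf_notMem hz]
      simp
  simp_rw [h1]
  unfold Az aa
  simp_rw [Finset.mul_sum, Finset.sum_mul]
  rw [Finset.sum_comm]
  refine Finset.sum_congr rfl fun i _ => Finset.sum_congr rfl fun z _ => by ring

lemma ZZ_conj {d A Q : ι → ℝ} {F : ι → ℂ → ℂ} {a : ι → ℕ → ℂ}
    (hF : ∀ i, GoodE (d i) (A i) (Q i) (F i) (a i)) {V1 V2 : ι → ℝ} (hV : ∀ i, 1 ≤ V1 i)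
    (h : ∀ i, (zset (F i) (V1 i) (V2 i)).Finite) (z : ℂ) (hz : z ∈ ZZ h) : conj z ∈ ZZ h := by
  rw [mem_ZZ] at hz ⊢
  obtain ⟨i, hi⟩ := hz
  exact ⟨i, Zf_conj (hF i) (hV i) hi⟩

lemma aa_conj {d A Q : ι → ℝ} {F : ι → ℂ → ℂ} {a : ι → ℕ → ℂ}
    (hF : ∀ i, GoodE (d i) (A i) (Q i) (F i) (a i)) {V1 V2 : ι → ℝ} (hV : ∀ i, 1 ≤ V1 i)
    (lam : ι → ℝ) (z : ℂ) : aa F V1 V2 lam (conj z) = conj (aa F V1 V2 lam z) := by
  unfold aa
  rw [map_sum]
  refine Finset.sum_congr rfl fun i _ => ?_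
  rw [wf_conj (hF i) (hV i), map_mul, Complex.conj_ofReal, Complex.conj_ofReal]

/-- the set of points counted -/
def DD' (F : ι → ℂ → ℂ) (lam : ι → ℝ) (T : ℝ) : Set ℂ :=
  {s : ℂ | 0 < s.re ∧ s.re < 1 ∧ T < s.im ∧ s.im ≤ 2 * T ∧ ∑ i, lam i * (mult (F i) s : ℝ) ≠ 0}

lemma mult_zero {d A Q : ℝ} {F : ℂ → ℂ} {a : ℕ → ℂ} (hF : GoodE d A Q F a) {s : ℂ} (hs : 0 < s.im)
    (h0 : F s ≠ 0) : mult F s = 0 := by
  unfold mult analyticOrderNatAt
  have := (hF.an s hs).analyticOrderAt_eq_zero.2 h0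
  rw [this]
  rfl

lemma DD_fin {d A Q : ι → ℝ} {F : ι → ℂ → ℂ} {a : ι → ℕ → ℂ} (hA : ∀ i, 1 ≤ A i) (hQ : ∀ i, 1 ≤ Q i)
    (hF : ∀ i, GoodE (d i) (A i) (Q i) (F i) (a i)) (lam : ι → ℝ) {T : ℝ} (hT : 1 ≤ T) :
    (DD' F lam T).Finite := by
  have h1 : (⋃ i, zset (F i) T (2 * T)).Finite :=
    Set.finite_iUnion fun i => zset_finite_D (hA i) (hQ i) (hF i) T (2 * T) hT
  refine h1.subset ?_
  rintro s ⟨g1, g2, g3, g4, g5⟩
  obtain ⟨i, -, hi⟩ := Finset.exists_ne_zero_of_sum_ne_zero g5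
  refine Set.mem_iUnion.2 ⟨i, g1, g2, g3, g4, ?_⟩
  by_contra h0
  rw [mult_zero (hF i) (by linarith) h0] at hi
  simp at hi

/-- the number of points with nonzero weight -/
lemma card_le {d A Q : ι → ℝ} {F : ι → ℂ → ℂ} {a : ι → ℕ → ℂ} (hA : ∀ i, 1 ≤ A i) (hQ : ∀ i, 1 ≤ Q i)
    (hF : ∀ i, GoodE (d i) (A i) (Q i) (F i) (a i)) (lam : ι → ℝ) {T : ℝ} (hT : 1 ≤ T)
    {V1 V2 : ι → ℝ} (h : ∀ i, (zset (F i) (V1 i) (V2 i)).Finite) (hV1 : ∀ i, V1 i ≤ T)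
    (hV0 : ∀ i, 1 ≤ V1 i) (hV2 : ∀ i, 2 * T ≤ V2 i) :
    (((ZZ h).filter fun z => aa F V1 V2 lam z ≠ 0).card : ℝ) ≤
      (DD' F lam T).ncard + ∑ i, ((NN (F i) (V1 i) T : ℝ) + (NN (F i) (2 * T) (V2 i) : ℝ)) := by
  classical
  have f1 : ∀ i, (zset (F i) (V1 i) T).Finite := fun i =>
    zset_finite_D (hA i) (hQ i) (hF i) _ _ (hV0 i)
  have f2 : ∀ i, (zset (F i) (2 * T) (V2 i)).Finite := fun i =>
    zset_finite_D (hA i) (hQ i) (hF i) _ _ (by linarith)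
  have hDf := DD_fin hA hQ hF lam hT
  have hinj : Function.Injective fun z : ℂ => 1 / 2 + I * z := by
    intro x y hxy
    have h1 : I * x = I * y := by simpa using hxy
    exact mul_left_cancel₀ I_ne_zero h1
  have hsub : ((ZZ h).filter fun z => aa F V1 V2 lam z ≠ 0).image (fun z : ℂ => 1 / 2 + I * z) ⊆
      hDf.toFinset ∪ Finset.univ.biUnion fun i => ((f1 i).toFinset ∪ (f2 i).toFinset) := by
    intro s hs
    obtain ⟨z, hz, rfl⟩ := Finset.mem_image.1 hs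
    obtain ⟨hz1, hz2⟩ := Finset.mem_filter.1 hz
    obtain ⟨i, hi⟩ := (mem_ZZ h).1 hz1
    obtain ⟨g1, g2, g3, g4, g5⟩ := hi
    rw [Finset.mem_union]
    by_cases hT1 : (1 / 2 + I * z).im ≤ T
    · right
      refine Finset.mem_biUnion.2 ⟨i, Finset.mem_univ _, Finset.mem_union_left _ ?_⟩
      rw [Set.Finite.mem_toFinset]
      exact ⟨g1, g2, g3, hT1, g5⟩
    by_cases hT2 : 2 * T < (1 / 2 + I * z).im
    · right
      refine Finset.mem_biUnion.2 ⟨i, Finset.mem_univ _, Finset.mem_union_right _ ?_⟩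
      rw [Set.Finite.mem_toFinset]
      exact ⟨g1, g2, hT2, g4, g5⟩
    · left
      rw [Set.Finite.mem_toFinset]
      push Not at hT1 hT2
      refine ⟨g1, g2, hT1, hT2, ?_⟩
      intro hsum
      apply hz2
      unfold aa
      have hw : ∀ j, wf (F j) (V1 j) (V2 j) z = (mult (F j) (1 / 2 + I * z) : ℝ) := by
        intro j
        unfold wf
        split_ifs with hj
        · rfl
        · have : F j (1 / 2 + I * z) ≠ 0 := by
            intro h0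
            exact hj ⟨g1, g2, (hV1 j).trans_lt hT1, hT2.trans (hV2 j), h0⟩
          rw [mult_zero (hF j) (by linarith) this]
          simp
      simp_rw [hw]
      have := congrArg (fun x : ℝ => (x : ℂ)) hsum
      push_cast at this ⊢
      exact this
  have hcard := Finset.card_le_card hsub
  rw [Finset.card_image_of_injective _ hinj] at hcard
  have h2 := Finset.card_union_le hDf.toFinset (Finset.univ.biUnion fun i => ((f1 i).toFinset ∪ (f2 i).toFinset))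
  have h3 : (Finset.univ.biUnion fun i => ((f1 i).toFinset ∪ (f2 i).toFinset)).card ≤
      ∑ i, (NN (F i) (V1 i) T + NN (F i) (2 * T) (V2 i)) := by
    refine Finset.card_biUnion_le.trans (Finset.sum_le_sum fun i _ => ?_)
    refine (Finset.card_union_le _ _).trans (add_le_add ?_ ?_)
    · exact LocD.card_le_NN_D (hA i) (hQ i) (hF i) _ _ (hV0 i)
    · exact LocD.card_le_NN_D (hA i) (hQ i) (hF i) _ _ (by linarith)
  have h4 : (DD' F lam T).ncard = hDf.toFinset.card := Set.ncard_eq_toFinset_card _ hDf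
  have h5 : ((ZZ h).filter fun z => aa F V1 V2 lam z ≠ 0).card ≤ (DD' F lam T).ncard +
      ∑ i, (NN (F i) (V1 i) T + NN (F i) (2 * T) (V2 i)) := by
    rw [h4]; omega
  exact_mod_cast h5

end

end Pool.Agent.Y772.ND
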