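import Pool.Agent.Y772.ND.Cor2
import Pool.Agent.Y179.ND.Rank
import Pool.Agent.Y550.ND.Bess
import Pool.Agent.Y50.ND.Qexp
import Pool.Agent.Y179.ND.Far
import Pool.Agent.Y87.ND.Msq
import Pool.Agent.Y876.ND.Mom
import Pool.Agent.Y641.ND.Low

/-! # The core theorem -/

set_option autoImplicit false

open Complex Filter Topology Set MeasureTheory
open scoped ComplexConjugate
open H370 (zset mult NN Nd Ns)
open W388 H385

namespace Pool.Agent.Y772.ND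

open PerChi (zz_spec zz_refl zz_inj zz_re zz_im)

section

variable {ι : Type} [Fintype ι]

/-- the mean square of the combined sum -/
lemma comb_ms {A1' : ι → ℝ → ℂ} (lam : ι → ℝ) (B : ι → ℝ)
    (h1 : ∀ i, Integrable (fun t => ‖A1' i t‖ ^ 2)) (hc : ∀ i, Continuous (A1' i))
    (h2 : ∀ i, ∫ t, ‖A1' i t‖ ^ 2 ≤ B i) :
    ∫ t, ‖∑ i, (lam i : ℂ) * A1' i t‖ ^ 2 ≤ (∑ i, lam i ^ 2) * ∑ i, B i := by
  have hpt : ∀ t, ‖∑ i, (lam i : ℂ) * A1' i t‖ ^ 2 ≤ (∑ i, lam i ^ 2) * ∑ i, ‖A1' i t‖ ^ 2 := by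
    intro t
    have e1 : ‖∑ i, (lam i : ℂ) * A1' i t‖ ≤ ∑ i, |lam i| * ‖A1' i t‖ := by
      refine (norm_sum_le _ _).trans (le_of_eq ?_)
      refine Finset.sum_congr rfl fun i _ => ?_
      rw [norm_mul, Complex.norm_real, Real.norm_eq_abs]
    have e2 := Finset.sum_mul_sq_le_sq_mul_sq Finset.univ (fun i => |lam i|) (fun i => ‖A1' i t‖)
    simp only [sq_abs] at e2
    exact (pow_le_pow_left₀ (norm_nonneg _) e1 2).trans e2
  have i2 : Integrable (fun t => (∑ i, lam i ^ 2) * ∑ i, ‖A1' i t‖ ^ 2) :=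
    (integrable_finsetSum _ fun i _ => h1 i).const_mul _
  have i1 : Integrable (fun t => ‖∑ i, (lam i : ℂ) * A1' i t‖ ^ 2) := by
    refine i2.mono' ?_ (ae_of_all _ fun t => ?_)
    · apply Continuous.aestronglyMeasurable
      have : Continuous fun t => ∑ i, (lam i : ℂ) * A1' i t :=
        continuous_finsetSum _ fun i _ => continuous_const.mul (hc i)
      fun_prop
    · rw [Real.norm_of_nonneg (sq_nonneg _)]
      exact hpt t
  refine (integral_mono i1 i2 hpt).trans ?_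
  rw [integral_const_mul, integral_finsetSum _ fun i _ => h1 i]
  exact mul_le_mul_of_nonneg_left (Finset.sum_le_sum fun i _ => h2 i)
    (Finset.sum_nonneg fun i _ => sq_nonneg _)

/-- **Rank inequality for the combined sum** -/
lemma rank_use {Λ : ℝ} (hΛ : 0 < Λ) (Z : Finset ℂ) (a : ℂ → ℂ) (hZ : ∀ z ∈ Z, conj z ∈ Z)
    (ha : ∀ z ∈ Z, a (conj z) = conj (a z)) {M : ℝ → ℝ} (hM : Continuous M)
    (hMs : ∀ α ∈ Set.Icc (0 : ℝ) 1, ∫ t : ℝ, ‖Az Z a (Λ * α) t‖ ^ 2 ≤ M α) :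
    Integrable (fun s : ℝ => ‖∑ z ∈ Z, a z * (ph Λ (z - s)) ^ 2‖) ∧
    (∫ s : ℝ, ‖∑ z ∈ Z, a z * (ph Λ (z - s)) ^ 2‖) ^ 2 ≤
      (2 * Real.pi * G1 / Λ) ^ 2 * (Z.filter fun z => a z ≠ 0).card *
        (4 * Rw 1 0 * ∫ α in (0 : ℝ)..1, M α) := by
  obtain ⟨E, i1, i2, k, hk⟩ := gram_ph Λ
  have hr := Y179.ND.t_RANK E (ph Λ) k hk (ph_even Λ) (ph_cont Λ) (2 * Real.pi * G1 / Λ)
    (by have := G1_pos; positivity)
    (fun Z c => Y550.ND.t_BESS (gw 1) gw_cont gw_even G1 gw_bd Λ hΛ (ph Λ) (fun z => rfl) Z c) Z a hZ ha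
  refine ⟨hr.1, hr.2.trans ?_⟩
  have hq := Y50.ND.t_QEXP (kapw 1) (Rw 1) Rw_cont1 Rw_even1 (kapw_sq 1 one_pos pi1) Λ hΛ Z a hZ ha
  have hq2 : (∑ z ∈ Z, ∑ w ∈ Z, a z * a w * ph Λ (z - w) ^ 2).re =
      2 * Real.sqrt (2 / Real.pi) * ∫ α in (0 : ℝ)..1, Rw 1 α * ∫ t : ℝ, ‖Az Z a (Λ * α) t‖ ^ 2 := by
    rw [← hq]; rfl
  rw [hq2]
  refine mul_le_mul_of_nonneg_left ?_ (by positivity)
  have hM0 : ∀ α ∈ Set.Icc (0 : ℝ) 1, 0 ≤ M α := fun α hα =>
    (integral_nonneg fun t => sq_nonneg _).trans (hMs α hα)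
  have h1 : ∫ α in (0 : ℝ)..1, Rw 1 α * ∫ t : ℝ, ‖Az Z a (Λ * α) t‖ ^ 2 ≤
      ∫ α in (0 : ℝ)..1, Rw 1 0 * M α := by
    rw [intervalIntegral.integral_of_le zero_le_one, intervalIntegral.integral_of_le zero_le_one]
    refine integral_mono_of_nonneg ?_ ?_ ?_
    · exact ae_of_all _ fun α => mul_nonneg (Rw_nn α) (integral_nonneg fun t => sq_nonneg _)
    · exact (continuous_const.mul hM).integrableOn_Icc.mono_set Set.Ioc_subset_Icc_self
    · refine (ae_restrict_iff' measurableSet_Ioc).2 (ae_of_all _ fun α hα => ?_)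
      have hα' : α ∈ Set.Icc (0 : ℝ) 1 := Set.Ioc_subset_Icc_self hα
      exact mul_le_mul (Rw_le0 α hα'.1) (hMs α hα') (integral_nonneg fun t => sq_nonneg _) (Rw_nn 0)
  rw [intervalIntegral.integral_const_mul] at h1
  have h2 : 2 * Real.sqrt (2 / Real.pi) ≤ 4 := by
    have : Real.sqrt (2 / Real.pi) ≤ 1 := by
      rw [Real.sqrt_le_one]
      rw [div_le_one Real.pi_pos]
      linarith [Real.pi_gt_three]
    linarith
  have h3 : 0 ≤ Rw 1 0 * ∫ α in (0 : ℝ)..1, M α :=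
    mul_nonneg (Rw_nn 0) (intervalIntegral.integral_nonneg zero_le_one hM0)
  calc 2 * Real.sqrt (2 / Real.pi) * _ ≤ 2 * Real.sqrt (2 / Real.pi) * (Rw 1 0 * ∫ α in (0 : ℝ)..1, M α) :=
        mul_le_mul_of_nonneg_left h1 (by positivity)
    _ ≤ 4 * (Rw 1 0 * ∫ α in (0 : ℝ)..1, M α) := mul_le_mul_of_nonneg_right h2 h3
    _ = _ := by ring

lemma M_int (K T κ Λ : ℝ) (hK : 0 ≤ K) (hT : 0 ≤ T) (hΛ : 0 < Λ) :
    ∫ α in (0 : ℝ)..1, K * T * (κ ^ 2 * Real.exp (-(Λ * α) ^ 2 / 2) + Λ * α + 1) ≤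
      K * T * (κ ^ 2 * (3 / Λ) + Λ + 1) := by
  rw [intervalIntegral.integral_const_mul]
  refine mul_le_mul_of_nonneg_left ?_ (by positivity)
  have c1 : Continuous fun α : ℝ => κ ^ 2 * Real.exp (-(Λ * α) ^ 2 / 2) := by fun_prop
  have c2 : Continuous fun α : ℝ => Λ * α := by fun_prop
  have e : ∫ α in (0 : ℝ)..1, (κ ^ 2 * Real.exp (-(Λ * α) ^ 2 / 2) + Λ * α + 1) =
      κ ^ 2 * (∫ α in (0 : ℝ)..1, Real.exp (-(Λ * α) ^ 2 / 2)) + Λ * (1 / 2) + 1 := by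
    have c12 : Continuous fun α : ℝ => κ ^ 2 * Real.exp (-(Λ * α) ^ 2 / 2) + Λ * α := by fun_prop
    rw [intervalIntegral.integral_add (c12.intervalIntegrable _ _) intervalIntegrable_const,
      intervalIntegral.integral_add (c1.intervalIntegrable _ _) (c2.intervalIntegrable _ _),
      intervalIntegral.integral_const_mul, intervalIntegral.integral_const_mul, integral_id,
      intervalIntegral.integral_const]
    norm_num
  rw [e]
  have h1 := gauss_le Λ 0 hΛ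
  simp only [sub_zero] at h1
  have h2 := mul_le_mul_of_nonneg_left h1 (sq_nonneg κ)
  linarith

end

end Pool.Agent.Y772.ND
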