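import Pool.Agent.Y772.ND.Cor3

/-! # The core theorem -/

set_option autoImplicit false

open Complex Filter Topology Set MeasureTheory
open scoped ComplexConjugate
open H370 (zset mult NN Nd Ns)
open W388 H385

namespace Pool.Agent.Y772.ND

section

variable {ι : Type} [Fintype ι]

lemma sq2pi : Real.sqrt (2 / Real.pi) ≤ 1 := by
  rw [Real.sqrt_le_one, div_le_one Real.pi_pos]
  linarith [Real.pi_gt_three]

lemma dz_one {Λ L : ℝ} {b : ℕ → ℂ} (hb : b 1 = 0) :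
    dz (Rw 1) Λ L b 1 = ((Real.sqrt (2 / Real.pi) * Wz (Rw 1) Λ (Real.log (1 : ℕ)) * L : ℝ) : ℂ) := by
  unfold dz
  rw [if_pos rfl, hb]
  push_cast
  ring

lemma dz_one_le {Λ L κ CL : ℝ} {b : ℕ → ℂ} (hb : b 1 = 0) (hκ : 0 < κ) (hΛ : Λ = κ / 20)
    (hL : |L| ≤ CL * κ) : ‖dz (Rw 1) Λ L b 1‖ ≤ 60 * Rw 1 0 * CL := by
  have hΛ0 : 0 < Λ := by rw [hΛ]; positivity
  rw [dz_one hb, Complex.norm_real, Real.norm_eq_abs, abs_mul, abs_mul,
    abs_of_nonneg (Real.sqrt_nonneg _), abs_of_nonneg (Wz_nn Λ _)]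
  have h1 := Wz_le Λ (Real.log (1 : ℕ)) hΛ0
  have hR := Rw0_pos
  calc Real.sqrt (2 / Real.pi) * Wz (Rw 1) Λ (Real.log (1 : ℕ)) * |L| ≤
      1 * (3 * Rw 1 0 / Λ) * (CL * κ) := by
        have := sq2pi
        have := Wz_nn Λ (Real.log (1 : ℕ))
        gcongr
    _ = 60 * Rw 1 0 * CL := by
        rw [hΛ]; field_simp; ring

lemma dz_le {Λ L Db : ℝ} {b : ℕ → ℂ} (hΛ0 : 0 < Λ)
    (hb : ∀ n, ‖b n‖ ≤ Db * ArithmeticFunction.vonMangoldt n) {n : ℕ} (hn : 2 ≤ n) :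
    ‖dz (Rw 1) Λ L b n‖ ≤ (3 * Rw 1 0 * Db) * ArithmeticFunction.vonMangoldt n / (Λ * Real.sqrt n) := by
  have hn0 : (0 : ℝ) < n := by
    have : 0 < n := by omega
    exact_mod_cast this
  have hR := Rw0_pos
  unfold dz
  rw [if_neg (by omega), zero_sub, norm_mul, norm_neg, norm_mul, norm_inv, Complex.norm_real,
    Complex.norm_real, Real.norm_of_nonneg (Real.sqrt_nonneg _), Real.norm_of_nonneg
    (mul_nonneg (Real.sqrt_nonneg _) (Wz_nn Λ _))]
  have h1 := Wz_le Λ (Real.log n) hΛ0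
  have h3 := hb n
  calc Real.sqrt (2 / Real.pi) * Wz (Rw 1) Λ (Real.log n) * (‖b n‖ * (Real.sqrt n)⁻¹) ≤
      1 * (3 * Rw 1 0 / Λ) * ((Db * ArithmeticFunction.vonMangoldt n) * (Real.sqrt n)⁻¹) := by
        have := sq2pi
        have := Wz_nn Λ (Real.log n)
        gcongr
    _ = _ := by
        have : Real.sqrt n ≠ 0 := (Real.sqrt_pos.2 hn0).ne'
        field_simp

lemma alg1 (p G R K c T : ℝ) {κ : ℝ} (hκ : κ ≠ 0) :
    (2 * p * G / (κ / 20)) ^ 2 * c * (4 * R * (K * T * (61 * κ))) =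
      (1600 * p ^ 2 * G ^ 2 * (244 * R * K)) * c * T / κ := by
  field_simp; ring

lemma alg2 {κ : ℝ} (hκ : κ ≠ 0) : κ ^ 2 * (3 / (κ / 20)) = 60 * κ := by
  field_simp; ring

/-- the lower bound for the `L¹` norm -/
lemma low_int {cM T δ : ℝ} (hT : 0 < T) {P : ℝ → ℝ} (hP : Continuous P) {V : ℝ → ℝ}
    (hV : Integrable V) (hV0 : ∀ s, 0 ≤ V s) (h : ∀ s ∈ Set.Icc T (2 * T), P s - δ ≤ V s)
    (hm : cM * T ≤ ∫ s in T..(2 * T), P s) : (cM - δ) * T ≤ ∫ s, V s := by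
  have h1 : ∫ s in T..(2 * T), (P s - δ) ≤ ∫ s in T..(2 * T), V s := by
    refine intervalIntegral.integral_mono_on (by linarith) ?_ hV.intervalIntegrable h
    have : Continuous fun s => P s - δ := hP.sub continuous_const
    exact this.intervalIntegrable _ _
  rw [intervalIntegral.integral_sub (hP.intervalIntegrable _ _) intervalIntegrable_const,
    intervalIntegral.integral_const, smul_eq_mul] at h1
  have h2 : ∫ s in T..(2 * T), V s ≤ ∫ s, V s := by
    rw [intervalIntegral.integral_of_le (by linarith)]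
    exact setIntegral_le_integral hV (ae_of_all _ hV0)
  have h3 : (cM - δ) * T = cM * T - (2 * T - T) * δ := by ring
  linarith

theorem core (d A D Q : ι → ℝ) (F : ι → ℂ → ℂ) (a : ι → ℕ → ℂ) (lam : ι → ℝ)
    (hd : ∀ i, 1 ≤ d i) (hA : ∀ i, 1 ≤ A i) (hD : ∀ i, 0 ≤ D i) (hQ : ∀ i, 1 ≤ Q i)
    (hF : ∀ i, GoodE (d i) (A i) (Q i) (F i) (a i))
    (ha : ∀ i n, ‖a i n‖ ≤ D i * ArithmeticFunction.vonMangoldt n)
    (c1 : ℝ) (hc1 : 0 < c1)
    (hb : ∀ᶠ x : ℝ in atTop, c1 * Real.log x ≤ ∑ n ∈ (Finset.Icc 1 ⌊x⌋₊).filter Nat.Prime,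
      ‖∑ i, (lam i : ℂ) * a i n‖ ^ 2 / (n * Real.log n)) :
    ∃ c : ℝ, 0 < c ∧ ∀ᶠ T : ℝ in atTop, c * T * Real.log T ≤ ((DD' F lam T).ncard : ℝ) := by
  classical
  choose C hC1 hC using fun i => single Y87.ND.t_MSQ Y179.ND.t_FAR (d i) (A i) (hd i) (hA i) (D i)
    (hD i) (Q i) (F i) (a i) (hQ i) (hF i) (ha i)
  set b : ℕ → ℂ := fun n => ∑ i, (lam i : ℂ) * a i n with hbdef
  set Db := ∑ i, |lam i| * D i with hDbdef
  have hDb0 : 0 ≤ Db := Finset.sum_nonneg fun i _ => mul_nonneg (abs_nonneg _) (hD i)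
  have hbD : ∀ n, ‖b n‖ ≤ Db * ArithmeticFunction.vonMangoldt n := by
    intro n
    refine (norm_sum_le _ _).trans ?_
    rw [hDbdef, Finset.sum_mul]
    refine Finset.sum_le_sum fun i _ => ?_
    rw [norm_mul, Complex.norm_real, Real.norm_eq_abs, mul_assoc]
    exact mul_le_mul_of_nonneg_left (ha i n) (abs_nonneg _)
  have hb1 : b 1 = 0 := by
    have := hbD 1
    rw [ArithmeticFunction.vonMangoldt_apply_one, mul_zero] at this
    exact norm_le_zero_iff.1 this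
  set CS := ∑ i, |lam i| * C i with hCS
  have hCS0 : 0 ≤ CS := Finset.sum_nonneg fun i _ => mul_nonneg (abs_nonneg _) (by linarith [hC1 i])
  set CL := ∑ i, |lam i| * (2 * d i) with hCL
  have hCL0 : 0 ≤ CL := Finset.sum_nonneg fun i _ => mul_nonneg (abs_nonneg _) (by linarith [hd i])
  set K2 := (∑ i, lam i ^ 2) * ∑ i, C i with hK2
  have hCi0 : 0 ≤ ∑ i, C i := Finset.sum_nonneg fun i _ => by linarith [hC1 i]
  have hK20 : 0 ≤ K2 := mul_nonneg (Finset.sum_nonneg fun i _ => sq_nonneg _) hCi0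
  have hR0 := Rw0_pos
  set R0 := Rw 1 0 with hR0def
  obtain ⟨c0, Λ0, hc0, hΛ0, hlow⟩ := Y641.ND.t_LOW (Rw 1) Rw_cont1 Rw_pos (fun α _ => Rw_nn α) Db c1 b
    hDb0 hc1 hbD hb
  set C0 := 1 + 60 * R0 * CL + 3 * R0 * Db with hC0
  have hC01 : 1 ≤ C0 := by
    have : 0 ≤ 60 * R0 * CL := by positivity
    have : 0 ≤ 3 * R0 * Db := by positivity
    linarith
  obtain ⟨cM, Λ1, hcM, hΛ1, hmom⟩ := Y876.ND.t_MOM C0 c0 hC01 hc0
  have hG := G1_pos
  set KK := 1600 * Real.pi ^ 2 * G1 ^ 2 * (244 * R0 * K2) + 1 with hKK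
  have hKK0 : 0 < KK := by positivity
  set cc := cM ^ 2 / (4 * KK) with hcc
  have hcc0 : 0 < cc := by positivity
  refine ⟨cc / 2, by positivity, ?_⟩
  -- large heights
  have t1 : ∀ᶠ T : ℝ in atTop, ∀ i, ∃ V1 V2 : ℝ, Fact (C i) (d i * Real.log (Q i * T)) (F i) (a i) T V1 V2 :=
    eventually_all.2 hC
  have t2 : ∀ᶠ T : ℝ in atTop, ∀ i, Real.log (Q i) ≤ Real.log T :=
    eventually_all.2 fun i => Real.tendsto_log_atTop.eventually_ge_atTop _
  have t3 : ∀ᶠ T : ℝ in atTop, 20 * (48 + Λ0 + Λ1) ≤ Real.log T :=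
    Real.tendsto_log_atTop.eventually_ge_atTop _
  have t4 : ∀ᶠ T : ℝ in atTop, (2 * CS + CL + Db) ≤ T := eventually_ge_atTop _
  have t5 : ∀ᶠ T : ℝ in atTop, 20 * (4 * R0 * (2 * CS + 3)) / (cM / 2) ≤ Real.log T :=
    Real.tendsto_log_atTop.eventually_ge_atTop _
  have t6 := ev_exp (4 * (∑ i, C i) / cc) 1 (show (0:ℝ) < 1 by norm_num)
  have t7 := ev_exp 8 1 (show (0:ℝ) < 1 by norm_num)
  filter_upwards [t1, t2, t3, t4, t5, t6, t7, eventually_gt_atTop 1] with T t1 t2 t3 t4 t5 t6 t7 hT1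
  choose V1 V2 hV using t1
  set κ := Real.log T with hκ
  rw [zero_mul, Real.exp_zero, mul_one, pow_one] at t6 t7
  have hT0 : 0 < T := by linarith
  have hTκ : T = Real.exp κ := by rw [hκ, Real.exp_log hT0]
  set Λ := κ / 20 with hΛ
  have hΛ48 : 48 + Λ0 + Λ1 ≤ Λ := by rw [hΛ]; linarith
  have hκ0 : 960 ≤ κ := by linarith
  have hκne : κ ≠ 0 := ne_of_gt (by linarith)
  have hΛpos : 0 < Λ := by linarith
  set N : ℕ := ⌊Real.exp (2 * Λ)⌋₊ with hN
  have hN1 : Real.exp (2 * Λ) < N + 1 := Nat.lt_floor_add_one _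
  have hN2 : (N : ℝ) ≤ Real.exp (2 * Λ) := Nat.floor_le (Real.exp_pos _).le
  have hN0 : 1 ≤ N := by
    rw [hN]
    exact Nat.floor_pos.2 (Real.one_le_exp (by linarith))
  have hNΛ : Real.exp Λ ≤ N := by
    have h1 : Real.exp Λ + 1 ≤ Real.exp (2 * Λ) := by
      rw [two_mul, Real.exp_add]
      have := Real.add_one_le_exp Λ
      nlinarith
    linarith
  have hfin : ∀ i, (zset (F i) (V1 i) (V2 i)).Finite := fun i => (hV i).fin
  have hV1pos : ∀ i, 1 ≤ V1 i := fun i => (hV i).v0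
  set Z := ZZ hfin with hZdef
  set az := aa F V1 V2 lam with hazdef
  have hZc : ∀ z ∈ Z, conj z ∈ Z := ZZ_conj hF hV1pos hfin
  have hac : ∀ z ∈ Z, az (conj z) = conj (az z) := fun z _ => aa_conj hF hV1pos lam z
  set L := ∑ i, lam i * (d i * Real.log (Q i * T)) with hLdef
  have hlogQT : ∀ i, 0 ≤ Real.log (Q i * T) ∧ Real.log (Q i * T) ≤ 2 * κ := by
    intro i
    have h0 := Real.log_nonneg (hQ i)
    rw [Real.log_mul (by linarith [hQ i]) hT0.ne']
    constructor <;> linarith [t2 i]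
  have hLle : |L| ≤ CL * κ := by
    rw [hLdef, hCL, Finset.sum_mul]
    refine (Finset.abs_sum_le_sum_abs _ _).trans (Finset.sum_le_sum fun i _ => ?_)
    obtain ⟨g1, g2⟩ := hlogQT i
    have hdi : 0 ≤ d i := by linarith [hd i]
    rw [abs_mul, abs_of_nonneg (mul_nonneg hdi g1)]
    calc |lam i| * (d i * Real.log (Q i * T)) ≤ |lam i| * (d i * (2 * κ)) := by gcongr
      _ = _ := by ring
  have hAz : ∀ u t : ℝ, Az Z az u t = ∑ i, (lam i : ℂ) * A1 (F i) (V1 i) (V2 i) u t := fun u t =>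
    Az_ZZ hfin lam u t
  have hMz : ∀ u t : ℝ, Mz L N b u t = ∑ i, (lam i : ℂ) * Mz (d i * Real.log (Q i * T)) N (a i) u t :=
    fun u t => Mz_sum lam (fun i => d i * Real.log (Q i * T)) N a u t
  have hΛT : Λ ≤ Real.log T / 20 := le_rfl
  -- near estimate
  have hnear : ∀ u t : ℝ, 0 ≤ u → u ≤ Λ → T - κ ≤ t → t ≤ 2 * T + κ →
      ‖Az Z az u t - Mz L N b u t‖ ≤ CS * Real.exp (-u) := by
    intro u t hu0 hu ht1 ht2
    rw [hAz, hMz, ← Finset.sum_sub_distrib]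
    refine (norm_sum_le _ _).trans ?_
    rw [hCS, Finset.sum_mul]
    refine Finset.sum_le_sum fun i _ => ?_
    rw [← mul_sub, norm_mul, Complex.norm_real, Real.norm_eq_abs, mul_assoc]
    refine mul_le_mul_of_nonneg_left ?_ (abs_nonneg _)
    refine (hV i).ex Λ (by linarith) hΛT N hN1 u t hu0 hu ?_ ?_
    · have := (hV i).v1'; linarith
    · have := (hV i).v2; linarith
  -- crude estimate
  set E := 2 * Real.exp Λ * (CS * T * κ) + (CL * κ + Db * Real.exp (4 * Λ)) with hE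
  have hcrude : ∀ u t : ℝ, 0 ≤ u → u ≤ Λ → ‖Az Z az u t - Mz L N b u t‖ ≤ E := by
    intro u t hu0 hu
    refine (norm_sub_le _ _).trans (add_le_add ?_ ?_)
    · rw [hAz]
      refine (norm_sum_le _ _).trans ?_
      have : 2 * Real.exp Λ * (CS * T * κ) = ∑ i, |lam i| * (2 * Real.exp Λ * (C i * T * κ)) := by
        rw [hCS]
        simp_rw [Finset.sum_mul, Finset.mul_sum]
        exact Finset.sum_congr rfl fun i _ => by ring
      rw [this]
      refine Finset.sum_le_sum fun i _ => ?_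
      rw [norm_mul, Complex.norm_real, Real.norm_eq_abs]
      refine mul_le_mul_of_nonneg_left ?_ (abs_nonneg _)
      refine (A1_crude (hfin i) hu0).trans ?_
      have h1 : Real.exp u ≤ Real.exp Λ := Real.exp_le_exp.2 hu
      have h2 := (hV i).cnt
      gcongr
    · refine (Mz_crude L N b hDb0 hbD u t).trans (add_le_add hLle ?_)
      refine mul_le_mul_of_nonneg_left ?_ hDb0
      calc (N : ℝ) ^ 2 ≤ (Real.exp (2 * Λ)) ^ 2 := by gcongr
        _ = Real.exp (4 * Λ) := by rw [← Real.exp_nat_mul]; congr 1; push_cast; ring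
  have hEle : E * Real.exp (-κ ^ 2 / 2) ≤ Real.exp (-Λ) := by
    have e1 : κ ≤ Real.exp κ := by linarith [Real.add_one_le_exp κ]
    have e2 : E ≤ (2 * CS + CL + Db) * Real.exp (3 * κ) := by
      have x1 : Real.exp Λ ≤ Real.exp κ := Real.exp_le_exp.2 (by rw [hΛ]; linarith)
      have x2 : Real.exp (4 * Λ) ≤ Real.exp (3 * κ) := Real.exp_le_exp.2 (by rw [hΛ]; linarith)
      have x3 : Real.exp (3 * κ) = Real.exp κ * Real.exp κ * Real.exp κ := by
        rw [← Real.exp_add, ← Real.exp_add]; congr 1; ring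
      have x4 : 2 * Real.exp Λ * (CS * T * κ) ≤ 2 * CS * Real.exp (3 * κ) := by
        rw [x3]
        calc 2 * Real.exp Λ * (CS * T * κ) ≤ 2 * Real.exp κ * (CS * Real.exp κ * Real.exp κ) := by
              rw [← hTκ]
              rw [← hTκ] at x1 e1
              gcongr
          _ = _ := by ring
      have x5 : CL * κ ≤ CL * Real.exp (3 * κ) := by
        refine mul_le_mul_of_nonneg_left (e1.trans (Real.exp_le_exp.2 (by linarith))) hCL0
      have x6 : Db * Real.exp (4 * Λ) ≤ Db * Real.exp (3 * κ) := mul_le_mul_of_nonneg_left x2 hDb0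
      rw [hE]
      linarith
    calc E * Real.exp (-κ ^ 2 / 2) ≤ ((2 * CS + CL + Db) * Real.exp (3 * κ)) * Real.exp (-κ ^ 2 / 2) :=
          mul_le_mul_of_nonneg_right e2 (Real.exp_pos _).le
      _ ≤ (Real.exp κ * Real.exp (3 * κ)) * Real.exp (-κ ^ 2 / 2) := by
          rw [hTκ] at t4
          gcongr
      _ = Real.exp (κ + 3 * κ + -κ ^ 2 / 2) := by rw [← Real.exp_add, ← Real.exp_add]
      _ ≤ Real.exp (-Λ) := by
          apply Real.exp_le_exp.2
          rw [hΛ]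
          nlinarith
  -- the coefficients
  set dd := dz (Rw 1) Λ L b with hdd
  have hd1 : (dd 1).im = 0 := by rw [hdd, dz_one hb1, Complex.ofReal_im]
  have hd1' : ‖dd 1‖ ≤ C0 := by
    refine (dz_one_le hb1 (by linarith) hΛ hLle).trans ?_
    have : 0 ≤ 3 * R0 * Db := by positivity
    rw [hC0]; linarith
  have hdn : ∀ n, 2 ≤ n → ‖dd n‖ ≤ C0 * ArithmeticFunction.vonMangoldt n / (Λ * Real.sqrt n) := by
    intro n hn
    refine (dz_le hΛpos hbD hn).trans ?_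
    have h1 : 3 * R0 * Db ≤ C0 := by
      have : 0 ≤ 60 * R0 * CL := by positivity
      rw [hC0]; linarith
    have h2 : 0 ≤ ArithmeticFunction.vonMangoldt n := ArithmeticFunction.vonMangoldt_nonneg
    gcongr
  have hlow2 : c0 ≤ ∑ n ∈ Finset.Icc 1 N, ‖dd n‖ ^ 2 := hlow Λ L N (by linarith) hNΛ
  have hm := hmom Λ T N dd (by linarith) (by
    rw [hTκ]
    apply Real.exp_le_exp.2
    rw [hΛ]; linarith) hN0 hN2 hd1 hd1' hdn hlow2
  -- the rank inequality
  have hms : ∀ α ∈ Set.Icc (0 : ℝ) 1, ∫ t : ℝ, ‖Az Z az (Λ * α) t‖ ^ 2 ≤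
      K2 * T * (κ ^ 2 * Real.exp (-(Λ * α) ^ 2 / 2) + Λ * α + 1) := by
    intro α hα
    have hu0 : 0 ≤ Λ * α := mul_nonneg hΛpos.le hα.1
    have hu1 : Λ * α ≤ Λ := mul_le_of_le_one_right hΛpos.le hα.2
    simp_rw [hAz]
    have h1 := comb_ms (A1' := fun i t => A1 (F i) (V1 i) (V2 i) (Λ * α) t) lam
      (fun i => C i * T * (κ ^ 2 * Real.exp (-(Λ * α) ^ 2 / 2) + Λ * α + 1))
      (fun i => (hV i).ii Λ (by linarith) hΛT _ hu0 hu1)
      (fun i => by
        have : (fun t : ℝ => A1 (F i) (V1 i) (V2 i) (Λ * α) t) = fun t : ℝ =>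
            Az (Zf (hfin i)) (fun z => (wf (F i) (V1 i) (V2 i) z : ℂ)) (Λ * α) t := by
          funext t; rw [Az_Zf (hfin i)]
        change Continuous (fun t : ℝ => A1 (F i) (V1 i) (V2 i) (Λ * α) t)
        rw [this]
        exact Az_cont _ _ _)
      (fun i => (hV i).ms Λ (by linarith) hΛT _ hu0 hu1)
    refine h1.trans (le_of_eq ?_)
    rw [← Finset.sum_mul, ← Finset.sum_mul, hK2]
    ring
  obtain ⟨r1, r2⟩ := rank_use hΛpos Z az hZc hac
    (M := fun α => K2 * T * (κ ^ 2 * Real.exp (-(Λ * α) ^ 2 / 2) + Λ * α + 1)) (by fun_prop) hms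
  have hMi := M_int K2 T κ Λ hK20 hT0.le hΛpos
  -- the lower bound
  set δ := 4 * R0 * (2 * CS + 3) / Λ with hδ
  have hδle : δ ≤ cM / 2 := by
    rw [div_le_iff₀ (by positivity)] at t5
    rw [hδ, div_le_iff₀ hΛpos, hΛ]
    linarith
  have hlo := low_int (cM := cM) (T := T) (δ := δ) hT0
    (P := fun s : ℝ => |(∑ n ∈ Finset.Icc 1 N, dd n * cexp (-(I * s * Real.log n))).re|)
    (by
      have : Continuous fun s : ℝ => (∑ n ∈ Finset.Icc 1 N, dd n * cexp (-(I * s * Real.log n))) := by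
        fun_prop
      exact (Complex.continuous_re.comp this).abs) r1 (fun s => norm_nonneg _) (by
      intro s hs
      refine V_approx (kapw 1) (Rw 1) Rw_cont1 Rw_even1 (kapw_sq 1 one_pos pi1)
        (fun α hα => ⟨Rw_nn α, Rw_le0 α hα.1⟩) hΛpos hCS0 (κ := κ) (by linarith) hN0 b Z az hZc hac s
        (fun u t hu0 hu ht => hnear u t hu0 hu ?_ ?_) (fun u t hu0 hu => hcrude u t hu0 hu) hEle
      · have := (abs_le.1 ht).1; linarith [hs.1]
      · have := (abs_le.1 ht).2; linarith [hs.2]) hm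
  have hI0 : 0 ≤ (cM / 2) * T := by positivity
  have hI1 : (cM / 2) * T ≤ ∫ s : ℝ, ‖∑ z ∈ Z, az z * (ph Λ (z - s)) ^ 2‖ := by
    refine le_trans ?_ hlo
    exact mul_le_mul_of_nonneg_right (by linarith) hT0.le
  have hsq := (pow_le_pow_left₀ hI0 hI1 2).trans r2
  set card : ℝ := ((Z.filter fun z => az z ≠ 0).card : ℝ) with hcard
  have hcard0 : 0 ≤ card := Nat.cast_nonneg _
  have hup : (2 * Real.pi * G1 / Λ) ^ 2 * card *
        (4 * R0 * ∫ α in (0 : ℝ)..1, K2 * T * (κ ^ 2 * Real.exp (-(Λ * α) ^ 2 / 2) + Λ * α + 1)) ≤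
      KK * card * T / κ := by
    have h1 : κ ^ 2 * (3 / Λ) + Λ + 1 ≤ 61 * κ := by
      have : κ ^ 2 * (3 / Λ) = 60 * κ := by rw [hΛ]; exact alg2 hκne
      rw [this, hΛ]; linarith
    have h2 : ∫ α in (0 : ℝ)..1, K2 * T * (κ ^ 2 * Real.exp (-(Λ * α) ^ 2 / 2) + Λ * α + 1) ≤
        K2 * T * (61 * κ) := hMi.trans (mul_le_mul_of_nonneg_left h1 (by positivity))
    have hR4 : 0 ≤ 4 * R0 := by linarith
    have hpc : 0 ≤ (2 * Real.pi * G1 / Λ) ^ 2 * card := mul_nonneg (sq_nonneg _) hcard0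
    have hκpos' : 0 < κ := by linarith
    calc _ ≤ (2 * Real.pi * G1 / Λ) ^ 2 * card * (4 * R0 * (K2 * T * (61 * κ))) :=
          mul_le_mul_of_nonneg_left (mul_le_mul_of_nonneg_left h2 hR4) hpc
      _ = (1600 * Real.pi ^ 2 * G1 ^ 2 * (244 * R0 * K2)) * card * T / κ := by
          rw [hΛ]; exact alg1 _ _ _ _ _ _ hκne
      _ ≤ KK * card * T / κ := by
          have : 1600 * Real.pi ^ 2 * G1 ^ 2 * (244 * R0 * K2) ≤ KK := by rw [hKK]; linarith
          exact div_le_div_of_nonneg_right (mul_le_mul_of_nonneg_right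
            (mul_le_mul_of_nonneg_right this hcard0) hT0.le) hκpos'.le
  have hmain : cc * T * κ ≤ card := by
    have h1 := hsq.trans hup
    have hκpos : 0 < κ := by linarith
    rw [le_div_iff₀ hκpos] at h1
    have h2 : (cM / 2 * T) ^ 2 * κ = T * (cM ^ 2 / 4 * T * κ) := by ring
    have h3 : KK * card * T = T * (KK * card) := by ring
    rw [h2, h3] at h1
    have h4 := le_of_mul_le_mul_left h1 hT0
    have h5 : cc * T * κ = (cM ^ 2 / 4 * T * κ) / KK := by rw [hcc]; field_simp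
    rw [h5, div_le_iff₀ hKK0]
    linarith
  -- boundary zeros
  have hbd := card_le hA hQ hF lam (T := T) (by linarith) hfin (fun i => by
      have := (hV i).v1'; linarith) hV1pos (fun i => by have := (hV i).v2; linarith)
  have hsum : ∑ i, ((NN (F i) (V1 i) T : ℝ) + (NN (F i) (2 * T) (V2 i) : ℝ)) ≤
      2 * (∑ i, C i) * κ ^ 2 := by
    rw [mul_assoc, Finset.sum_mul, Finset.mul_sum]
    refine Finset.sum_le_sum fun i _ => ?_
    have := (hV i).cnt1
    have := (hV i).cnt2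
    linarith
  have hfinal : 2 * (∑ i, C i) * κ ^ 2 ≤ cc / 2 * T * κ := by
    have h1 : 4 * (∑ i, C i) / cc * κ ≤ T := t6
    rw [div_mul_eq_mul_div, div_le_iff₀ hcc0] at h1
    have hκpos : 0 < κ := by linarith
    nlinarith
  have h9 : card ≤ (DD' F lam T).ncard + ∑ i, ((NN (F i) (V1 i) T : ℝ) + (NN (F i) (2 * T) (V2 i) : ℝ)) := hbd
  linarith

end

end Pool.Agent.Y772.ND
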