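import Pool.Agent.W388.TW.EFE
import Pool.Agent.Y772.ND.Stm

/-! # The explicit formula with a finite sum over prime powers -/

set_option autoImplicit false

open Complex Filter Topology Set MeasureTheory
open H370 (zset mult NN Nd Ns)
open W388 H385

namespace Pool.Agent.Y772.ND

/-- the tail of the prime side -/
lemma tail_bd {d A Q : ℝ} {F : ℂ → ℂ} {a : ℕ → ℂ} (hF : GoodE d A Q F a) {Λ u : ℝ} (hΛ : 48 ≤ Λ)
    (h0 : 0 ≤ u) (hu : u ≤ Λ) {N : ℕ} (hN : Real.exp (2 * Λ) < N + 1) (m : ℝ) :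
    ‖PP1 a u m - ∑ n ∈ Finset.Icc 1 N, a n * (Real.sqrt n : ℂ)⁻¹ * cexp (I * m * (u - Real.log n)) *
      Real.exp (-(u - Real.log n) ^ 2 / 4)‖ ≤ A * Real.exp (-u) := by
  set f : ℕ → ℂ := fun n => a n * (Real.sqrt n : ℂ)⁻¹ * cexp (I * m * (u - Real.log n)) *
      Real.exp (-(u - Real.log n) ^ 2 / 4) with hf
  have hnf : ∀ n, ‖f n‖ = ‖a n‖ * ((Real.sqrt n)⁻¹ * Real.exp (-(u - Real.log n) ^ 2 / 4)) := by
    intro n
    simp only [hf]
    rw [norm_mul, norm_mul, norm_mul, norm_inv, Complex.norm_real, Complex.norm_real,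
      Real.norm_of_nonneg (Real.sqrt_nonneg _), Real.norm_of_nonneg (Real.exp_pos _).le]
    have : ‖cexp (I * m * (u - Real.log n))‖ = 1 := by
      have e : I * (m : ℂ) * ((u : ℂ) - (Real.log n : ℂ)) = ((m * (u - Real.log n) : ℝ) : ℂ) * I := by
        push_cast; ring
      rw [e, Complex.norm_exp_ofReal_mul_I]
    rw [this]
    ring
  have hsf : Summable f := by
    refine Summable.of_norm ?_
    simp_rw [hnf]
    exact hF.coef.dom u
  have h1 : PP1 a u m = ∑' n, f n := rfl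
  have h2 : ∑ n ∈ Finset.Icc 1 N, f n = ∑ n ∈ Finset.range (N + 1), f n := by
    have : Finset.range (N + 1) = insert 0 (Finset.Icc 1 N) := by
      ext n; simp only [Finset.mem_range, Finset.mem_insert, Finset.mem_Icc]; omega
    rw [this, Finset.sum_insert (by simp)]
    have : f 0 = 0 := by
      simp only [hf]; rw [hF.ha1 0 (by norm_num)]; simp
    rw [this, zero_add]
  rw [h1]
  change ‖(∑' n, f n) - ∑ n ∈ Finset.Icc 1 N, f n‖ ≤ _
  rw [h2, ← hsf.sum_add_tsum_nat_add (N + 1), add_sub_cancel_left]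
  have hs2 : Summable fun n : ℕ => ‖a (n + (N + 1))‖ * ((n + (N + 1) : ℕ) : ℝ) ^ (-(3 / 2) : ℝ) :=
    (summable_nat_add_iff (N + 1)).2 hF.has
  have hterm : ∀ n : ℕ, ‖f (n + (N + 1))‖ ≤
      (‖a (n + (N + 1))‖ * ((n + (N + 1) : ℕ) : ℝ) ^ (-(3 / 2) : ℝ)) * Real.exp (-u) := by
    intro n
    rw [hnf]
    set k : ℕ := n + (N + 1) with hk
    have hk0 : (0 : ℝ) < k := by
      have : 0 < k := by omega
      exact_mod_cast this
    have hkl : 2 * Λ < Real.log k := by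
      rw [Real.lt_log_iff_exp_lt hk0]
      refine hN.trans_le ?_
      have : N + 1 ≤ k := by omega
      exact_mod_cast this
    set ℓ := Real.log k with hℓ
    rw [mul_assoc]
    refine mul_le_mul_of_nonneg_left ?_ (norm_nonneg _)
    have e1 : Real.exp (-(u - ℓ) ^ 2 / 4) ≤ Real.exp (-ℓ - u) := by
      apply Real.exp_le_exp.2
      have h3 : ℓ / 2 ≤ ℓ - u := by linarith
      have h4 : (ℓ / 2) ^ 2 ≤ (ℓ - u) ^ 2 := pow_le_pow_left₀ (by linarith) h3 2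
      have h5 : 96 * ℓ ≤ ℓ ^ 2 := by nlinarith
      nlinarith
    have e2 : Real.exp (-ℓ - u) = (k : ℝ)⁻¹ * Real.exp (-u) := by
      rw [sub_eq_add_neg, Real.exp_add, Real.exp_neg, Real.exp_log hk0]
    have e3 : (k : ℝ) ^ (-(3 / 2) : ℝ) = (Real.sqrt k)⁻¹ * (k : ℝ)⁻¹ := by
      rw [show (-(3 / 2) : ℝ) = -(1 / 2) + (-1) by norm_num, Real.rpow_add hk0,
        Real.rpow_neg hk0.le, Real.rpow_neg_one, ← Real.sqrt_eq_rpow]
    rw [e3, mul_assoc, ← e2]
    exact mul_le_mul_of_nonneg_left e1 (by positivity)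
  have hs3 := (hs2.mul_right (Real.exp (-u)))
  refine (tsum_of_norm_bounded hs3.hasSum hterm).trans ?_
  rw [tsum_mul_right]
  refine mul_le_mul_of_nonneg_right ?_ (Real.exp_pos _).le
  refine le_trans ?_ hF.ha
  rw [← hF.has.sum_add_tsum_nat_add (N + 1)]
  have : 0 ≤ ∑ n ∈ Finset.range (N + 1), ‖a n‖ * (n : ℝ) ^ (-(3 / 2) : ℝ) :=
    Finset.sum_nonneg fun n _ => by positivity
  linarith

/-- **Finite explicit formula** -/
theorem form (d A : ℝ) (hd : 1 ≤ d) (hA : 1 ≤ A) : ∃ C : ℝ, 0 < C ∧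
    ∀ (Q : ℝ) (F : ℂ → ℂ) (a : ℕ → ℂ), 1 ≤ Q → GoodE d A Q F a →
    ∀ᶠ T : ℝ in atTop, ∃ V1 V2 : ℝ, (T - 3 * Real.log T ≤ V1 ∧ V1 ≤ T - 3 * Real.log T + 1 ∧
      2 * T + 3 * Real.log T - 1 ≤ V2 ∧ V2 ≤ 2 * T + 3 * Real.log T) ∧
      ∀ (Λ : ℝ), 48 ≤ Λ → Λ ≤ Real.log T / 10 → ∀ N : ℕ, Real.exp (2 * Λ) < N + 1 →
      ∀ u m : ℝ, 0 ≤ u → u ≤ Λ → V1 + Real.log T ≤ m → m ≤ V2 - Real.log T →
        ‖A1 F V1 V2 u m - Mz (d * Real.log (Q * T)) N a u m‖ ≤ C * Real.exp (-u) := by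
  obtain ⟨C, hC, h⟩ := A1_formula_D d A hd hA
  refine ⟨2 * C + A, by positivity, ?_⟩
  intro Q F a hQ hF
  have l1 : ∀ᶠ T : ℝ in atTop, (Real.log (Q * T)) ^ 2 * Real.exp (Real.log T / 5 - Real.log T ^ 2 / 2) ≤ 1 := by
    have h1 : ∀ᶠ T : ℝ in atTop, 4 ≤ Real.log T := Real.tendsto_log_atTop.eventually_ge_atTop 4
    have h2 : ∀ᶠ T : ℝ in atTop, Real.log Q ≤ Real.log T :=
      Real.tendsto_log_atTop.eventually_ge_atTop _
    have h3 : ∀ᶠ T : ℝ in atTop, 64 ≤ Real.log T := Real.tendsto_log_atTop.eventually_ge_atTop 64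
    filter_upwards [h1, h2, h3, eventually_gt_atTop 0] with T h1 h2 h3 h4
    rw [Real.log_mul (by positivity) h4.ne']
    set x := Real.log T with hx
    have hlQ : 0 ≤ Real.log Q := Real.log_nonneg hQ
    have e1 : (Real.log Q + x) ^ 2 ≤ (2 * x) ^ 2 := pow_le_pow_left₀ (by linarith) (by linarith) 2
    have e2 : (2 * x) ^ 2 ≤ Real.exp (2 * x) * 4 := by
      have := Real.add_one_le_exp x
      have h5 : x ^ 2 ≤ Real.exp x ^ 2 := pow_le_pow_left₀ (by linarith) (by linarith) 2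
      have h6 : Real.exp (2 * x) = Real.exp x ^ 2 := by
        rw [← Real.exp_nat_mul]; norm_num
      rw [h6]; nlinarith
    have e3 : (4 : ℝ) ≤ Real.exp x := by
      have := Real.add_one_le_exp x
      linarith
    calc (Real.log Q + x) ^ 2 * Real.exp (x / 5 - x ^ 2 / 2)
        ≤ (Real.exp (2 * x) * Real.exp x) * Real.exp (x / 5 - x ^ 2 / 2) := by
          refine mul_le_mul_of_nonneg_right ?_ (Real.exp_pos _).le
          refine (e1.trans e2).trans ?_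
          exact mul_le_mul_of_nonneg_left e3 (Real.exp_pos _).le
      _ = Real.exp (2 * x + x + (x / 5 - x ^ 2 / 2)) := by rw [← Real.exp_add, ← Real.exp_add]
      _ ≤ 1 := by
          rw [Real.exp_le_one_iff]
          nlinarith
  have l2 : ∀ᶠ T : ℝ in atTop, 8 * Real.log T ≤ T := by
    have h1 := (Asymptotics.isLittleO_iff.1 Real.isLittleO_log_id_atTop (show (0:ℝ) < 1 / 8 by norm_num))
    filter_upwards [h1, eventually_gt_atTop 1] with T h1 h2
    rw [Real.norm_of_nonneg (Real.log_nonneg h2.le), id, Real.norm_of_nonneg (by linarith)] at h1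
    linarith
  have l3 : ∀ᶠ T : ℝ in atTop, 3 ≤ Real.log T := Real.tendsto_log_atTop.eventually_ge_atTop 3
  filter_upwards [l1, l2, l3] with T l1 l2 l3
  obtain ⟨V1, V2, h1, h2, h3, h4, h5⟩ := h Q F a hQ hF T (Real.log T) l3 l2
  refine ⟨V1, V2, ⟨h1, h2, h3, h4⟩, ?_⟩
  intro Λ hΛ hΛT N hN u m hu0 hu hm1 hm2
  have h6 := h5 u m hu0 hm1 hm2
  have h7 := tail_bd hF hΛ hu0 hu hN m
  have h8 : (Real.log (Q * T)) ^ 2 * Real.exp (u - Real.log T ^ 2 / 2) ≤ Real.exp (-u) := by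
    have e1 : Real.exp (u - Real.log T ^ 2 / 2) ≤
        Real.exp (-u) * Real.exp (Real.log T / 5 - Real.log T ^ 2 / 2) := by
      rw [← Real.exp_add]
      apply Real.exp_le_exp.2
      linarith
    calc (Real.log (Q * T)) ^ 2 * Real.exp (u - Real.log T ^ 2 / 2)
        ≤ (Real.log (Q * T)) ^ 2 * (Real.exp (-u) * Real.exp (Real.log T / 5 - Real.log T ^ 2 / 2)) :=
          mul_le_mul_of_nonneg_left e1 (sq_nonneg _)
      _ = Real.exp (-u) * ((Real.log (Q * T)) ^ 2 * Real.exp (Real.log T / 5 - Real.log T ^ 2 / 2)) := by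
          ring
      _ ≤ Real.exp (-u) * 1 := mul_le_mul_of_nonneg_left l1 (Real.exp_pos _).le
      _ = Real.exp (-u) := mul_one _
  have h9 : (1 / (2 * Real.sqrt Real.pi) : ℝ) ≤ 1 := by
    rw [div_le_one (by positivity)]
    have : 1 ≤ Real.sqrt Real.pi := by
      rw [Real.one_le_sqrt]
      linarith [Real.pi_gt_three]
    linarith
  have h10 : A1 F V1 V2 u m - Mz (d * Real.log (Q * T)) N a u m =
      (A1 F V1 V2 u m - (1 / (2 * Real.sqrt Real.pi) : ℝ) *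
          (((d * Real.log (Q * T) : ℝ) : ℂ) * cexp (I * m * u) * Real.exp (-u ^ 2 / 4)
            - PP1 a u m)) - ((1 / (2 * Real.sqrt Real.pi) : ℝ) : ℂ) *
      (PP1 a u m - ∑ n ∈ Finset.Icc 1 N, a n * (Real.sqrt n : ℂ)⁻¹ * cexp (I * m * (u - Real.log n)) *
      Real.exp (-(u - Real.log n) ^ 2 / 4)) := by
    unfold Mz
    ring
  rw [h10]
  refine (norm_sub_le _ _).trans ?_
  rw [norm_mul, Complex.norm_real, Real.norm_of_nonneg (by positivity : (0:ℝ) ≤ 1 / (2 * Real.sqrt Real.pi))]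
  have h11 : 1 / (2 * Real.sqrt Real.pi) * ‖PP1 a u m - ∑ n ∈ Finset.Icc 1 N, a n * (Real.sqrt n : ℂ)⁻¹ * cexp (I * m * (u - Real.log n)) *
      Real.exp (-(u - Real.log n) ^ 2 / 4)‖ ≤ 1 * (A * Real.exp (-u)) :=
    mul_le_mul h9 h7 (norm_nonneg _) (by norm_num)
  have h12 : C * (Real.exp (-u) + (Real.log (Q * T)) ^ 2 * Real.exp (u - Real.log T ^ 2 / 2)) ≤
      C * (2 * Real.exp (-u)) := mul_le_mul_of_nonneg_left (by linarith) hC.le
  calc _ ≤ C * (2 * Real.exp (-u)) + 1 * (A * Real.exp (-u)) := add_le_add (h6.trans h12) h11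
    _ = _ := by ring

end Pool.Agent.Y772.ND
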