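import Pool.Agent.W388.TW.NLowE
import Pool.Agent.Y772.ND.Stm2

/-!
# Upper bound for the number of zeros (mirror of `W388.N_lower_core_D` by helper388) and P_NASY
-/

set_option autoImplicit false

open Complex Filter Topology Set MeasureTheory
open H370 (zset mult NN Nd Ns)

namespace Pool.Agent.Y772.ND

open W388

open H385

open NLow Cut

/-- `N_upper_D` from the statements `zset_finite_D`, `zcount_long_D`, `A1_formula_D` -/
theorem N_upper_core_D (d A : ℝ) (hd : 1 ≤ d) (hA : 1 ≤ A)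
    (hfin0 : ∀ (Q : ℝ) (F : ℂ → ℂ) (a : ℕ → ℂ), 1 ≤ Q → GoodE d A Q F a →
      ∀ T1 T2 : ℝ, 1 ≤ T1 → (zset F T1 T2).Finite)
    (hcnt0 : ∃ C : ℝ, 0 < C ∧ ∀ (Q : ℝ) (F : ℂ → ℂ) (a : ℕ → ℂ), 1 ≤ Q →
      GoodE d A Q F a → ∀ T1 T2 : ℝ, 3 ≤ T1 → T1 + 1 ≤ T2 →
      (NN F T1 T2 : ℝ) ≤ C * (T2 - T1) * Real.log (Q * T2))
    (hEF0 : ∃ C : ℝ, 0 < C ∧ ∀ (Q : ℝ) (F : ℂ → ℂ) (a : ℕ → ℂ), 1 ≤ Q →
      GoodE d A Q F a → ∀ T κ : ℝ, 3 ≤ κ → 8 * κ ≤ T →
      ∃ V1 V2 : ℝ, T - 3 * κ ≤ V1 ∧ V1 ≤ T - 3 * κ + 1 ∧ 2 * T + 3 * κ - 1 ≤ V2 ∧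
        V2 ≤ 2 * T + 3 * κ ∧
      ∀ u m : ℝ, 0 ≤ u → V1 + κ ≤ m → m ≤ V2 - κ →
        ‖A1 F V1 V2 u m - (1 / (2 * Real.sqrt Real.pi) : ℝ) *
          (((d * Real.log (Q * T) : ℝ) : ℂ) * cexp (I * m * u) * Real.exp (-u ^ 2 / 4) - PP1 a u m)‖ ≤
        C * (Real.exp (-u) + (Real.log (Q * T)) ^ 2 * Real.exp (u - κ ^ 2 / 2))) :
    ∃ C : ℝ, 0 < C ∧ ∀ (Q : ℝ) (F : ℂ → ℂ) (a : ℕ → ℂ), 1 ≤ Q → GoodE d A Q F a →
    ∀ T κ : ℝ, 3 ≤ κ → 8 * κ ≤ T →
      (NN F T (2 * T) : ℝ) ≤ T / (2 * Real.pi) * (d * Real.log (Q * T)) +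
        C * (T + κ * Real.log (Q * T) + T * Real.log (Q * T) ^ 2 * Real.exp (-κ ^ 2 / 2)) := by
  obtain ⟨C1, hC1, hZ⟩ := hcnt0
  obtain ⟨C2, hC2, hEF⟩ := hEF0
  have hd0 : 0 < d := by linarith
  obtain ⟨K0, hK0, hKe⟩ : ∃ K0 : ℝ, 0 ≤ K0 ∧ Real.exp 1 * A = d * K0 :=
    ⟨Real.exp 1 * A / d, by positivity, by field_simp⟩
  have hdK : 0 ≤ d * K0 := mul_nonneg (by linarith) hK0
  refine ⟨d * K0 + C2 + 24 * C1 + 1, by linarith [hK0], fun Q F a hQ hF T κ hκ hT => ?_⟩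
  obtain ⟨V1, V2, hV1, hV1', hV2, hV2', hform⟩ := hEF Q F a hQ hF T κ hκ hT
  have hfin := hfin0 Q F a hQ hF V1 V2 (by linarith)
  have hT24 : 24 ≤ T := by linarith
  set L := Real.log (Q * T) with hL
  set ε := Real.exp (-κ ^ 2 / 2) with hε
  have hε0 : 0 < ε := Real.exp_pos _
  have hL1 : 2 ≤ L := by
    have h1 : Real.exp 2 ≤ 24 := by
      have h := Real.exp_one_lt_d9
      have h' : Real.exp 2 = Real.exp 1 * Real.exp 1 := by rw [← Real.exp_add]; norm_num
      nlinarith [Real.exp_pos 1]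
    rw [hL, Real.le_log_iff_exp_le (by positivity)]
    nlinarith
  have hlog : ∀ x : ℝ, 0 < x → x ≤ 3 * T → Real.log (Q * x) ≤ 2 * L := by
    intro x hx0 hx
    have h1 : Real.log (Q * x) ≤ Real.log (3 * (Q * T)) := by
      apply Real.log_le_log (by positivity)
      nlinarith
    have h2 : Real.log (3 * (Q * T)) = Real.log 3 + L := by
      rw [hL, Real.log_mul (by norm_num) (by positivity)]
    have h3 : Real.log 3 ≤ 2 := by
      have := Real.log_le_sub_one_of_pos (show (0:ℝ) < 3 by norm_num)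
      linarith
    linarith
  -- integral lower bound
  have hsp := Cut.sqrt_pi_pos
  have hsq1 : Real.sqrt Real.pi ^ 2 = Real.pi := Real.sq_sqrt Real.pi_pos.le
  have hlow : ∀ m ∈ Icc T (2 * T), (A1 F V1 V2 0 m).re ≤
      1 / (2 * Real.sqrt Real.pi) * (d * L + d * K0) + C2 * (1 + L ^ 2 * ε) := by
    intro m hm
    have h1 := hform 0 m le_rfl (by linarith [hm.1]) (by linarith [hm.2])
    have h2 : (((d * L : ℝ) : ℂ) * cexp (I * m * (0 : ℝ)) * (Real.exp (-(0:ℝ) ^ 2 / 4) : ℂ) - PP1 a 0 m) =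
        ((d * L : ℝ) : ℂ) - PP1 a 0 m := by simp
    rw [h2] at h1
    have h3 : C2 * (Real.exp (-(0:ℝ)) + L ^ 2 * Real.exp (0 - κ ^ 2 / 2)) = C2 * (1 + L ^ 2 * ε) := by
      rw [neg_zero, Real.exp_zero, zero_sub, hε]
      congr 4
      ring
    rw [h3] at h1
    have h4 := (abs_le.mp ((Complex.abs_re_le_norm _).trans h1)).2
    rw [Complex.sub_re, Complex.re_ofReal_mul, Complex.sub_re, Complex.ofReal_re] at h4
    have h5 : -(PP1 a 0 m).re ≤ d * K0 :=
      (neg_le_abs _).trans ((Complex.abs_re_le_norm _).trans ((hF.coef.PP1_zero_le m).trans hKe.le))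
    have h6 : 1 / (2 * Real.sqrt Real.pi) * (d * L - (PP1 a 0 m).re) ≤
        1 / (2 * Real.sqrt Real.pi) * (d * L + d * K0) := by
      apply mul_le_mul_of_nonneg_left (by linarith) (by positivity)
    linarith
  have hcont : Continuous (fun m : ℝ => A1 F V1 V2 0 m) := by
    simp only [A1_zero F V1 V2 hfin]
    fun_prop
  have hint : (∫ m in T..(2 * T), A1 F V1 V2 0 m).re ≤
      T * (1 / (2 * Real.sqrt Real.pi) * (d * L + d * K0) + C2 * (1 + L ^ 2 * ε)) := by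
    have h1 : (∫ m in T..(2 * T), A1 F V1 V2 0 m).re = ∫ m in T..(2 * T), (A1 F V1 V2 0 m).re := by
      have := (Complex.reCLM.intervalIntegral_comp_comm
        (hcont.intervalIntegrable (μ := volume) T (2 * T)))
      simpa using this.symm
    rw [h1]
    have h2 : ∫ m in T..(2 * T), (1 / (2 * Real.sqrt Real.pi) * (d * L + d * K0) + C2 * (1 + L ^ 2 * ε)) =
        T * (1 / (2 * Real.sqrt Real.pi) * (d * L + d * K0) + C2 * (1 + L ^ 2 * ε)) := by
      rw [intervalIntegral.integral_const, smul_eq_mul]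
      ring
    rw [← h2]
    apply intervalIntegral.integral_mono_on (by linarith)
    · exact (Complex.continuous_re.comp hcont).intervalIntegrable _ _
    · exact continuous_const.intervalIntegrable _ _
    · exact hlow
  -- lower bound of the zero side
  have hup : ∀ s ∈ hfin.toFinset, (if T < s.im ∧ s.im ≤ 2 * T then (1 : ℝ) else 0) ≤
      (c1 T (zz s)).re +
      3 * (if T - κ < s.im ∧ s.im ≤ T + κ then 1 else 0) +
      3 * (if 2 * T - κ < s.im ∧ s.im ≤ 2 * T + κ then 1 else 0) +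
      2 * ε * (if V1 < s.im ∧ s.im ≤ V2 then 1 else 0) := by
    intro s hs
    rw [Finite.mem_toFinset] at hs
    obtain ⟨hs1, hs2, hs3, hs4, _⟩ := hs
    have him : |(zz s).im| ≤ 1 / 2 := by
      rw [NLow.zz_im, abs_le]
      constructor <;> linarith
    rw [if_pos (⟨hs3, hs4⟩ : V1 < s.im ∧ s.im ≤ V2)]
    have i0 : (if T < s.im ∧ s.im ≤ 2 * T then (1:ℝ) else 0) ≤ 1 := by split_ifs <;> norm_num
    have i2 : (0:ℝ) ≤ if T - κ < s.im ∧ s.im ≤ T + κ then 1 else 0 := by split_ifs <;> norm_num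
    have i3 : (0:ℝ) ≤ if 2 * T - κ < s.im ∧ s.im ≤ 2 * T + κ then 1 else 0 := by
      split_ifs <;> norm_num
    have hng : ∀ z : ℂ, -‖z‖ ≤ z.re := fun z =>
      (neg_le_neg (Complex.abs_re_le_norm z)).trans (neg_abs_le _)
    rcases le_or_gt s.im (T - κ) with h1 | h1
    · have := c1_far T κ (by linarith) (by linarith) (zz s) him (Or.inl (by rw [NLow.zz_re]; exact h1))
      have h2 := hng (c1 T (zz s))
      rw [if_neg (fun h : T < s.im ∧ s.im ≤ 2 * T => by linarith [h.1])]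
      linarith
    rcases le_or_gt s.im (T + κ) with h2 | h2
    · have := c1_bound T (by linarith) (zz s) him
      have h3 := hng (c1 T (zz s))
      rw [if_pos (⟨h1, h2⟩ : T - κ < s.im ∧ s.im ≤ T + κ)]
      linarith
    rcases le_or_gt s.im (2 * T - κ) with h3 | h3
    · have := c1_near T κ (by linarith) (zz s) him (by rw [NLow.zz_re]; exact h2.le)
        (by rw [NLow.zz_re]; exact h3)
      have h4 := hng (c1 T (zz s) - 1)
      rw [Complex.sub_re, Complex.one_re] at h4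
      linarith
    rcases le_or_gt s.im (2 * T + κ) with h4 | h4
    · have := c1_bound T (by linarith) (zz s) him
      have h5 := hng (c1 T (zz s))
      rw [if_pos (⟨h3, h4⟩ : 2 * T - κ < s.im ∧ s.im ≤ 2 * T + κ)]
      linarith
    · have := c1_far T κ (by linarith) (by linarith) (zz s) him (Or.inr (by rw [NLow.zz_re]; exact h4.le))
      have h5 := hng (c1 T (zz s))
      rw [if_neg (fun h : T < s.im ∧ s.im ≤ 2 * T => by linarith [h.2])]
      linarith
  have hsum : (NN F T (2 * T) : ℝ) ≤ (∑ s ∈ hfin.toFinset, (mult F s : ℂ) * c1 T (zz s)).re +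
      3 * NN F (T - κ) (T + κ) + 3 * NN F (2 * T - κ) (2 * T + κ) + 2 * ε * NN F V1 V2 := by
    rw [Complex.re_sum, NN_eq_sum F V1 V2 hfin T (2 * T) (by linarith) (by linarith),
      NN_eq_sum F V1 V2 hfin (T - κ) (T + κ) (by linarith) (by linarith),
      NN_eq_sum F V1 V2 hfin (2 * T - κ) (2 * T + κ) (by linarith) (by linarith),
      NN_eq_sum F V1 V2 hfin V1 V2 le_rfl le_rfl, Finset.mul_sum, Finset.mul_sum, Finset.mul_sum,
      ← Finset.sum_add_distrib, ← Finset.sum_add_distrib, ← Finset.sum_add_distrib]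
    apply Finset.sum_le_sum
    intro s hs
    have h1 : ((mult F s : ℂ) * c1 T (zz s)).re = (mult F s : ℝ) * (c1 T (zz s)).re := by
      rw [show (mult F s : ℂ) = ((mult F s : ℝ) : ℂ) by push_cast; rfl, Complex.re_ofReal_mul]
    rw [h1]
    have h2 := mul_le_mul_of_nonneg_left (hup s hs) (Nat.cast_nonneg (α := ℝ) (mult F s))
    refine h2.trans (le_of_eq ?_)
    ring
  have hcount1 := hZ Q F a hQ hF (T - κ) (T + κ) (by linarith) (by linarith)
  have hcount2 := hZ Q F a hQ hF (2 * T - κ) (2 * T + κ) (by linarith) (by linarith)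
  have hcount3 := hZ Q F a hQ hF V1 V2 (by linarith) (by linarith)
  have hl1 := hlog (T + κ) (by linarith) (by linarith)
  have hl2 := hlog (2 * T + κ) (by linarith) (by linarith)
  have hl3 := hlog V2 (by linarith) (by linarith)
  have hκ0 : 0 < κ := by linarith
  have hT0 : 0 < T := by linarith
  have g1 : (NN F (T - κ) (T + κ) : ℝ) ≤ 4 * C1 * κ * L := by
    have : T + κ - (T - κ) = 2 * κ := by ring
    rw [this] at hcount1
    calc _ ≤ _ := hcount1
      _ ≤ C1 * (2 * κ) * (2 * L) := mul_le_mul_of_nonneg_left hl1 (by positivity)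
      _ = _ := by ring
  have g2 : (NN F (2 * T - κ) (2 * T + κ) : ℝ) ≤ 4 * C1 * κ * L := by
    have : 2 * T + κ - (2 * T - κ) = 2 * κ := by ring
    rw [this] at hcount2
    calc _ ≤ _ := hcount2
      _ ≤ C1 * (2 * κ) * (2 * L) := mul_le_mul_of_nonneg_left hl2 (by positivity)
      _ = _ := by ring
  have g3 : (NN F V1 V2 : ℝ) ≤ 4 * C1 * T * L := by
    calc _ ≤ _ := hcount3
      _ ≤ C1 * (V2 - V1) * (2 * L) := mul_le_mul_of_nonneg_left hl3
          (mul_nonneg hC1.le (by linarith))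
      _ ≤ C1 * (2 * T) * (2 * L) := by
          apply mul_le_mul_of_nonneg_right _ (by linarith)
          apply mul_le_mul_of_nonneg_left (by linarith) hC1.le
      _ = _ := by ring
  have hA1 := A1_integral F V1 V2 T hfin
  have hre := congrArg Complex.re hA1
  rw [Complex.re_ofReal_mul] at hre
  have hfinal : (NN F T (2 * T) : ℝ) ≤ 1 / Real.sqrt Real.pi *
      (T * (1 / (2 * Real.sqrt Real.pi) * (d * L + d * K0) + C2 * (1 + L ^ 2 * ε))) +
      3 * NN F (T - κ) (T + κ) + 3 * NN F (2 * T - κ) (2 * T + κ) +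
        2 * ε * NN F V1 V2 := by
    have h7 : 1 / Real.sqrt Real.pi * (∫ m in T..(2 * T), A1 F V1 V2 0 m).re ≤ 1 / Real.sqrt Real.pi *
      (T * (1 / (2 * Real.sqrt Real.pi) * (d * L + d * K0) + C2 * (1 + L ^ 2 * ε))) :=
          mul_le_mul_of_nonneg_left hint (by positivity)
    rw [hre] at h7
    linarith
  have hs1 : 1 ≤ Real.sqrt Real.pi := by
    rw [Real.le_sqrt (by norm_num) (by positivity)]
    have := Real.pi_gt_three
    linarith
  have hleft : 1 / Real.sqrt Real.pi *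
      (T * (1 / (2 * Real.sqrt Real.pi) * (d * L + d * K0) + C2 * (1 + L ^ 2 * ε))) ≤
      T / (2 * Real.pi) * (d * L) + T * (d * K0) + C2 * (T + T * L ^ 2 * ε) := by
    have e1 : 1 / Real.sqrt Real.pi *
      (T * (1 / (2 * Real.sqrt Real.pi) * (d * L + d * K0) + C2 * (1 + L ^ 2 * ε))) =
      T / (2 * Real.pi) * (d * L) + T * (d * K0) * (1 / (2 * Real.pi)) +
        (1 / Real.sqrt Real.pi) * (C2 * (T + T * L ^ 2 * ε)) := by
      have hs2 : Real.pi = Real.sqrt Real.pi * Real.sqrt Real.pi := by rw [← sq, hsq1]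
      generalize Real.sqrt Real.pi = s at hs2 hsp ⊢
      rw [hs2]
      field_simp
    rw [e1]
    have e2 : 1 / (2 * Real.pi) ≤ 1 := by
      rw [div_le_one (by positivity)]
      have := Real.pi_gt_three
      linarith
    have e3 : 1 / Real.sqrt Real.pi ≤ 1 := by
      rw [div_le_one hsp]
      exact hs1
    have e4 : T * (d * K0) * (1 / (2 * Real.pi)) ≤ T * (d * K0) :=
      mul_le_of_le_one_right (mul_nonneg hT0.le hdK) e2
    have e5 : (1 / Real.sqrt Real.pi) * (C2 * (T + T * L ^ 2 * ε)) ≤ C2 * (T + T * L ^ 2 * ε) :=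
      mul_le_of_le_one_left (by positivity) e3
    linarith
  have g4 : 2 * ε * (NN F V1 V2 : ℝ) ≤ 8 * C1 * (T * L ^ 2 * ε) := by
    calc 2 * ε * (NN F V1 V2 : ℝ) ≤ 2 * ε * (4 * C1 * T * L) :=
          mul_le_mul_of_nonneg_left g3 (by positivity)
      _ = 8 * C1 * T * ε * L := by ring
      _ ≤ 8 * C1 * T * ε * L ^ 2 := by
          apply mul_le_mul_of_nonneg_left _ (by positivity)
          nlinarith
      _ = _ := by ring
  have hTL : 0 ≤ T * L ^ 2 * ε := by positivity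
  have hκL : 0 ≤ κ * L := by positivity
  have hK := hdK
  have q1 := mul_nonneg hK hκL
  have q2 := mul_nonneg hK hTL
  have q3 := mul_nonneg hC2.le hκL
  have q4 := mul_nonneg hC1.le hT0.le
  have q5 := mul_nonneg hC1.le hTL
  have hexp : (d * K0 + C2 + 24 * C1 + 1) * (T + κ * L + T * L ^ 2 * ε) =
      T * (d * K0) + (d * K0) * (κ * L) + (d * K0) * (T * L ^ 2 * ε) + C2 * (T + T * L ^ 2 * ε) + C2 * (κ * L) +
      24 * (C1 * T) + 24 * C1 * (κ * L) + 24 * (C1 * (T * L ^ 2 * ε)) + T + κ * L +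
      T * L ^ 2 * ε := by ring
  rw [hexp]
  have g1' : 3 * (NN F (T - κ) (T + κ) : ℝ) ≤ 12 * C1 * (κ * L) := by linarith
  have g2' : 3 * (NN F (2 * T - κ) (2 * T + κ) : ℝ) ≤ 12 * C1 * (κ * L) := by linarith
  linarith

theorem N_upper_D (d A : ℝ) (hd : 1 ≤ d) (hA : 1 ≤ A) :
    ∃ C : ℝ, 0 < C ∧ ∀ (Q : ℝ) (F : ℂ → ℂ) (a : ℕ → ℂ), 1 ≤ Q → GoodE d A Q F a →
    ∀ T κ : ℝ, 3 ≤ κ → 8 * κ ≤ T →
      (NN F T (2 * T) : ℝ) ≤ T / (2 * Real.pi) * (d * Real.log (Q * T)) +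
        C * (T + κ * Real.log (Q * T) + T * Real.log (Q * T) ^ 2 * Real.exp (-κ ^ 2 / 2)) :=
  N_upper_core_D d A hd hA (fun _ _ _ hQ hF T1 T2 h => zset_finite_D hA hQ hF T1 T2 h)
    (zcount_long_D d A hd hA) (A1_formula_D d A hd hA)

theorem t_NASY : P_NASY := by
  intro d A F a hd hA hF
  obtain ⟨C1, hC1, h1⟩ := N_lower_D d A hd hA
  obtain ⟨C2, hC2, h2⟩ := N_upper_D d A hd hA
  refine ⟨3 * (C1 + C2), ?_⟩
  have e1 : ∀ᶠ T : ℝ in atTop, 3 ≤ Real.log T := Real.tendsto_log_atTop.eventually_ge_atTop 3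
  have e2 : ∀ᶠ T : ℝ in atTop, ‖Real.log T‖ ≤ (1 / 8) * ‖T‖ :=
    Real.isLittleO_log_id_atTop.bound (by norm_num)
  have e3 : ∀ᶠ T : ℝ in atTop, ‖(Real.log T) ^ 2‖ ≤ 1 * ‖T‖ := by
    have := (Real.isLittleO_pow_log_id_atTop (n := 2))
    exact this.bound one_pos
  filter_upwards [e1, e2, e3, eventually_ge_atTop 1] with T g1 g2 g3 g4
  have hT0 : 0 < T := by linarith
  have hl0 : 0 ≤ Real.log T := by linarith
  rw [Real.norm_of_nonneg hl0, Real.norm_of_nonneg hT0.le] at g2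
  rw [Real.norm_of_nonneg (by positivity), Real.norm_of_nonneg hT0.le, one_mul] at g3
  have k1 := h1 1 F a le_rfl hF T (Real.log T) g1 (by linarith)
  have k2 := h2 1 F a le_rfl hF T (Real.log T) g1 (by linarith)
  rw [one_mul] at k1 k2
  have hexp : (Real.log T) ^ 2 * Real.exp (-(Real.log T) ^ 2 / 2) ≤ 1 := by
    have h3 : (Real.log T) ^ 2 / 2 * 2 ≤ Real.exp ((Real.log T) ^ 2 / 2) := by
      have h5 := Real.quadratic_le_exp_of_nonneg (x := (Real.log T) ^ 2 / 2) (by positivity)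
      have h6 : 2 * ((Real.log T) ^ 2 / 2) ≤ 1 + (Real.log T) ^ 2 / 2 + ((Real.log T) ^ 2 / 2) ^ 2 / 2 := by
        have h7 : 9 / 2 ≤ (Real.log T) ^ 2 / 2 := by nlinarith
        nlinarith
      linarith
    have h4 : Real.exp (-(Real.log T) ^ 2 / 2) = (Real.exp ((Real.log T) ^ 2 / 2))⁻¹ := by
      rw [← Real.exp_neg]
      congr 1
      ring
    rw [h4, mul_inv_le_iff₀ (Real.exp_pos _)]
    linarith
  have herr : T + Real.log T * Real.log T + T * Real.log T ^ 2 * Real.exp (-(Real.log T) ^ 2 / 2) ≤ 3 * T := by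
    have h5 : T * (Real.log T ^ 2 * Real.exp (-(Real.log T) ^ 2 / 2)) ≤ T * 1 :=
      mul_le_mul_of_nonneg_left hexp hT0.le
    nlinarith
  have hm : d / (2 * Real.pi) * T * Real.log T = T / (2 * Real.pi) * (d * Real.log T) := by
    ring
  rw [hm, abs_le]
  have c1 := mul_le_mul_of_nonneg_left herr hC1.le
  have c2 := mul_le_mul_of_nonneg_left herr hC2.le
  have c3 := mul_nonneg hC1.le hT0.le
  have c4 := mul_nonneg hC2.le hT0.le
  constructor
  · linarith
  · linarith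

end Pool.Agent.Y772.ND
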