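import Pool.Agent.Y772.ND.Ray
import Pool.Agent.Y773.HG.Asm

/-!
# Mertens type lower bound for linear combinations, and the analytic hypotheses
-/

set_option autoImplicit false

open NumberField Complex Filter Topology Ideal
open scoped ArithmeticFunction.vonMangoldt Pointwise

namespace Pool.Agent.Y772.ND

open Pool.Agent.Y773.G hiding av
open Pool.Agent.Y773 (LI TPos cc rs gal VM exists_pow absNorm_span_nat FEd)
open Pool.Agent.Y772.NZ Pool.Agent.Y772.SK Pool.Agent.Y772.G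
open Pool.Agent.Y772.SL hiding res_mod rs_mod reg_one sel_prime prim_norm_one prim_norm_le coprime_of_norm span_ne_top

lemma av_sum {κ : Type} (s : Finset κ) (f : κ → ℕ → ℝ) (B : κ → ℝ) (ℓ : κ → ℝ)
    (hB : ∀ k ∈ s, ∀ n, |f k n| ≤ B k) (hl : ∀ k ∈ s, Tendsto (av (f k)) (𝓝[>] 0) (𝓝 (ℓ k))) :
    (∀ n, |∑ k ∈ s, f k n| ≤ ∑ k ∈ s, B k) ∧
    Tendsto (av fun n => ∑ k ∈ s, f k n) (𝓝[>] 0) (𝓝 (∑ k ∈ s, ℓ k)) := by
  classical
  induction s using Finset.induction_on with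
  | empty =>
    refine ⟨fun n => by simp, ?_⟩
    have : (av fun _ : ℕ => ∑ k ∈ (∅ : Finset κ), f k 0) = fun _ => 0 := by
      funext σ; unfold av; simp
    simp only [Finset.sum_empty]
    have h2 : (av fun _ : ℕ => (0 : ℝ)) = fun _ => 0 := by
      funext σ; unfold av; simp
    rw [h2]
    exact tendsto_const_nhds
  | insert k s hk ih =>
    obtain ⟨i1, i2⟩ := ih (fun j hj => hB j (Finset.mem_insert_of_mem hj))
      (fun j hj => hl j (Finset.mem_insert_of_mem hj))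
    have b1 := hB k (Finset.mem_insert_self _ _)
    have b2 := hl k (Finset.mem_insert_self _ _)
    simp only [Finset.sum_insert hk]
    refine ⟨fun n => (abs_add_le _ _).trans (add_le_add (b1 n) (i1 n)), ?_⟩
    refine (b2.add i2).congr' ?_
    filter_upwards [self_mem_nhdsWithin] with x hx
    rw [← av_add b1 i1 hx]

variable {K : Type} [Field K] [NumberField K]

/-- the product of the coefficients at a prime -/
lemma cc_mul (hG : IsGalois ℚ K) {ψ ψ' : Ideal (𝓞 K) →*₀ ℂ} (h : ∀ 𝔞, ‖ψ 𝔞‖ ≤ 1)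
    (h' : ∀ 𝔞, ‖ψ' 𝔞‖ ≤ 1) {p : ℕ} (hp : p.Prime)
    (hS : ¬ ∃ P : Ideal (𝓞 K), absNorm P = p ∧ P ∣ differentIdeal ℤ (𝓞 K)) :
    cc ψ p * (starRingEnd ℂ) (cc ψ' p) = ∑ σ : Gal(K/ℚ), cc (rp σ ψ ψ') p := by
  classical
  obtain ⟨A, hA, hDK⟩ := DK.t_dirK K
  have hv := fun (φ : Ideal (𝓞 K) →*₀ ℂ) (hφ : ∀ 𝔞, ‖φ 𝔞‖ ≤ 1) => (hDK φ hφ).2.2.2.2.2.2.2.1
  by_cases hT : p ∈ TT K
  · obtain ⟨-, P, hP⟩ := hT
    have hnd : ¬ P ∣ differentIdeal ℤ (𝓞 K) := fun hd => hS ⟨P, hP, hd⟩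
    have e0 := hv ψ h p hp
    have e1 := hv ψ' h' p hp
    have e2 := fun σ : Gal(K/ℚ) => hv _ (rp_norm h h' σ) p hp
    rw [sum_orbit hG hp hP hnd] at e0 e1
    simp only [sum_orbit hG hp hP hnd, rp_apply, smul_smul] at e2
    rw [e0, e1, map_sum, Finset.sum_mul]
    simp_rw [e2]
    rw [Finset.sum_comm]
    refine Finset.sum_congr rfl fun g _ => ?_
    rw [Finset.mul_sum]
    exact (Fintype.sum_equiv (Equiv.mulRight g) _ _ fun s => rfl).symm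
  · rw [cc_zero_of_not hp (hv ψ h p hp) hT, zero_mul]
    refine (Finset.sum_eq_zero fun σ _ => ?_).symm
    exact cc_zero_of_not hp (hv _ (rp_norm h h' σ) p hp) hT

/-- **Mertens type lower bound** -/
theorem mertens_low (hG : IsGalois ℚ K) {ι : Type} [Fintype ι] (𝔣 : ι → Ideal (𝓞 K))
    (ψ : ι → Ideal (𝓞 K) →*₀ ℂ) (hψ : ∀ i, IsPrimChar K (𝔣 i) (ψ i)) (hf : ∀ i, 𝔣 i ≠ ⊤)
    (hne : ∀ i j, i ≠ j → ∀ σ : Gal(K/ℚ), ∃ 𝔞, ψ i 𝔞 ≠ 0 ∧ ψ j (σ • 𝔞) ≠ 0 ∧ ψ i 𝔞 ≠ ψ j (σ • 𝔞))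
    (lam : ι → ℝ) (hlam : lam ≠ 0) :
    ∃ c1 : ℝ, 0 < c1 ∧ ∀ᶠ x : ℝ in atTop, c1 * Real.log x ≤
      ∑ n ∈ (Finset.Icc 1 ⌊x⌋₊).filter Nat.Prime,
        ‖∑ i, (lam i : ℂ) * (cc (ψ i) n * (Λ n : ℂ))‖ ^ 2 / (n * Real.log n) := by
  classical
  obtain ⟨j, hj⟩ := Function.ne_iff.1 hlam
  have hj' : lam j ≠ 0 := hj
  obtain ⟨A, hA, hDK⟩ := DK.t_dirK K
  have hb := fun (φ : Ideal (𝓞 K) →*₀ ℂ) (hφ : ∀ 𝔞, ‖φ 𝔞‖ ≤ 1) => (hDK φ hφ).2.2.2.2.2.2.1
  set n := Module.finrank ℚ K with hn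
  have hle : ∀ i 𝔞, ‖ψ i 𝔞‖ ≤ 1 := fun i => prim_norm_le (hψ i)
  -- limits
  have hlim : ∀ i σ, ∃ ℓ : ℝ, Tendsto (av fun n => (cc (rp σ (ψ i) (ψ j)) n).re) (𝓝[>] 0) (𝓝 ℓ) ∧
      0 ≤ ℓ ∧ (i ≠ j → ℓ = 0) ∧ (i = j → σ = 1 → ℓ = 1) := by
    intro i σ
    by_cases h : ∃ 𝔞, ψ i 𝔞 ≠ 0 ∧ ψ j (σ • 𝔞) ≠ 0 ∧ ψ i 𝔞 ≠ ψ j (σ • 𝔞)
    · refine ⟨0, rp_av (hψ i) (hψ j) (hf i) σ h, le_rfl, fun _ => rfl, ?_⟩
      rintro rfl rfl
      obtain ⟨𝔞, -, -, h3⟩ := h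
      rw [one_smul] at h3
      exact absurd rfl h3
    · refine ⟨1, ?_, zero_le_one, fun hij => absurd (hne i j hij σ) h, fun _ _ => rfl⟩
      push Not at h
      exact rp_av_one (hψ i) (hψ j) σ h
  choose ℓ hℓ hℓ0 hℓz hℓ1 using hlim
  set s : ℝ := ((SignType.sign (lam j) : SignType) : ℝ) with hs
  have hsl : s * lam j = |lam j| := sign_mul_self (lam j)
  have hs1 : |s| ≤ 1 := by
    rw [hs]
    rcases lt_trichotomy (lam j) 0 with h | h | h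
    · rw [sign_neg h]; simp
    · exact absurd h hj'
    · rw [sign_pos h]; simp
  -- the comparison sequence
  have h1 := fun i => av_sum (Finset.univ : Finset Gal(K/ℚ)) (fun σ k => (cc (rp σ (ψ i) (ψ j)) k).re)
    (fun _ => (n : ℝ)) (ℓ i) (fun σ _ k => (abs_re_le_norm _).trans (hb _ (rp_norm (hle i) (hle j) σ) k))
    (fun σ _ => hℓ i σ)
  have h2 := av_sum (Finset.univ : Finset ι) (fun i k => (s * lam i) * ∑ σ, (cc (rp σ (ψ i) (ψ j)) k).re)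
    (fun i => |s * lam i| * ∑ σ : Gal(K/ℚ), (n : ℝ)) (fun i => (s * lam i) * ∑ σ, ℓ i σ)
    (fun i _ k => by rw [abs_mul]; exact mul_le_mul_of_nonneg_left ((h1 i).1 k) (abs_nonneg _))
    (fun i _ => by
      refine ((h1 i).2.const_mul (s * lam i)).congr' ?_
      filter_upwards with x
      rw [av_mul])
  have hL : |lam j| ≤ ∑ i, (s * lam i) * ∑ σ, ℓ i σ := by
    rw [Finset.sum_eq_single j]
    · rw [hsl]
      refine le_mul_of_one_le_right (abs_nonneg _) ?_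
      rw [← hℓ1 j 1 rfl rfl]
      exact Finset.single_le_sum (fun σ _ => hℓ0 j σ) (Finset.mem_univ 1)
    · intro i _ hij
      rw [Finset.sum_eq_zero fun σ _ => hℓz i σ hij, mul_zero]
    · intro h; exact absurd (Finset.mem_univ j) h
  -- the two sequences
  set f : ℕ → ℂ := fun k => ∑ i, (lam i : ℂ) * cc (ψ i) k with hfdef
  set g : ℕ → ℂ := fun k => (s : ℂ) * cc (ψ j) k with hgdef
  set D : ℝ := (∑ i, |lam i|) * n + n + 1 with hD
  have hn0 : (0 : ℝ) ≤ n := Nat.cast_nonneg _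
  have hS0 : 0 ≤ ∑ i, |lam i| := Finset.sum_nonneg fun i _ => abs_nonneg _
  have hfb : ∀ k, ‖f k‖ ≤ (∑ i, |lam i|) * n := by
    intro k
    refine (norm_sum_le _ _).trans ?_
    rw [Finset.sum_mul]
    refine Finset.sum_le_sum fun i _ => ?_
    rw [norm_mul, Complex.norm_real, Real.norm_eq_abs]
    exact mul_le_mul_of_nonneg_left (hb _ (hle i) k) (abs_nonneg _)
  have hgb : ∀ k, ‖g k‖ ≤ n := by
    intro k
    rw [hgdef]
    simp only
    rw [norm_mul, Complex.norm_real, Real.norm_eq_abs]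
    calc |s| * ‖cc (ψ j) k‖ ≤ 1 * n := mul_le_mul hs1 (hb _ (hle j) k) (norm_nonneg _) zero_le_one
      _ = n := one_mul _
  have hbadf := finite_bad K
  have hcong := av_congr (u := fun k => (f k * (starRingEnd ℂ) (g k)).re) (A := (∑ i, |lam i|) * n * n)
    (fun k => by
      refine (abs_re_le_norm _).trans ?_
      rw [norm_mul, RCLike.norm_conj]
      exact mul_le_mul (hfb k) (hgb k) (norm_nonneg _) (by positivity)) h2.1 hbadf.toFinset (by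
      intro p hp hS
      rw [Set.Finite.mem_toFinset] at hS
      have e : ∀ i, cc (ψ i) p * (starRingEnd ℂ) (cc (ψ j) p) = ∑ σ : Gal(K/ℚ), cc (rp σ (ψ i) (ψ j)) p :=
        fun i => cc_mul hG (hle i) (hle j) hp hS
      have e2 : f p * (starRingEnd ℂ) (g p) =
          ∑ i, ((s * lam i : ℝ) : ℂ) * (cc (ψ i) p * (starRingEnd ℂ) (cc (ψ j) p)) := by
        simp only [hfdef, hgdef]
        rw [map_mul, Complex.conj_ofReal, Finset.sum_mul]
        refine Finset.sum_congr rfl fun i _ => ?_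
        push_cast; ring
      rw [e2, re_sum]
      refine Finset.sum_congr rfl fun i _ => ?_
      rw [Complex.re_ofReal_mul, e i, re_sum]) h2.2
  have hev := hcong.eventually_const_lt (u := |lam j| / 2) (lt_of_lt_of_le (by
    have : 0 < |lam j| := abs_pos.2 hj'
    linarith) hL)
  obtain ⟨c1, hc1, h3⟩ := Y532.ND.t_TAU D (|lam j| / 2) f g (by positivity)
    (by have : 0 < |lam j| := abs_pos.2 hj'
        positivity)
    (fun k => (hfb k).trans (by rw [hD]; linarith)) (fun k => (hgb k).trans (by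
      rw [hD]
      have : 0 ≤ (∑ i, |lam i|) * n := by positivity
      linarith)) (by
      filter_upwards [hev] with σ hσ
      exact hσ.le)
  refine ⟨c1, hc1, ?_⟩
  filter_upwards [h3] with x hx
  refine hx.trans (le_of_eq (Finset.sum_congr rfl fun k _ => ?_))
  congr 2
  simp only [hfdef]
  rw [Finset.mul_sum]
  congr 1
  refine Finset.sum_congr rfl fun i _ => by ring

/-- **The L-function of a primitive ray class character satisfies the analytic hypotheses** -/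
theorem good_prim {𝔣 : Ideal (𝓞 K)} {ψ : Ideal (𝓞 K) →*₀ ℂ} (h : IsPrimChar K 𝔣 ψ) (htop : 𝔣 ≠ ⊤) :
    ∃ (A : ℝ) (F : ℂ → ℂ), 1 ≤ A ∧ Differentiable ℂ F ∧ (∀ s : ℂ, 1 < s.re → F s = LI ψ s) ∧
      W388.GoodE (Module.finrank ℚ K : ℝ) A 1 F (fun n => cc ψ n * (Λ n : ℂ)) := by
  classical
  obtain ⟨A₁, hA₁, hdir⟩ := Pool.Agent.Y772.DK.t_dirK K
  have hdirψ := hdir ψ (prim_norm_le h)
  have h𝔡 : differentIdeal ℤ (𝓞 K) ≠ ⊥ := differentIdeal_ne_bot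
  set N : ℝ := ((Ideal.absNorm 𝔣 * Ideal.absNorm (differentIdeal ℤ (𝓞 K)) : ℕ) : ℝ) with hN
  have hN1 : 1 ≤ N := by
    rw [hN]
    have h4 : Ideal.absNorm 𝔣 * Ideal.absNorm (differentIdeal ℤ (𝓞 K)) ≠ 0 :=
      mul_ne_zero (fun h1 => h.ne_bot (Ideal.absNorm_eq_zero_iff.mp h1))
        (fun h1 => h𝔡 (Ideal.absNorm_eq_zero_iff.mp h1))
    exact_mod_cast Nat.one_le_iff_ne_zero.mpr h4
  obtain ⟨A₂, hA₂, hfe⟩ := Pool.Agent.Y772.FE.t_fed (K →+* ℂ) N hN1 A₁ hA₁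
  obtain ⟨e, he⟩ := IsPrimChar.isModChar t_sig h htop
  obtain ⟨F, hfed0, hFL⟩ := fe_prim h he
  have hfed : FEd (N * (1 : ℝ) ^ Fintype.card (K →+* ℂ)) (ex e) F := by
    rw [one_pow, mul_one, hN]; exact hfed0
  refine ⟨max A₁ A₂, F, le_max_of_le_left hA₁, hfed.diff, hFL, ?_⟩
  obtain ⟨-, hd2, hd3, hd4, hd5, hd6, -, -, hs9, hs10, -⟩ := hdirψ
  have hnz : ∀ s : ℂ, 1 ≤ s.re → F s ≠ 0 := by
    intro s hs
    rcases hs.lt_or_eq with h1 | h1
    · rw [hFL s h1]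
      exact hd3 s h1
    · exact nv_tot t_ent he h1.symm (hfed.diff.analyticAt s) (Eventually.of_forall hFL)
  have hbd : ∀ s : ℂ, 3 / 2 ≤ s.re → ‖F s‖ ≤ A₁ := by
    intro s hs
    rw [hFL s (by linarith)]
    exact hd5 s hs
  obtain ⟨g1, g2, g3, g4⟩ := hfe 1 le_rfl (ex e) F hfed hbd (fun s h1 _ => hnz s h1)
  have hcard : (Fintype.card (K →+* ℂ) : ℝ) = (Module.finrank ℚ K : ℝ) := by
    rw [card_emb]
  have hnorm' : ∀ n : ℕ, ‖cc ψ n * (Λ n : ℂ)‖ * (n : ℝ) ^ (-(3 / 2) : ℝ) =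
      ArithmeticFunction.vonMangoldt n * ‖cc ψ n‖ * (n : ℝ) ^ (-(3 / 2) : ℝ) := by
    intro n
    rw [norm_mul, Complex.norm_real, Real.norm_of_nonneg ArithmeticFunction.vonMangoldt_nonneg,
      mul_comm ‖cc ψ n‖]
  have hsum : Summable fun n : ℕ => ‖cc ψ n * (Λ n : ℂ)‖ * (n : ℝ) ^ (-(3 / 2) : ℝ) :=
    hs9.congr fun n => (hnorm' n).symm
  refine
    { an := fun s _ => hfed.diff.analyticAt s
      growth := ?_
      lower := ?_
      nzr := fun s h1 _ => hnz s h1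
      nzl := g2
      symm := g3
      ha1 := ?_
      has := hsum
      ha := ?_
      ld := ?_
      left := ?_ }
  · intro s h1 h2 h3
    refine (g1 s h1 h2 h3).trans ?_
    have h4 : 1 ≤ (1 : ℝ) * s.im := by linarith
    have h5 : A₂ ≤ max A₁ A₂ := le_max_right _ _
    gcongr
  · intro t ht
    have h1 : (1 : ℝ) < ((⟨2, t⟩ : ℂ)).re := by norm_num
    rw [hFL _ h1]
    refine le_trans ?_ (hd6 (⟨2, t⟩ : ℂ) le_rfl)
    have h5 : A₁ ≤ max A₁ A₂ := le_max_left _ _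
    gcongr
  · intro n hn
    interval_cases n
    · simp
    · simp
  · refine le_trans (le_of_eq ?_) (hs10.trans (le_max_left _ _))
    exact tsum_congr hnorm'
  · intro s hs _
    have h1 : F =ᶠ[𝓝 s] LI ψ := by
      have : {s : ℂ | 1 < s.re} ∈ 𝓝 s :=
        (isOpen_lt continuous_const Complex.continuous_re).mem_nhds hs
      filter_upwards [this] with z hz using hFL z hz
    rw [h1.deriv_eq, hFL s hs, hd4 s hs]
  · intro s h1 h2 h3 h4
    have := g4 s h1 h2 h3 h4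
    rw [hcard] at this
    exact this.trans (le_max_right _ _)

end Pool.Agent.Y772.ND
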