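import Pool.Agent.Y772.ND.Cor4
import Pool.Agent.Y772.ND.Ray2

/-!
# Linear independence of the divisors of L-functions of ray class characters: public definitions
-/

set_option autoImplicit false

open NumberField Complex Filter Topology

namespace Pool.Agent.Y772.ND.Pub

variable {K : Type} [Field K] [NumberField K]

/-- `x` is positive at all real places -/
def TotPos (x : 𝓞 K) : Prop := ∀ σ : K →+* ℝ, 0 < σ (x : K)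

variable (K) in
/-- `ψ` is a primitive ray class character of `K` of conductor `𝔣` (times some real places), as a
multiplicative function on the ideals, zero on the ideals which are not prime to `𝔣`. -/
structure IsRay (𝔣 : Ideal (𝓞 K)) (ψ : Ideal (𝓞 K) →*₀ ℂ) : Prop where
  ne_bot : 𝔣 ≠ ⊥
  supp : ∀ 𝔞 : Ideal (𝓞 K), 𝔞 ≠ ⊥ → (ψ 𝔞 ≠ 0 ↔ IsCoprime 𝔞 𝔣)
  ray : ∀ x : 𝓞 K, x ≠ 0 → x - 1 ∈ 𝔣 → TotPos x → ψ (Ideal.span {x}) = 1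
  prim : ∀ 𝔤 : Ideal (𝓞 K), 𝔤 ∣ 𝔣 → 𝔤 ≠ 𝔣 →
    ∃ x : 𝓞 K, x - 1 ∈ 𝔤 ∧ TotPos x ∧ IsCoprime (Ideal.span {x}) 𝔣 ∧ ψ (Ideal.span {x}) ≠ 1

/-- `ψ` is not equal to `ψ' ∘ σ` for any automorphism `σ` of `K` : they differ at some ideal at which
neither of them vanishes. -/
def NotConj (ψ ψ' : Ideal (𝓞 K) →*₀ ℂ) : Prop := ∀ σ : K ≃ₐ[ℚ] K, ∃ 𝔞 : Ideal (𝓞 K),
  ψ 𝔞 ≠ 0 ∧ ψ' (𝔞.map (RingOfIntegers.mapRingEquiv σ.toRingEquiv : 𝓞 K →+* 𝓞 K)) ≠ 0 ∧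
    ψ 𝔞 ≠ ψ' (𝔞.map (RingOfIntegers.mapRingEquiv σ.toRingEquiv : 𝓞 K →+* 𝓞 K))

/-- `F` is the (entire) L-function of `ψ` -/
def IsL (ψ : Ideal (𝓞 K) →*₀ ℂ) (F : ℂ → ℂ) : Prop :=
  Differentiable ℂ F ∧ ∀ s : ℂ, 1 < s.re →
    F s = ∑' 𝔞 : Ideal (𝓞 K), ψ 𝔞 * ((Ideal.absNorm 𝔞 : ℕ) : ℂ) ^ (-s)

/-- the points `s` of the critical strip with `T < Im s ≤ 2T` at which the combination
`∑ λ_i ord_s(F_i)` of the orders of vanishing is not zero -/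
def unbalanced {ι : Type} [Fintype ι] (F : ι → ℂ → ℂ) (lam : ι → ℝ) (T : ℝ) : Set ℂ :=
  {s : ℂ | 0 < s.re ∧ s.re < 1 ∧ T < s.im ∧ s.im ≤ 2 * T ∧
    ∑ i, lam i * (analyticOrderNatAt (F i) s : ℝ) ≠ 0}

lemma toP {𝔣 : Ideal (𝓞 K)} {ψ : Ideal (𝓞 K) →*₀ ℂ} (h : IsRay K 𝔣 ψ) :
    Pool.Agent.Y773.G.IsPrimChar K 𝔣 ψ :=
  ⟨h.ne_bot, h.supp, h.ray, h.prim⟩

theorem main (hG : IsGalois ℚ K) {ι : Type} [Fintype ι] (𝔣 : ι → Ideal (𝓞 K))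
    (ψ : ι → Ideal (𝓞 K) →*₀ ℂ) (hψ : ∀ i, IsRay K (𝔣 i) (ψ i)) (hf : ∀ i, 𝔣 i ≠ ⊤)
    (hne : ∀ i j, i ≠ j → NotConj (ψ i) (ψ j)) :
    ∃ F : ι → ℂ → ℂ, (∀ i, IsL (ψ i) (F i)) ∧ ∀ lam : ι → ℝ, lam ≠ 0 →
      ∃ c : ℝ, 0 < c ∧ ∀ᶠ T : ℝ in atTop,
        c * T * Real.log T ≤ ((unbalanced F lam T).ncard : ℝ) := by
  choose A F hA hd hL hgood using fun i => good_prim (toP (hψ i)) (hf i)
  refine ⟨F, fun i => ⟨hd i, fun s hs => hL i s hs⟩, fun lam hlam => ?_⟩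
  obtain ⟨A₁, hA₁, hdir⟩ := Pool.Agent.Y772.DK.t_dirK K
  have hcc : ∀ i n, ‖Pool.Agent.Y773.cc (ψ i) n‖ ≤ (Module.finrank ℚ K : ℝ) := fun i n =>
    (hdir (ψ i) (Pool.Agent.Y772.G.prim_norm_le (toP (hψ i)))).2.2.2.2.2.2.1 n
  obtain ⟨c1, hc1, hm⟩ := mertens_low hG 𝔣 ψ (fun i => toP (hψ i)) hf (fun i j hij σ => by
    obtain ⟨𝔞, h1, h2, h3⟩ := hne i j hij σ
    rw [← Pool.Agent.Y772.SK.smul_eq_map] at h2 h3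
    exact ⟨𝔞, h1, h2, h3⟩) lam hlam
  have hdeg : (1 : ℝ) ≤ (Module.finrank ℚ K : ℝ) := by
    exact_mod_cast (Module.finrank_pos : 0 < Module.finrank ℚ K)
  exact core (fun _ => (Module.finrank ℚ K : ℝ)) A (fun _ => (Module.finrank ℚ K : ℝ)) (fun _ => 1) F
    (fun i n => Pool.Agent.Y773.cc (ψ i) n * (ArithmeticFunction.vonMangoldt n : ℂ)) lam
    (fun _ => hdeg) hA (fun _ => by linarith) (fun _ => le_rfl) hgood (fun i n => by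
      rw [norm_mul, Complex.norm_real, Real.norm_of_nonneg ArithmeticFunction.vonMangoldt_nonneg]
      exact mul_le_mul_of_nonneg_right (hcc i n) ArithmeticFunction.vonMangoldt_nonneg) c1 hc1 hm

end Pool.Agent.Y772.ND.Pub
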