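import Pool.Agent.Y772.ND.Cor2
import Pool.Agent.Y772.ND.Stm2

/-!
# Zeros and poles of quotients: from unbalanced points to zeros and poles
-/

set_option autoImplicit false

open Complex Filter Topology Set
open H370 (zset mult NN Nd Ns)
open W388 H385

namespace Pool.Agent.Y772.ND

variable {ι : Type} [Fintype ι]

/-- the order of the quotient -/
noncomputable def netM (F : ι → ℂ → ℂ) (n : ι → ℤ) (s : ℂ) : ℤ := ∑ i, n i * (mult (F i) s : ℤ)

/-- the box -/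
def box (T : ℝ) : Set ℂ := {s : ℂ | 0 < s.re ∧ s.re < 1 ∧ T < s.im ∧ s.im ≤ 2 * T}

lemma net_zero {d A Q : ι → ℝ} {F : ι → ℂ → ℂ} {a : ι → ℕ → ℂ}
    (hF : ∀ i, GoodE (d i) (A i) (Q i) (F i) (a i)) (n : ι → ℤ) {T : ℝ} (hT : 1 ≤ T) {s : ℂ}
    (hs : s ∈ box T) (h : s ∉ ⋃ i, zset (F i) T (2 * T)) : netM F n s = 0 := by
  refine Finset.sum_eq_zero fun i _ => ?_
  obtain ⟨g1, g2, g3, g4⟩ := hs
  have h0 : F i s ≠ 0 := fun h0 => h (Set.mem_iUnion.2 ⟨i, g1, g2, g3, g4, h0⟩)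
  rw [mult_zero (hF i) (by linarith) h0]
  simp

lemma NN_eq {d A Q : ℝ} {F : ℂ → ℂ} {a : ℕ → ℂ} (hA : 1 ≤ A) (hQ : 1 ≤ Q)
    (hF : GoodE d A Q F a) {T : ℝ} (hT : 1 ≤ T) (Z : Finset ℂ) (hZ : ∀ s, s ∈ Z → s ∈ box T)
    (hs : zset F T (2 * T) ⊆ Z) : NN F T (2 * T) = ∑ s ∈ Z, mult F s := by
  unfold NN
  have hfin : (zset F T (2 * T)).Finite := zset_finite_D hA hQ hF T (2 * T) hT
  rw [finsum_mem_eq_finite_toFinset_sum _ hfin]
  refine Finset.sum_subset (fun s h => hs (hfin.mem_toFinset.1 h)) fun s h1 h2 => ?_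
  obtain ⟨g1, g2, g3, g4⟩ := hZ s h1
  have h0 : F s ≠ 0 := fun h0 => h2 (hfin.mem_toFinset.2 ⟨g1, g2, g3, g4, h0⟩)
  exact mult_zero hF (by linarith) h0

/-- the number of zeros and the number of poles -/
theorem quo {d : ℝ} {A : ι → ℝ} {F : ι → ℂ → ℂ} {a : ι → ℕ → ℂ} (hA : ∀ i, 1 ≤ A i)
    (hF : ∀ i, GoodE d (A i) 1 (F i) (a i)) (n : ι → ℤ) (hn : ∑ i, n i = 0)
    (hN : ∀ i, ∃ C : ℝ, ∀ᶠ T : ℝ in atTop,
      |(NN (F i) T (2 * T) : ℝ) - d / (2 * Real.pi) * T * Real.log T| ≤ C * T)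
    {c : ℝ} (hc : 0 < c)
    (hD : ∀ᶠ T : ℝ in atTop, c * T * Real.log T ≤ ((DD' F (fun i => (n i : ℝ)) T).ncard : ℝ)) :
    ∃ c' : ℝ, 0 < c' ∧ ∀ᶠ T : ℝ in atTop,
      c' * T * Real.log T ≤ ((∑ᶠ s ∈ box T, (netM F n s).toNat : ℕ) : ℝ) ∧
      c' * T * Real.log T ≤ ((∑ᶠ s ∈ box T, (-netM F n s).toNat : ℕ) : ℝ) := by
  classical
  choose C hC using hN
  set CC := ∑ i, |(n i : ℝ)| * C i with hCC
  refine ⟨c / 4, by positivity, ?_⟩
  have hlog : ∀ᶠ T : ℝ in atTop, 2 * CC / c ≤ Real.log T :=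
    Real.tendsto_log_atTop.eventually_ge_atTop _
  filter_upwards [hD, eventually_all.2 hC, hlog, eventually_ge_atTop 1] with T hD hC hlog hT
  have hfin : (⋃ i, zset (F i) T (2 * T)).Finite :=
    Set.finite_iUnion fun i => zset_finite_D (hA i) le_rfl (hF i) T (2 * T) hT
  set Z := hfin.toFinset with hZ
  have hZb : ∀ s, s ∈ Z → s ∈ box T := by
    intro s hs
    obtain ⟨i, g1, g2, g3, g4, -⟩ := Set.mem_iUnion.1 (hfin.mem_toFinset.1 hs)
    exact ⟨g1, g2, g3, g4⟩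
  have hsub : ∀ i, zset (F i) T (2 * T) ⊆ (Z : Set ℂ) := by
    intro i s hs
    exact hfin.mem_toFinset.2 (Set.mem_iUnion.2 ⟨i, hs⟩)
  -- the sums
  have hp : ∀ g : ℤ → ℕ, g 0 = 0 → ∑ᶠ s ∈ box T, g (netM F n s) = ∑ s ∈ Z, g (netM F n s) := by
    intro g hg
    rw [finsum_mem_eq_sum_of_inter_support_eq]
    ext s
    simp only [Set.mem_inter_iff, Function.mem_support]
    constructor
    · rintro ⟨h1, h2⟩
      refine ⟨?_, h2⟩
      by_contra h3
      rw [Finset.mem_coe, hZ, hfin.mem_toFinset] at h3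
      exact h2 (by rw [net_zero hF n hT h1 h3, hg])
    · rintro ⟨h1, h2⟩
      exact ⟨hZb s h1, h2⟩
  have hp1 := hp Int.toNat (by simp)
  have hp2 := hp (fun k => (-k).toNat) (by simp)
  rw [hp1, hp2]
  set Sp := ∑ s ∈ Z, (netM F n s).toNat with hSp
  set Sm := ∑ s ∈ Z, (-netM F n s).toNat with hSm
  -- difference
  have hdiff : ((Sp : ℝ) - (Sm : ℝ)) = ∑ i, (n i : ℝ) * (NN (F i) T (2 * T) : ℝ) := by
    have e1 : ((Sp : ℤ) - (Sm : ℤ)) = ∑ s ∈ Z, netM F n s := by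
      rw [hSp, hSm]
      push_cast
      rw [← Finset.sum_sub_distrib]
      refine Finset.sum_congr rfl fun s _ => ?_
      omega
    have e2 : ∑ s ∈ Z, netM F n s = ∑ i, n i * (NN (F i) T (2 * T) : ℤ) := by
      unfold netM
      rw [Finset.sum_comm]
      refine Finset.sum_congr rfl fun i _ => ?_
      rw [NN_eq (hA i) le_rfl (hF i) hT Z hZb (hsub i), ← Finset.mul_sum]
      push_cast
      rfl
    have e3 : (((Sp : ℤ) - (Sm : ℤ) : ℤ) : ℝ) = ((∑ i, n i * (NN (F i) T (2 * T) : ℤ) : ℤ) : ℝ) := by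
      rw [e1, e2]
    push_cast at e3
    exact e3
  have hdb : |(Sp : ℝ) - (Sm : ℝ)| ≤ CC * T := by
    rw [hdiff]
    have e4 : ∑ i, (n i : ℝ) * (NN (F i) T (2 * T) : ℝ) =
        ∑ i, (n i : ℝ) * ((NN (F i) T (2 * T) : ℝ) - d / (2 * Real.pi) * T * Real.log T) := by
      simp_rw [mul_sub]
      rw [Finset.sum_sub_distrib, ← Finset.sum_mul]
      have : ∑ i, (n i : ℝ) = 0 := by exact_mod_cast hn
      rw [this, zero_mul, sub_zero]
    rw [e4]
    refine (Finset.abs_sum_le_sum_abs _ _).trans ?_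
    rw [hCC, Finset.sum_mul]
    refine Finset.sum_le_sum fun i _ => ?_
    rw [abs_mul, mul_assoc |(n i : ℝ)|]
    exact mul_le_mul_of_nonneg_left (hC i) (abs_nonneg _)
  -- sum
  have hsum : ((DD' F (fun i => (n i : ℝ)) T).ncard : ℝ) ≤ Sp + Sm := by
    have e5 : (DD' F (fun i => (n i : ℝ)) T) ⊆ ((Z.filter fun s => netM F n s ≠ 0 : Finset ℂ) : Set ℂ) := by
      rintro s ⟨g1, g2, g3, g4, g5⟩
      have g6 : netM F n s ≠ 0 := by
        intro h0
        apply g5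
        have : ((netM F n s : ℤ) : ℝ) = 0 := by rw [h0]; simp
        unfold netM at this
        push_cast at this
        exact this
      rw [Finset.coe_filter]
      refine ⟨?_, g6⟩
      by_contra h3
      rw [hZ, hfin.mem_toFinset] at h3
      exact g6 (net_zero hF n hT ⟨g1, g2, g3, g4⟩ h3)
    have e6 : (DD' F (fun i => (n i : ℝ)) T).ncard ≤ (Z.filter fun s => netM F n s ≠ 0).card := by
      rw [← Set.ncard_coe_finset]
      exact Set.ncard_le_ncard e5 (Finset.finite_toSet _)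
    have e7 : (Z.filter fun s => netM F n s ≠ 0).card ≤ Sp + Sm := by
      rw [hSp, hSm, ← Finset.sum_add_distrib, Finset.card_filter]
      refine Finset.sum_le_sum fun s _ => ?_
      split_ifs with h
      · omega
      · omega
    exact_mod_cast e6.trans e7
  have hT0 : 0 < T := by linarith
  have h1 : CC * T ≤ c / 2 * T * Real.log T := by
    have : CC ≤ c / 2 * Real.log T := by
      rw [div_le_iff₀ hc] at hlog
      linarith
    nlinarith
  obtain ⟨h2, h3⟩ := abs_le.1 hdb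
  constructor
  · linarith
  · linarith

end Pool.Agent.Y772.ND
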