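import Pool.Agent.Y772.ND.Ray2

/-!
# Mertens type lower bound for linear combinations of shifted L-functions
-/

set_option autoImplicit false

open NumberField Complex Filter Topology Ideal
open scoped ArithmeticFunction.vonMangoldt Pointwise

namespace Pool.Agent.Y772.ND

open Pool.Agent.Y773.G hiding av
open Pool.Agent.Y773 (LI TPos cc rs gal VM exists_pow absNorm_span_nat FEd)
open Pool.Agent.Y772.NZ Pool.Agent.Y772.SK Pool.Agent.Y772.G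
open Pool.Agent.Y772.SL hiding res_mod rs_mod reg_one sel_prime prim_norm_one prim_norm_le coprime_of_norm span_ne_top

variable {K : Type} [Field K] [NumberField K]

/-- the twist by `N𝔞^(-iθ)` -/
noncomputable def tN (θ : ℝ) (φ : Ideal (𝓞 K) →*₀ ℂ) : Ideal (𝓞 K) →*₀ ℂ where
  toFun 𝔞 := φ 𝔞 * ((Ideal.absNorm 𝔞 : ℕ) : ℂ) ^ (-(I * (θ : ℂ)))
  map_zero' := by rw [map_zero, zero_mul]
  map_one' := by rw [map_one, map_one, Nat.cast_one, one_cpow, mul_one]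
  map_mul' 𝔞 𝔟 := by
    rw [map_mul, map_mul, Nat.cast_mul, Complex.natCast_mul_natCast_cpow]
    ring

lemma tN_apply (θ : ℝ) (φ : Ideal (𝓞 K) →*₀ ℂ) (𝔞 : Ideal (𝓞 K)) :
    tN θ φ 𝔞 = φ 𝔞 * ((Ideal.absNorm 𝔞 : ℕ) : ℂ) ^ (-(I * (θ : ℂ))) := rfl

lemma tN_zero (φ : Ideal (𝓞 K) →*₀ ℂ) : tN 0 φ = φ := by
  ext 𝔞
  rw [tN_apply, Complex.ofReal_zero, mul_zero, neg_zero, cpow_zero, mul_one]

lemma norm_nI (n : ℕ) (hn : n ≠ 0) (θ : ℝ) : ‖(n : ℂ) ^ (-(I * (θ : ℂ)))‖ = 1 := by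
  rw [Complex.norm_natCast_cpow_of_pos (Nat.pos_of_ne_zero hn)]
  simp

lemma tN_norm {φ : Ideal (𝓞 K) →*₀ ℂ} (h : ∀ 𝔞, ‖φ 𝔞‖ ≤ 1) (θ : ℝ) (𝔞 : Ideal (𝓞 K)) :
    ‖tN θ φ 𝔞‖ ≤ 1 := by
  rw [tN_apply]
  by_cases h0 : Ideal.absNorm 𝔞 = 0
  · have : 𝔞 = ⊥ := Ideal.absNorm_eq_zero_iff.1 h0
    rw [this, ← Ideal.zero_eq_bot, map_zero, zero_mul, norm_zero]
    exact zero_le_one
  · rw [norm_mul, norm_nI _ h0, mul_one]
    exact h 𝔞

lemma LI_tN (θ : ℝ) (φ : Ideal (𝓞 K) →*₀ ℂ) (s : ℂ) : LI (tN θ φ) s = LI φ (s + I * θ) := by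
  unfold Pool.Agent.Y773.LI
  refine tsum_congr fun 𝔞 => ?_
  rw [tN_apply]
  by_cases h0 : Ideal.absNorm 𝔞 = 0
  · have : 𝔞 = ⊥ := Ideal.absNorm_eq_zero_iff.1 h0
    rw [this, ← Ideal.zero_eq_bot, map_zero, zero_mul, zero_mul, zero_mul]
  · rw [mul_assoc, ← Complex.cpow_add _ _ (by exact_mod_cast h0)]
    congr 2
    ring

/-- the averages -/
lemma rp_av_shift {𝔣 𝔣' : Ideal (𝓞 K)} {ψ ψ' : Ideal (𝓞 K) →*₀ ℂ} (hψ : IsPrimChar K 𝔣 ψ)
    (hψ' : IsPrimChar K 𝔣' ψ') (hf : 𝔣 ≠ ⊤) (σ : Gal(K/ℚ)) (θ : ℝ)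
    (hn : θ ≠ 0 ∨ ∃ 𝔞, ψ 𝔞 ≠ 0 ∧ ψ' (σ • 𝔞) ≠ 0 ∧ ψ 𝔞 ≠ ψ' (σ • 𝔞)) :
    Tendsto (av fun n => (cc (tN θ (rp σ ψ ψ')) n).re) (𝓝[>] 0) (𝓝 0) := by
  by_cases hθ : θ = 0
  · subst hθ
    rw [tN_zero]
    exact rp_av hψ hψ' hf σ (hn.resolve_left fun h => h rfl)
  obtain ⟨e, he⟩ := rp_mod hψ hψ' hf σ
  obtain ⟨G, hG, hGL, -⟩ := LI_pole he
  set s₀ : ℂ := 1 + I * θ with hs₀
  have hs₀re : s₀.re = 1 := by rw [hs₀]; simp
  have hs₀1 : s₀ - 1 ≠ 0 := by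
    rw [hs₀, add_sub_cancel_left]
    exact mul_ne_zero I_ne_zero (by exact_mod_cast hθ)
  have hFan : AnalyticAt ℂ (fun s => G s / (s - 1)) s₀ :=
    (hG.analyticAt s₀).div (analyticAt_id.sub analyticAt_const) hs₀1
  have hFL : ∀ s : ℂ, 1 < s.re → G s / (s - 1) = LI (rp σ ψ ψ') s := by
    intro s hs
    have : s - 1 ≠ 0 := by
      intro h0
      have : s = 1 := by linear_combination h0
      rw [this] at hs
      simp at hs
    rw [hGL s hs, mul_div_cancel_left₀ _ this]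
  have hF0 := nv_tot t_ent he hs₀re hFan (Eventually.of_forall hFL)
  have hle := rp_norm (prim_norm_le hψ) (prim_norm_le hψ') σ
  refine lim_av DK.t_dirK _ (tN_norm hle θ) (g := fun s => (fun s => G s / (s - 1)) (s + I * θ)) ?_ hF0 ?_
  · have h1 : AnalyticAt ℂ (fun s : ℂ => s + I * θ) 1 := analyticAt_id.add analyticAt_const
    exact AnalyticAt.comp' (g := fun s => G s / (s - 1)) (f := fun s : ℂ => s + I * θ) hFan h1
  · refine Eventually.of_forall fun s hs => ?_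
    rw [LI_tN]
    exact (hFL _ (by simpa using hs)).symm

/-- the product of the coefficients at a prime, with a shift -/
lemma cc_mul_shift (hG : IsGalois ℚ K) {ψ ψ' : Ideal (𝓞 K) →*₀ ℂ} (h : ∀ 𝔞, ‖ψ 𝔞‖ ≤ 1)
    (h' : ∀ 𝔞, ‖ψ' 𝔞‖ ≤ 1) {p : ℕ} (hp : p.Prime)
    (hS : ¬ ∃ P : Ideal (𝓞 K), absNorm P = p ∧ P ∣ differentIdeal ℤ (𝓞 K)) (θ : ℝ) :
    (cc ψ p * (starRingEnd ℂ) (cc ψ' p)) * (p : ℂ) ^ (-(I * (θ : ℂ))) =
      ∑ σ : Gal(K/ℚ), cc (tN θ (rp σ ψ ψ')) p := by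
  classical
  rw [cc_mul hG h h' hp hS, Finset.sum_mul]
  refine Finset.sum_congr rfl fun σ _ => ?_
  obtain ⟨A, hA, hDK⟩ := DK.t_dirK K
  have hv := fun (φ : Ideal (𝓞 K) →*₀ ℂ) (hφ : ∀ 𝔞, ‖φ 𝔞‖ ≤ 1) => (hDK φ hφ).2.2.2.2.2.2.2.1
  have hle := rp_norm h h' σ
  by_cases hT : p ∈ TT K
  · obtain ⟨-, P, hP⟩ := hT
    have hnd : ¬ P ∣ differentIdeal ℤ (𝓞 K) := fun hd => hS ⟨P, hP, hd⟩
    rw [hv _ hle p hp, hv _ (tN_norm hle θ) p hp, sum_orbit hG hp hP hnd, sum_orbit hG hp hP hnd,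
      Finset.sum_mul]
    refine Finset.sum_congr rfl fun g _ => ?_
    rw [tN_apply, absNorm_smul', hP]
  · rw [cc_zero_of_not hp (hv _ hle p hp) hT, cc_zero_of_not hp (hv _ (tN_norm hle θ) p hp) hT, zero_mul]

/-- **Mertens type lower bound with shifts** -/
theorem mertens_low_shift (hG : IsGalois ℚ K) {ι : Type} [Fintype ι] (𝔣 : ι → Ideal (𝓞 K))
    (ψ : ι → Ideal (𝓞 K) →*₀ ℂ) (τ : ι → ℝ) (hψ : ∀ i, IsPrimChar K (𝔣 i) (ψ i)) (hf : ∀ i, 𝔣 i ≠ ⊤)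
    (hne : ∀ i j, i ≠ j → τ i ≠ τ j ∨
      ∀ σ : Gal(K/ℚ), ∃ 𝔞, ψ i 𝔞 ≠ 0 ∧ ψ j (σ • 𝔞) ≠ 0 ∧ ψ i 𝔞 ≠ ψ j (σ • 𝔞))
    (lam : ι → ℝ) (hlam : lam ≠ 0) :
    ∃ c1 : ℝ, 0 < c1 ∧ ∀ᶠ x : ℝ in atTop, c1 * Real.log x ≤
      ∑ n ∈ (Finset.Icc 1 ⌊x⌋₊).filter Nat.Prime,
        ‖∑ i, (lam i : ℂ) * ((cc (ψ i) n * (Λ n : ℂ)) * (n : ℂ) ^ (-(I * (τ i : ℂ))))‖ ^ 2 /
          (n * Real.log n) := by
  classical
  obtain ⟨j, hj⟩ := Function.ne_iff.1 hlam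
  have hj' : lam j ≠ 0 := hj
  obtain ⟨A, hA, hDK⟩ := DK.t_dirK K
  have hb := fun (φ : Ideal (𝓞 K) →*₀ ℂ) (hφ : ∀ 𝔞, ‖φ 𝔞‖ ≤ 1) => (hDK φ hφ).2.2.2.2.2.2.1
  set n := Module.finrank ℚ K with hn
  have hle : ∀ i 𝔞, ‖ψ i 𝔞‖ ≤ 1 := fun i => prim_norm_le (hψ i)
  -- limits
  have hlim : ∀ i σ, ∃ ℓ : ℝ, Tendsto (av fun n => (cc (tN (τ i - τ j) (rp σ (ψ i) (ψ j))) n).re)
      (𝓝[>] 0) (𝓝 ℓ) ∧ 0 ≤ ℓ ∧ (i ≠ j → ℓ = 0) ∧ (i = j → σ = 1 → ℓ = 1) := by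
    intro i σ
    by_cases h : τ i - τ j ≠ 0 ∨ ∃ 𝔞, ψ i 𝔞 ≠ 0 ∧ ψ j (σ • 𝔞) ≠ 0 ∧ ψ i 𝔞 ≠ ψ j (σ • 𝔞)
    · refine ⟨0, rp_av_shift (hψ i) (hψ j) (hf i) σ _ h, le_rfl, fun _ => rfl, ?_⟩
      rintro rfl rfl
      rcases h with h | ⟨𝔞, -, -, h3⟩
      · exact absurd (sub_self _) h
      · rw [one_smul] at h3
        exact absurd rfl h3
    · push Not at h
      obtain ⟨h1, h2⟩ := h
      refine ⟨1, ?_, zero_le_one, fun hij => ?_, fun _ _ => rfl⟩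
      · rw [h1, tN_zero]
        exact rp_av_one (hψ i) (hψ j) σ h2
      · rcases hne i j hij with h3 | h3
        · exact absurd (sub_eq_zero.1 h1) h3
        · obtain ⟨𝔞, g1, g2, g3⟩ := h3 σ
          exact absurd (h2 𝔞 g1 g2) g3
  choose ℓ hℓ hℓ0 hℓz hℓ1 using hlim
  set s : ℝ := ((SignType.sign (lam j) : SignType) : ℝ) with hs
  have hsl : s * lam j = |lam j| := sign_mul_self (lam j)
  have hs1 : |s| ≤ 1 := by
    rw [hs]
    rcases lt_trichotomy (lam j) 0 with h | h | h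
    · rw [sign_neg h]; simp
    · exact absurd h hj'
    · rw [sign_pos h]; simp
  -- the comparison sequence
  have h1 := fun i => av_sum (Finset.univ : Finset Gal(K/ℚ))
    (fun σ k => (cc (tN (τ i - τ j) (rp σ (ψ i) (ψ j))) k).re)
    (fun _ => (n : ℝ)) (ℓ i) (fun σ _ k => (abs_re_le_norm _).trans
      (hb _ (tN_norm (rp_norm (hle i) (hle j) σ) _) k)) (fun σ _ => hℓ i σ)
  have h2 := av_sum (Finset.univ : Finset ι)
    (fun i k => (s * lam i) * ∑ σ, (cc (tN (τ i - τ j) (rp σ (ψ i) (ψ j))) k).re)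
    (fun i => |s * lam i| * ∑ σ : Gal(K/ℚ), (n : ℝ)) (fun i => (s * lam i) * ∑ σ, ℓ i σ)
    (fun i _ k => by rw [abs_mul]; exact mul_le_mul_of_nonneg_left ((h1 i).1 k) (abs_nonneg _))
    (fun i _ => by
      refine ((h1 i).2.const_mul (s * lam i)).congr' ?_
      filter_upwards with x
      rw [av_mul])
  have hL : |lam j| ≤ ∑ i, (s * lam i) * ∑ σ, ℓ i σ := by
    rw [Finset.sum_eq_single j]
    · rw [hsl]
      refine le_mul_of_one_le_right (abs_nonneg _) ?_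
      rw [← hℓ1 j 1 rfl rfl]
      exact Finset.single_le_sum (fun σ _ => hℓ0 j σ) (Finset.mem_univ 1)
    · intro i _ hij
      rw [Finset.sum_eq_zero fun σ _ => hℓz i σ hij, mul_zero]
    · intro h; exact absurd (Finset.mem_univ j) h
  -- the two sequences
  set w : ι → ℕ → ℂ := fun i k => if k = 0 then 0 else (k : ℂ) ^ (-(I * (τ i : ℂ))) with hw
  have hw1 : ∀ i k, ‖w i k‖ ≤ 1 := by
    intro i k
    simp only [hw]
    split_ifs with hk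
    · rw [norm_zero]; exact zero_le_one
    · rw [norm_nI k hk]
  set f : ℕ → ℂ := fun k => ∑ i, (lam i : ℂ) * (cc (ψ i) k * w i k) with hfdef
  set g : ℕ → ℂ := fun k => (s : ℂ) * (cc (ψ j) k * w j k) with hgdef
  set D : ℝ := (∑ i, |lam i|) * n + n + 1 with hD
  have hn0 : (0 : ℝ) ≤ n := Nat.cast_nonneg _
  have hS0 : 0 ≤ ∑ i, |lam i| := Finset.sum_nonneg fun i _ => abs_nonneg _
  have hcw : ∀ i k, ‖cc (ψ i) k * w i k‖ ≤ n := by
    intro i k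
    rw [norm_mul]
    calc ‖cc (ψ i) k‖ * ‖w i k‖ ≤ n * 1 := mul_le_mul (hb _ (hle i) k) (hw1 i k) (norm_nonneg _) hn0
      _ = n := mul_one _
  have hfb : ∀ k, ‖f k‖ ≤ (∑ i, |lam i|) * n := by
    intro k
    refine (norm_sum_le _ _).trans ?_
    rw [Finset.sum_mul]
    refine Finset.sum_le_sum fun i _ => ?_
    rw [norm_mul, Complex.norm_real, Real.norm_eq_abs]
    exact mul_le_mul_of_nonneg_left (hcw i k) (abs_nonneg _)
  have hgb : ∀ k, ‖g k‖ ≤ n := by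
    intro k
    rw [hgdef]
    simp only
    rw [norm_mul, Complex.norm_real, Real.norm_eq_abs]
    calc |s| * ‖cc (ψ j) k * w j k‖ ≤ 1 * n := mul_le_mul hs1 (hcw j k) (norm_nonneg _) zero_le_one
      _ = n := one_mul _
  have hbadf := finite_bad K
  have hcong := av_congr (u := fun k => (f k * (starRingEnd ℂ) (g k)).re) (A := (∑ i, |lam i|) * n * n)
    (fun k => by
      refine (abs_re_le_norm _).trans ?_
      rw [norm_mul, RCLike.norm_conj]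
      exact mul_le_mul (hfb k) (hgb k) (norm_nonneg _) (by positivity)) h2.1 hbadf.toFinset (by
      intro p hp hS
      rw [Set.Finite.mem_toFinset] at hS
      have hp0 : (p : ℂ) ≠ 0 := by exact_mod_cast hp.ne_zero
      have e : ∀ i, (cc (ψ i) p * (starRingEnd ℂ) (cc (ψ j) p)) * (p : ℂ) ^ (-(I * ((τ i - τ j : ℝ) : ℂ))) =
          ∑ σ : Gal(K/ℚ), cc (tN (τ i - τ j) (rp σ (ψ i) (ψ j))) p :=
        fun i => cc_mul_shift hG (hle i) (hle j) hp hS _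
      have hww : ∀ i, w i p * (starRingEnd ℂ) (w j p) = (p : ℂ) ^ (-(I * ((τ i - τ j : ℝ) : ℂ))) := by
        intro i
        simp only [hw, if_neg hp.ne_zero]
        have hc : (starRingEnd ℂ) ((p : ℂ) ^ (-(I * (τ j : ℂ)))) = (p : ℂ) ^ (I * (τ j : ℂ)) := by
          have harg : ((p : ℕ) : ℂ).arg ≠ Real.pi := by
            rw [Complex.natCast_arg]
            exact Real.pi_pos.ne
          have h5 := Complex.cpow_conj ((p : ℕ) : ℂ) (-(I * (τ j : ℂ))) harg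
          rw [Complex.conj_natCast] at h5
          rw [← h5]
          congr 1
          simp
        rw [hc, ← Complex.cpow_add _ _ hp0]
        congr 1
        push_cast; ring
      have e2 : f p * (starRingEnd ℂ) (g p) =
          ∑ i, ((s * lam i : ℝ) : ℂ) * ((cc (ψ i) p * (starRingEnd ℂ) (cc (ψ j) p)) *
            (p : ℂ) ^ (-(I * ((τ i - τ j : ℝ) : ℂ)))) := by
        simp only [hfdef, hgdef]
        rw [map_mul, map_mul, Complex.conj_ofReal, Finset.sum_mul]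
        refine Finset.sum_congr rfl fun i _ => ?_
        rw [← hww i]
        push_cast; ring
      rw [e2, re_sum]
      refine Finset.sum_congr rfl fun i _ => ?_
      rw [Complex.re_ofReal_mul, e i, re_sum]) h2.2
  have hev := hcong.eventually_const_lt (u := |lam j| / 2) (lt_of_lt_of_le (by
    have : 0 < |lam j| := abs_pos.2 hj'
    linarith) hL)
  obtain ⟨c1, hc1, h3⟩ := Y532.ND.t_TAU D (|lam j| / 2) f g (by positivity)
    (by have : 0 < |lam j| := abs_pos.2 hj'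
        positivity)
    (fun k => (hfb k).trans (by rw [hD]; linarith)) (fun k => (hgb k).trans (by
      rw [hD]
      have : 0 ≤ (∑ i, |lam i|) * n := by positivity
      linarith)) (by
      filter_upwards [hev] with σ hσ
      exact hσ.le)
  refine ⟨c1, hc1, ?_⟩
  filter_upwards [h3] with x hx
  refine hx.trans (le_of_eq (Finset.sum_congr rfl fun k hk => ?_))
  have hk0 : k ≠ 0 := (Finset.mem_filter.1 hk).2.ne_zero
  congr 2
  simp only [hfdef, hw, if_neg hk0]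
  rw [Finset.mul_sum]
  congr 1
  refine Finset.sum_congr rfl fun i _ => by ring

end Pool.Agent.Y772.ND
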