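import Mathlib

/-!
# Vertical translations of counting functions
-/

set_option autoImplicit false

open Complex Filter Topology

namespace Pool.Agent.Y772.ND.Pub

/-- the part `0 < Re s < 1`, `T < Im s ≤ 2T` of the critical strip -/
def Box (T : ℝ) : Set ℂ := {s : ℂ | 0 < s.re ∧ s.re < 1 ∧ T < s.im ∧ s.im ≤ 2 * T}

lemma tr_set (P : ℂ → Prop) {M T : ℝ} (hM : 0 ≤ M) (hT : 2 * M ≤ T)
    (h1 : {s : ℂ | s ∈ Box (T - M) ∧ P (s + I * M)}.Finite)
    (h2 : {s : ℂ | s ∈ Box (2 * (T - M)) ∧ P (s + I * M)}.Finite) :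
    {s : ℂ | s ∈ Box T ∧ P s}.Finite ∧
      (fun s : ℂ => s + I * M) '' {s : ℂ | s ∈ Box (T - M) ∧ P (s + I * M)} ⊆
        {s : ℂ | s ∈ Box T ∧ P s} := by
  constructor
  · refine ((h1.union h2).image (fun s : ℂ => s + I * M)).subset ?_
    rintro s ⟨⟨g1, g2, g3, g4⟩, g5⟩
    have hre : (s - I * M).re = s.re := by simp
    have him : (s - I * M).im = s.im - M := by simp
    refine ⟨s - I * M, ?_, sub_add_cancel _ _⟩
    by_cases h : s.im - M ≤ 2 * (T - M)
    · left
      refine ⟨⟨by rw [hre]; exact g1, by rw [hre]; exact g2, by rw [him]; linarith,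
        by rw [him]; exact h⟩, by rw [sub_add_cancel]; exact g5⟩
    · right
      push Not at h
      refine ⟨⟨by rw [hre]; exact g1, by rw [hre]; exact g2, by rw [him]; exact h,
        by rw [him]; linarith⟩, by rw [sub_add_cancel]; exact g5⟩
  · rintro _ ⟨s, ⟨⟨g1, g2, g3, g4⟩, g5⟩, rfl⟩
    have hre : (s + I * M).re = s.re := by simp
    have him : (s + I * M).im = s.im + M := by simp
    refine ⟨⟨?_, ?_, ?_, ?_⟩, g5⟩
    · show 0 < (s + I * M).re
      rw [hre]; exact g1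
    · show (s + I * M).re < 1
      rw [hre]; exact g2
    · show T < (s + I * M).im
      rw [him]; linarith
    · show (s + I * M).im ≤ 2 * T
      rw [him]; linarith

lemma tr_log {c M T : ℝ} (hc : 0 < c) (hM : 0 ≤ M) (hT : 2 * M ≤ T) (hT4 : 4 ≤ T) :
    c / 4 * T * Real.log T ≤ c * (T - M) * Real.log (T - M) := by
  have h1 : T / 2 ≤ T - M := by linarith
  have h2 : Real.log T / 2 ≤ Real.log (T - M) := by
    have h3 : Real.log (T / 2) ≤ Real.log (T - M) := Real.log_le_log (by linarith) h1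
    have h4 : Real.log (T / 2) = Real.log T - Real.log 2 := Real.log_div (by linarith) (by norm_num)
    have h5 : Real.log 4 ≤ Real.log T := Real.log_le_log (by norm_num) hT4
    have h6 : Real.log 4 = 2 * Real.log 2 := by
      rw [show (4 : ℝ) = 2 ^ 2 by norm_num, Real.log_pow]; norm_num
    linarith
  have h7 : 0 ≤ Real.log T := Real.log_nonneg (by linarith)
  calc c / 4 * T * Real.log T = c * ((T / 2) * (Real.log T / 2)) := by ring
    _ ≤ c * ((T - M) * Real.log (T - M)) := by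
        refine mul_le_mul_of_nonneg_left ?_ hc.le
        exact mul_le_mul h1 h2 (by positivity) (by linarith)
    _ = c * (T - M) * Real.log (T - M) := by ring

lemma tr_pos {c T : ℝ} (hc : 0 < c) (hT : 1 < T) : 0 < c * T * Real.log T :=
  mul_pos (mul_pos hc (by linarith)) (Real.log_pos hT)

/-- translation, for the number of points -/
theorem tr_card (P : ℂ → Prop) {M c : ℝ} (hM : 0 ≤ M) (hc : 0 < c)
    (h : ∀ᶠ T : ℝ in atTop, c * T * Real.log T ≤ ({s : ℂ | s ∈ Box T ∧ P (s + I * M)}.ncard : ℝ)) :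
    ∀ᶠ T : ℝ in atTop, c / 4 * T * Real.log T ≤ ({s : ℂ | s ∈ Box T ∧ P s}.ncard : ℝ) := by
  have t1 : Tendsto (fun T : ℝ => T - M) atTop atTop := tendsto_atTop_add_const_right _ _ tendsto_id
  have t2 : Tendsto (fun T : ℝ => 2 * (T - M)) atTop atTop := t1.const_mul_atTop (by norm_num)
  filter_upwards [t1.eventually h, t2.eventually h, eventually_ge_atTop (2 * M),
    eventually_ge_atTop (M + 4), eventually_ge_atTop 4] with T h1 h2 h3 h4 h5
  have f1 : {s : ℂ | s ∈ Box (T - M) ∧ P (s + I * M)}.Finite := by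
    refine Set.finite_of_ncard_pos ?_
    have := (tr_pos hc (by linarith : 1 < T - M)).trans_le h1
    exact_mod_cast this
  have f2 : {s : ℂ | s ∈ Box (2 * (T - M)) ∧ P (s + I * M)}.Finite := by
    refine Set.finite_of_ncard_pos ?_
    have := (tr_pos hc (by linarith : 1 < 2 * (T - M))).trans_le h2
    exact_mod_cast this
  obtain ⟨f3, f4⟩ := tr_set P hM h3 f1 f2
  refine (tr_log hc hM h3 h5).trans (h1.trans ?_)
  have e1 := Set.ncard_le_ncard f4 f3
  rw [Set.ncard_image_of_injective _ (add_left_injective _)] at e1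
  exact_mod_cast e1

/-- translation, for the number of points with multiplicities -/
theorem tr_sum (g : ℂ → ℕ) {M c : ℝ} (hM : 0 ≤ M) (hc : 0 < c)
    (h : ∀ᶠ T : ℝ in atTop, c * T * Real.log T ≤ ((∑ᶠ s ∈ Box T, g (s + I * M) : ℕ) : ℝ)) :
    ∀ᶠ T : ℝ in atTop, c / 4 * T * Real.log T ≤ ((∑ᶠ s ∈ Box T, g s : ℕ) : ℝ) := by
  have t1 : Tendsto (fun T : ℝ => T - M) atTop atTop := tendsto_atTop_add_const_right _ _ tendsto_id
  have t2 : Tendsto (fun T : ℝ => 2 * (T - M)) atTop atTop := t1.const_mul_atTop (by norm_num)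
  have key : ∀ T : ℝ, 0 < ((∑ᶠ s ∈ Box T, g (s + I * M) : ℕ) : ℝ) →
      {s : ℂ | s ∈ Box T ∧ g (s + I * M) ≠ 0}.Finite := by
    intro T hT
    by_contra hinf
    have h0 : ∑ᶠ s ∈ Box T, g (s + I * M) = 0 :=
      finsum_mem_eq_zero_of_infinite (f := fun s : ℂ => g (s + I * M)) hinf
    rw [h0] at hT
    simp at hT
  filter_upwards [t1.eventually h, t2.eventually h, eventually_ge_atTop (2 * M),
    eventually_ge_atTop (M + 4), eventually_ge_atTop 4] with T h1 h2 h3 h4 h5
  have f1 := key _ ((tr_pos hc (by linarith : 1 < T - M)).trans_le h1)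
  have f2 := key _ ((tr_pos hc (by linarith : 1 < 2 * (T - M))).trans_le h2)
  obtain ⟨f3, f4⟩ := tr_set (fun s => g s ≠ 0) hM h3 f1 f2
  refine (tr_log hc hM h3 h5).trans (h1.trans ?_)
  have e1 : ∑ᶠ s ∈ Box (T - M), g (s + I * M) = ∑ s ∈ f1.toFinset, g (s + I * M) :=
    finsum_mem_eq_sum (fun s : ℂ => g (s + I * M)) f1
  have e2 : ∑ᶠ s ∈ Box T, g s = ∑ s ∈ f3.toFinset, g s := finsum_mem_eq_sum g f3
  rw [e1, e2]
  have e3 : ∑ s ∈ f1.toFinset, g (s + I * M) =
      ∑ s ∈ f1.toFinset.map ⟨fun s : ℂ => s + I * M, add_left_injective _⟩, g s := by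
    rw [Finset.sum_map]
    rfl
  rw [e3]
  have e4 : ∑ s ∈ f1.toFinset.map ⟨fun s : ℂ => s + I * M, add_left_injective _⟩, g s ≤
      ∑ s ∈ f3.toFinset, g s := by
    refine Finset.sum_le_sum_of_subset fun s hs => ?_
    rw [Finset.mem_map] at hs
    obtain ⟨z, hz, rfl⟩ := hs
    rw [Set.Finite.mem_toFinset] at hz ⊢
    exact f4 ⟨z, hz, rfl⟩
  exact_mod_cast e4

lemma ord_tr (f : ℂ → ℂ) (w s : ℂ) :
    analyticOrderNatAt (fun z => f (z + w)) s = analyticOrderNatAt f (s + w) := by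
  unfold analyticOrderNatAt
  have h := analyticOrderAt_comp_of_deriv_ne_zero (f := f) (g := fun z : ℂ => z + w) (z₀ := s)
    (analyticAt_id.add analyticAt_const) (by simp)
  have e : (fun z => f (z + w)) = f ∘ (fun z : ℂ => z + w) := rfl
  rw [e, h]

lemma mord_tr (f : ℂ → ℂ) (w s : ℂ) :
    meromorphicOrderAt (fun z => f (z + w)) s = meromorphicOrderAt f (s + w) := by
  have h := meromorphicOrderAt_comp_of_deriv_ne_zero (f := f) (g := fun z : ℂ => z + w) (x := s)
    (analyticAt_id.add analyticAt_const) (by simp)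
  exact h

end Pool.Agent.Y772.ND.Pub
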