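import Pool.Agent.Y772.ND.Cor4
import Pool.Agent.Y772.ND.Ray3
import Pool.Agent.Y772.ND.Quo
import Pool.Agent.Y772.ND.Pub
import Pool.Agent.Y772.ND.Trn

/-!
# Shifted divisors and quotients of shifted L-functions
-/

set_option autoImplicit false

open NumberField Complex Filter Topology

namespace Pool.Agent.Y772.ND.Pub

variable {K : Type} [Field K] [NumberField K]

/-- the function `z ↦ F(z + iτ)` -/
noncomputable def shift (F : ℂ → ℂ) (τ : ℝ) (z : ℂ) : ℂ := F (z + I * τ)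

/-- the quotient `∏ F_i(z + i τ_i)^{n_i}` -/
noncomputable def quot {ι : Type} [Fintype ι] (F : ι → ℂ → ℂ) (τ : ι → ℝ) (n : ι → ℤ) (z : ℂ) : ℂ :=
  ∏ i, shift (F i) (τ i) z ^ n i

/-- the number of zeros of `Q` in `S`, counted with multiplicity (`0` if there are infinitely many) -/
noncomputable def zerosIn (Q : ℂ → ℂ) (S : Set ℂ) : ℕ :=
  ∑ᶠ s ∈ S, ((meromorphicOrderAt Q s).untop₀).toNat

/-- the number of poles of `Q` in `S`, counted with multiplicity (`0` if there are infinitely many) -/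
noncomputable def polesIn (Q : ℂ → ℂ) (S : Set ℂ) : ℕ :=
  ∑ᶠ s ∈ S, (-(meromorphicOrderAt Q s).untop₀).toNat

lemma ord_quot {ι : Type} [Fintype ι] {F : ι → ℂ → ℂ} {τ : ι → ℝ} {n : ι → ℤ}
    (hd : ∀ i, Differentiable ℂ (F i)) (h0 : ∀ i, ∃ z, F i z ≠ 0) (s : ℂ) :
    (meromorphicOrderAt (quot F τ n) s).untop₀ = netM (fun i z => F i (z + I * τ i)) n s := by
  classical
  have han : ∀ i (s : ℂ), AnalyticAt ℂ (fun z => F i (z + I * τ i)) s := fun i s =>
    AnalyticAt.fun_comp ((hd i).analyticAt _) (analyticAt_id.add analyticAt_const)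
  have hne : ∀ i, analyticOrderAt (fun z => F i (z + I * τ i)) s ≠ ⊤ := by
    intro i h
    obtain ⟨z, hz⟩ := h0 i
    rw [analyticOrderAt_eq_top] at h
    have h2 := AnalyticOnNhd.eqOn_zero_of_preconnected_of_eventuallyEq_zero
      (f := fun z => F i (z + I * τ i)) (U := Set.univ) (z₀ := s)
      (fun z _ => han i z) isPreconnected_univ (Set.mem_univ _) h
    have h3 := h2 (Set.mem_univ (z - I * τ i))
    simp only [sub_add_cancel, Pi.zero_apply] at h3
    exact hz h3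
  have hm : ∀ i, meromorphicOrderAt ((fun z => F i (z + I * τ i)) ^ n i) s =
      ((n i * (H370.mult (fun z => F i (z + I * τ i)) s : ℤ) : ℤ) : WithTop ℤ) := by
    intro i
    rw [meromorphicOrderAt_zpow (han i s).meromorphicAt, (han i s).meromorphicOrderAt_eq]
    have e : analyticOrderAt (fun z => F i (z + I * τ i)) s =
        ((H370.mult (fun z => F i (z + I * τ i)) s : ℕ) : ℕ∞) := (ENat.natCast_toNat (hne i)).symm
    rw [e]
    simp
  have e1 : quot F τ n = ∏ i, ((fun z => F i (z + I * τ i)) ^ n i) := by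
    ext z
    unfold quot shift
    simp
  rw [e1, meromorphicOrderAt_prod fun i _ => (han i s).meromorphicAt.zpow (n i)]
  rw [Finset.sum_congr rfl fun i _ => hm i]
  unfold netM
  rw [← WithTop.coe_sum]
  rfl

theorem main2 (hS : P_SHIFT) (hN : P_NASY) (hG : IsGalois ℚ K) {ι : Type} [Fintype ι]
    (𝔣 : ι → Ideal (𝓞 K)) (ψ : ι → Ideal (𝓞 K) →*₀ ℂ) (τ : ι → ℝ) (hτ : ∀ i, 0 ≤ τ i)
    (hψ : ∀ i, IsRay K (𝔣 i) (ψ i)) (hf : ∀ i, 𝔣 i ≠ ⊤)
    (hne : ∀ i j, i ≠ j → τ i ≠ τ j ∨ NotConj (ψ i) (ψ j)) :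
    ∃ F : ι → ℂ → ℂ, (∀ i, IsL (ψ i) (F i)) ∧
      (∀ lam : ι → ℝ, lam ≠ 0 → ∃ c : ℝ, 0 < c ∧ ∀ᶠ T : ℝ in atTop,
        c * T * Real.log T ≤ ((unbalanced (fun i => shift (F i) (τ i)) lam T).ncard : ℝ)) ∧
      (∀ n : ι → ℤ, n ≠ 0 → ∑ i, n i = 0 → ∃ c : ℝ, 0 < c ∧ ∀ᶠ T : ℝ in atTop,
        c * T * Real.log T ≤ (zerosIn (quot F τ n) (Box T) : ℝ) ∧
        c * T * Real.log T ≤ (polesIn (quot F τ n) (Box T) : ℝ)) := by
  choose A F hA hd hL hgood using fun i => good_prim (toP (hψ i)) (hf i)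
  obtain ⟨A₁, hA₁, hdir⟩ := Pool.Agent.Y772.DK.t_dirK K
  have hcc : ∀ i n, ‖Pool.Agent.Y773.cc (ψ i) n‖ ≤ (Module.finrank ℚ K : ℝ) := fun i n =>
    (hdir (ψ i) (Pool.Agent.Y772.G.prim_norm_le (toP (hψ i)))).2.2.2.2.2.2.1 n
  have hdeg : (1 : ℝ) ≤ (Module.finrank ℚ K : ℝ) := by
    exact_mod_cast (Module.finrank_pos : 0 < Module.finrank ℚ K)
  choose A' hA' hgood' using fun i => hS _ (A i) (F i) _ hdeg (hA i) (hgood i) (τ i) (hτ i)
  have ha : ∀ i n, ‖(Pool.Agent.Y773.cc (ψ i) n * (ArithmeticFunction.vonMangoldt n : ℂ)) *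
      (n : ℂ) ^ (-(I * (τ i : ℂ)))‖ ≤ (Module.finrank ℚ K : ℝ) * ArithmeticFunction.vonMangoldt n := by
    intro i n
    by_cases hn : n = 0
    · subst hn
      simp
    rw [norm_mul, norm_nI n hn, mul_one, norm_mul, Complex.norm_real,
      Real.norm_of_nonneg ArithmeticFunction.vonMangoldt_nonneg]
    exact mul_le_mul_of_nonneg_right (hcc i n) ArithmeticFunction.vonMangoldt_nonneg
  have part1 : ∀ lam : ι → ℝ, lam ≠ 0 → ∃ c : ℝ, 0 < c ∧ ∀ᶠ T : ℝ in atTop,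
      c * T * Real.log T ≤ ((DD' (fun i z => F i (z + I * τ i)) lam T).ncard : ℝ) := by
    intro lam hlam
    obtain ⟨c1, hc1, hm⟩ := mertens_low_shift hG 𝔣 ψ τ (fun i => toP (hψ i)) hf (fun i j hij => by
      rcases hne i j hij with h | h
      · exact Or.inl h
      · refine Or.inr fun σ => ?_
        obtain ⟨𝔞, h1, h2, h3⟩ := h σ
        rw [← Pool.Agent.Y772.SK.smul_eq_map] at h2 h3
        exact ⟨𝔞, h1, h2, h3⟩) lam hlam
    exact core (fun _ => (Module.finrank ℚ K : ℝ)) A' (fun _ => (Module.finrank ℚ K : ℝ)) (fun _ => 1)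
      (fun i z => F i (z + I * τ i))
      (fun i n => (Pool.Agent.Y773.cc (ψ i) n * (ArithmeticFunction.vonMangoldt n : ℂ)) *
        (n : ℂ) ^ (-(I * (τ i : ℂ)))) lam
      (fun _ => hdeg) hA' (fun _ => by linarith) (fun _ => le_rfl) hgood' ha c1 hc1 hm
  refine ⟨F, fun i => ⟨hd i, fun s hs => hL i s hs⟩, part1, fun n hn hn0 => ?_⟩
  have hn' : (fun i => (n i : ℝ)) ≠ 0 := by
    intro h
    apply hn
    ext i
    have := congrFun h i
    simpa using this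
  obtain ⟨c, hc, h1⟩ := part1 _ hn'
  obtain ⟨c', hc', h2⟩ := quo hA' hgood' n hn0
    (fun i => hN _ (A' i) _ _ hdeg (hA' i) (hgood' i)) hc h1
  refine ⟨c', hc', ?_⟩
  filter_upwards [h2] with T hT
  have h0 : ∀ i, ∃ z, F i z ≠ 0 := fun i => ⟨⟨2, 1⟩, (hgood i).nzr _ (by norm_num) le_rfl⟩
  unfold zerosIn polesIn
  simp_rw [ord_quot hd h0]
  exact hT

/-- all real shifts -/
theorem main3 (hS : P_SHIFT) (hN : P_NASY) (hG : IsGalois ℚ K) {ι : Type} [Fintype ι]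
    (𝔣 : ι → Ideal (𝓞 K)) (ψ : ι → Ideal (𝓞 K) →*₀ ℂ) (τ : ι → ℝ)
    (hψ : ∀ i, IsRay K (𝔣 i) (ψ i)) (hf : ∀ i, 𝔣 i ≠ ⊤)
    (hne : ∀ i j, i ≠ j → τ i ≠ τ j ∨ NotConj (ψ i) (ψ j)) :
    ∃ F : ι → ℂ → ℂ, (∀ i, IsL (ψ i) (F i)) ∧
      (∀ lam : ι → ℝ, lam ≠ 0 → ∃ c : ℝ, 0 < c ∧ ∀ᶠ T : ℝ in atTop,
        c * T * Real.log T ≤ ((unbalanced (fun i => shift (F i) (τ i)) lam T).ncard : ℝ)) ∧
      (∀ n : ι → ℤ, n ≠ 0 → ∑ i, n i = 0 → ∃ c : ℝ, 0 < c ∧ ∀ᶠ T : ℝ in atTop,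
        c * T * Real.log T ≤ (zerosIn (quot F τ n) (Box T) : ℝ) ∧
        c * T * Real.log T ≤ (polesIn (quot F τ n) (Box T) : ℝ)) := by
  set M : ℝ := ∑ i, |τ i| with hM
  have hM0 : 0 ≤ M := Finset.sum_nonneg fun i _ => abs_nonneg _
  have hτ : ∀ i, 0 ≤ τ i + M := by
    intro i
    have h1 : |τ i| ≤ M := Finset.single_le_sum (fun j _ => abs_nonneg (τ j)) (Finset.mem_univ i)
    have h2 := neg_abs_le (τ i)
    linarith
  obtain ⟨F, h1, h2, h3⟩ := main2 hS hN hG 𝔣 ψ (fun i => τ i + M) hτ hψ hf (fun i j hij => by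
    rcases hne i j hij with h | h
    · exact Or.inl fun h' => h (add_right_cancel h')
    · exact Or.inr h)
  have hsh : ∀ i, shift (F i) (τ i + M) = fun z => shift (F i) (τ i) (z + I * M) := by
    intro i
    ext z
    unfold shift
    congr 1
    push_cast
    ring
  have hq : ∀ n : ι → ℤ, quot F (fun i => τ i + M) n = fun z => quot F τ n (z + I * M) := by
    intro n
    ext z
    unfold quot
    simp_rw [hsh]
  refine ⟨F, h1, fun lam hlam => ?_, fun n hn hn0 => ?_⟩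
  · obtain ⟨c, hc, h⟩ := h2 lam hlam
    refine ⟨c / 4, by positivity, ?_⟩
    have := tr_card (fun s => ∑ i, lam i * (analyticOrderNatAt (shift (F i) (τ i)) s : ℝ) ≠ 0)
      hM0 hc (by
        filter_upwards [h] with T hT
        refine hT.trans (le_of_eq ?_)
        congr 2
        ext s
        unfold unbalanced Box
        simp only [Set.mem_setOf_eq, hsh, ord_tr, and_assoc])
    filter_upwards [this] with T hT
    refine hT.trans (le_of_eq ?_)
    congr 2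
    ext s
    unfold unbalanced Box
    simp only [Set.mem_setOf_eq, and_assoc]
  · obtain ⟨c, hc, h⟩ := h3 n hn hn0
    refine ⟨c / 4, by positivity, ?_⟩
    have g1 := tr_sum (fun s => ((meromorphicOrderAt (quot F τ n) s).untop₀).toNat) hM0 hc (by
      filter_upwards [h] with T hT
      refine hT.1.trans (le_of_eq ?_)
      unfold zerosIn
      simp_rw [hq, mord_tr])
    have g2 := tr_sum (fun s => (-(meromorphicOrderAt (quot F τ n) s).untop₀).toNat) hM0 hc (by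
      filter_upwards [h] with T hT
      refine hT.2.trans (le_of_eq ?_)
      unfold polesIn
      simp_rw [hq, mord_tr])
    filter_upwards [g1, g2] with T hT1 hT2
    exact ⟨hT1, hT2⟩

end Pool.Agent.Y772.ND.Pub
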