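import Mathlib

/-! # Statements of the parts of the third round (Dedekind zeta functions) : Mathlib only -/

set_option autoImplicit false

open Filter NumberField

namespace Pool.Agent.Y772.ND

open Classical in
/-- MER : from positive lower density of a set of primes to a Mertens type lower bound. -/
def P_MER : Prop := ∀ (S : Set ℕ) (δ : ℝ), 0 < δ →
  (∀ᶠ N : ℕ in atTop, δ * (Nat.primeCounting N : ℝ) ≤
    (((Finset.range (N + 1)).filter (fun p => p.Prime ∧ p ∈ S)).card : ℝ)) →
  ∃ c : ℝ, 0 < c ∧ ∀ᶠ x : ℝ in atTop, c * Real.log x ≤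
    ∑ p ∈ (Finset.Icc 1 ⌊x⌋₊).filter (fun p => p.Prime ∧ p ∈ S), Real.log p / p

open Classical in
/-- FRB : linear combinations of the numbers of primes of degree one of subfields have positive
density of nonzero values, if they are nonzero infinitely often. -/
def P_FRB : Prop := ∀ (L : Type) [Field L] [NumberField L] [IsGalois ℚ L] (ι : Type) [Fintype ι]
  (E : ι → IntermediateField ℚ L) (lam : ι → ℝ),
  {p : ℕ | p.Prime ∧ ∑ i, lam i * (Nat.card (𝓞 (E i) →+* ZMod p) : ℝ) ≠ 0}.Infinite →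
  ∃ δ η : ℝ, 0 < δ ∧ 0 < η ∧ ∀ᶠ N : ℕ in atTop, δ * (Nat.primeCounting N : ℝ) ≤
    (((Finset.range (N + 1)).filter
      (fun p => p.Prime ∧ η ≤ |∑ i, lam i * (Nat.card (𝓞 (E i) →+* ZMod p) : ℝ)|)).card : ℝ)

/-- CNT : ideals of prime norm and residue maps. -/
def P_CNT : Prop := ∀ (K : Type) [Field K] [NumberField K] (p : ℕ), p.Prime →
  Nat.card {P : Ideal (𝓞 K) // Ideal.absNorm P = p} = Nat.card (𝓞 K →+* ZMod p)

end Pool.Agent.Y772.ND
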