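import Pool.Agent.Y772.ND.Zet2

/-!
# Dedekind zeta functions satisfy the analytic hypotheses, third part
-/

set_option autoImplicit false

open NumberField Complex Filter Topology Ideal Set Asymptotics
open scoped ArithmeticFunction.vonMangoldt

namespace Pool.Agent.Y772.ND

open Pool.Agent.Y773.G (sg ex ex_le differentiable_gam gam_ne_zero gam_ne_zero' card_emb)
open Pool.Agent.Y773 (LI cc FEd GG)
open Pool.Agent.Y772.FE
open H370.DL (refl hasDerivAt_refl analyticAt_refl im_osc re_osc eventually_im_ne order_refl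
  logDeriv_Gammaℝ_bound)

variable {K : Type} [Field K] [NumberField K]

/-- the elementary factor -/
noncomputable def pz (z : ℂ) : ℂ := z * (z - 1) * gs z

lemma pz_ne {z : ℂ} (hz : z.im ≠ 0) : pz z ≠ 0 := by
  have h0 : z ≠ 0 := fun h => hz (by rw [h, zero_im])
  have h1 : z - 1 ≠ 0 := fun h => hz (by
    have : z = 1 := by linear_combination h
    rw [this, one_im])
  exact mul_ne_zero (mul_ne_zero h0 h1) (gs_ne z)

lemma pz_deriv (z : ℂ) : HasDerivAt pz (((z - 1) + z) * gs z + z * (z - 1) * (gs z * (2 * (z - 1 / 2)))) z := by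
  have h1 : HasDerivAt (fun z : ℂ => z * (z - 1)) ((z - 1) + z) z := by
    have := (hasDerivAt_id' z).fun_mul ((hasDerivAt_id' z).sub_const 1)
    simpa using this
  have h2 : HasDerivAt gs (gs z * (2 * (z - 1 / 2))) z := by
    have h3 : HasDerivAt (fun z : ℂ => (z - 1 / 2) ^ 2) (2 * (z - 1 / 2)) z := by
      have := ((hasDerivAt_id' z).sub_const (1 / 2)).fun_pow 2
      simpa using this
    exact h3.cexp
  exact h1.mul h2

lemma pz_log {z : ℂ} (hz : z.im ≠ 0) : deriv pz z / pz z = 1 / z + 1 / (z - 1) + 2 * (z - 1 / 2) := by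
  have h0 : z ≠ 0 := fun h => hz (by rw [h, zero_im])
  have h1 : z - 1 ≠ 0 := fun h => hz (by
    have : z = 1 := by linear_combination h
    rw [this, one_im])
  have h2 := gs_ne z
  rw [(pz_deriv z).deriv]
  unfold pz
  field_simp

lemma pz_refl {s : ℂ} (hs : s.im ≠ 0) : deriv pz s / pz s +
    (starRingEnd ℂ) (deriv pz (1 - (starRingEnd ℂ) s) / pz (1 - (starRingEnd ℂ) s)) = 0 := by
  have h0 : s ≠ 0 := fun h => hs (by rw [h, zero_im])
  have h1 : s - 1 ≠ 0 := fun h => hs (by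
    have : s = 1 := by linear_combination h
    rw [this, one_im])
  have h2 : (1 : ℂ) - s ≠ 0 := fun h => h1 (by linear_combination -h)
  have hs' : (1 - (starRingEnd ℂ) s).im ≠ 0 := by rwa [im_osc]
  rw [pz_log hs, pz_log hs']
  simp only [map_add, map_div₀, map_mul, map_sub, map_one, Complex.conj_conj, map_ofNat]
  have e1 : (1 : ℂ) - s - 1 = -s := by ring
  rw [e1]
  field_simp
  ring

/-- **Dedekind zeta functions satisfy the analytic hypotheses** -/
theorem good_zeta (hU : Pool.Agent.Y149.AR.S_UNR) :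
    ∃ (A : ℝ) (F : ℂ → ℂ), 1 ≤ A ∧ (∀ s : ℂ, s ≠ 1 → DifferentiableAt ℂ F s) ∧
      (∀ s : ℂ, 1 < s.re → F s = LI (tr K) s) ∧
      W388.GoodE (Module.finrank ℚ K : ℝ) A 1 F (fun n => cc (tr K) n * (Λ n : ℂ)) := by
  classical
  obtain ⟨H, hCZ⟩ := cz_exists (K := K) hU
  have h𝔡 : differentIdeal ℤ (𝓞 K) ≠ ⊥ := differentIdeal_ne_bot
  set R : ℝ := ((Ideal.absNorm (differentIdeal ℤ (𝓞 K)) : ℕ) : ℝ) with hR
  set e : (K →+* ℂ) → ℕ := ex (fun _ : InfinitePlace K => 0) with he
  have hR1 : 1 ≤ R := by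
    rw [hR]
    exact_mod_cast Nat.one_le_iff_ne_zero.mpr fun h1 => h𝔡 (Ideal.absNorm_eq_zero_iff.mp h1)
  have hR0 : 0 < R := by linarith
  obtain ⟨G, hG, hHG, hGL, hGnz⟩ := zeta_data hCZ
  obtain ⟨w, hw, hfe⟩ := hCZ.asym hR0
  have hw0 : w ≠ 0 := by
    intro h
    rw [h, norm_zero] at hw
    exact zero_ne_one hw
  obtain ⟨A₁, hA₁, hdir⟩ := Pool.Agent.Y772.DK.t_dirK K
  obtain ⟨-, hd2, hd3, hd4, hd5, hd6, -, -, hs9, hs10, -⟩ := hdir (tr K) tr_le
  obtain ⟨C, hC0, hC⟩ := logDeriv_Gammaℝ_bound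
  set d := Fintype.card (K →+* ℂ) with hd
  set F : ℂ → ℂ := fun s => G s / (s - 1) with hFdef
  have hs1 : ∀ s : ℂ, s.im ≠ 0 → s - 1 ≠ 0 := fun s hs h => hs (by
    have : s = 1 := by linear_combination h
    rw [this, one_im])
  have hs0 : ∀ s : ℂ, s.im ≠ 0 → s ≠ 0 := fun s hs h => hs (by rw [h, zero_im])
  have hFan : ∀ s : ℂ, s ≠ 1 → AnalyticAt ℂ F s := fun s hs =>
    (hG.analyticAt s).div (analyticAt_id.sub analyticAt_const) (sub_ne_zero.2 hs)
  have hFan' : ∀ s : ℂ, s.im ≠ 0 → AnalyticAt ℂ F s := fun s hs =>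
    hFan s fun h => hs (by rw [h, one_im])
  have hFL : ∀ s : ℂ, 1 < s.re → F s = LI (tr K) s := by
    intro s hs
    have h1 : s - 1 ≠ 0 := by
      intro h
      have : s = 1 := by linear_combination h
      rw [this, one_re] at hs
      linarith
    rw [hFdef]
    simp only
    rw [hGL s hs, mul_div_cancel_left₀ _ h1]
  have hHF : ∀ s : ℂ, s.im ≠ 0 → H s = s * (s - 1) * F s := by
    intro s hs
    have h1 := hs1 s hs
    rw [hHG s, hFdef]
    simp only
    field_simp
  have hH2 : ∀ s : ℂ, s.im ≠ 0 → H s * gs s = pz s * F s := by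
    intro s hs
    rw [hHF s hs]
    unfold pz
    ring
  have hnzF : ∀ s : ℂ, 1 ≤ s.re → s.im ≠ 0 → F s ≠ 0 := by
    intro s h1 h2
    rcases h1.lt_or_eq with h3 | h3
    · rw [hFL s h3]
      exact hd3 s h3
    · exact div_ne_zero (hGnz s h3.symm h2) (hs1 s h2)
  have hnzH : ∀ s : ℂ, 1 ≤ s.re → s.im ≠ 0 → H s ≠ 0 := by
    intro s h1 h2
    rw [hHF s h2]
    exact mul_ne_zero (mul_ne_zero (hs0 s h2) (hs1 s h2)) (hnzF s h1 h2)
  -- growth
  have hB0 : 0 ≤ A₁ := by linarith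
  have hBH : ∀ s : ℂ, s.re = 3 / 2 → ‖H s‖ ≤ A₁ * (‖s‖ * ‖1 - s‖) := by
    intro s hs
    rw [hCZ.right s (by rw [hs]; norm_num), norm_mul, norm_mul]
    have h1 := hd5 s (by rw [hs])
    have h2 : ‖s - 1‖ = ‖1 - s‖ := norm_sub_rev _ _
    rw [h2, mul_comm A₁]
    gcongr
  have hgrow := fun s h1 h2 => hCZ.growth hR1 hB0 hBH s h1 h2
  set A₂ : ℝ := (d + 2) + A₁ * R * 6 ^ (d + 2) + (Real.log R + d * C + d * C) with hA₂
  have hlR : 0 ≤ Real.log R := Real.log_nonneg hR1
  have hdC : 0 ≤ (d : ℝ) * C := mul_nonneg (Nat.cast_nonneg _) hC0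
  have hAR : 0 ≤ A₁ * R * 6 ^ (d + 2) := by positivity
  have hd0 : (0 : ℝ) ≤ d := Nat.cast_nonneg d
  have hGrow : ∀ s : ℂ, (1 / 16 : ℝ) ≤ s.re → s.re ≤ 4 → 1 ≤ s.im → ‖F s‖ ≤ A₂ * s.im ^ A₂ := by
    intro s h1 h2 h3
    have him : s.im ≠ 0 := by linarith
    have hpow : s.im ^ (d + 2) ≤ s.im ^ A₂ := by
      rw [← Real.rpow_natCast]
      apply Real.rpow_le_rpow_of_exponent_le h3
      push_cast
      linarith
    have key : ‖F s‖ ≤ A₁ * R * 6 ^ (d + 2) * s.im ^ (d + 2) := by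
      have hone : (1 : ℝ) ≤ s.im ^ (d + 2) := one_le_pow₀ h3
      rcases le_total s.re (3 / 2) with h | h
      · have e1 := hgrow s (by linarith) h
        obtain ⟨-, -, n3⟩ := norm_le_add_three (s := s) (by linarith)
        rw [← hd, norm_mul, norm_inv, norm_pow, mul_inv_le_iff₀ (by positivity)] at e1
        have e3 : ‖s + 3‖ ^ (d + 2) ≤ (6 * s.im) ^ (d + 2) := by
          apply pow_le_pow_left₀ (norm_nonneg _)
          refine (norm_le_abs_re_add_abs_im _).trans ?_
          have hre' : (s + 3).re = s.re + 3 := by simp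
          have him' : (s + 3).im = s.im := by simp
          rw [hre', him', abs_of_nonneg (by linarith), abs_of_nonneg (by linarith)]
          linarith
        have e4 : ‖F s‖ ≤ ‖H s‖ := by
          rw [hHF s him, norm_mul, norm_mul]
          have g1 : 1 ≤ ‖s‖ := h3.trans ((le_abs_self _).trans (Complex.abs_im_le_norm s))
          have g2 : 1 ≤ ‖s - 1‖ := by
            have := (le_abs_self _).trans (Complex.abs_im_le_norm (s - 1))
            simp only [sub_im, one_im, sub_zero] at this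
            linarith
          have g3 : 1 ≤ ‖s‖ * ‖s - 1‖ := one_le_mul_of_one_le_of_one_le g1 g2
          exact le_mul_of_one_le_left (norm_nonneg _) g3
        calc ‖F s‖ ≤ ‖H s‖ := e4
          _ ≤ A₁ * R * ‖s + 3‖ ^ (d + 2) := e1
          _ ≤ A₁ * R * (6 * s.im) ^ (d + 2) := by gcongr
          _ = _ := by rw [mul_pow]; ring
      · rw [hFL s (by linarith)]
        have e1 := hd5 s h
        have e5 : (1 : ℝ) ≤ 6 ^ (d + 2) := one_le_pow₀ (by norm_num)
        have e6 : A₁ ≤ A₁ * R := by nlinarith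
        have e7 : A₁ * R ≤ A₁ * R * 6 ^ (d + 2) := le_mul_of_one_le_right (by positivity) e5
        have e8 : A₁ * R * 6 ^ (d + 2) ≤ A₁ * R * 6 ^ (d + 2) * s.im ^ (d + 2) :=
          le_mul_of_one_le_right hAR hone
        linarith
    have hle : A₁ * R * 6 ^ (d + 2) ≤ A₂ := by linarith
    have hp0 : 0 ≤ s.im ^ (d + 2) := by positivity
    calc ‖F s‖ ≤ A₁ * R * 6 ^ (d + 2) * s.im ^ (d + 2) := key
      _ ≤ A₂ * s.im ^ A₂ := mul_le_mul hle hpow hp0 (by linarith)
  have hcard : (Fintype.card (K →+* ℂ) : ℝ) = (Module.finrank ℚ K : ℝ) := by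
    rw [card_emb]
  have hnorm' : ∀ n : ℕ, ‖cc (tr K) n * (Λ n : ℂ)‖ * (n : ℝ) ^ (-(3 / 2) : ℝ) =
      ArithmeticFunction.vonMangoldt n * ‖cc (tr K) n‖ * (n : ℝ) ^ (-(3 / 2) : ℝ) := by
    intro n
    rw [norm_mul, Complex.norm_real, Real.norm_of_nonneg ArithmeticFunction.vonMangoldt_nonneg,
      mul_comm ‖cc (tr K) n‖]
  have hsum : Summable fun n : ℕ => ‖cc (tr K) n * (Λ n : ℂ)‖ * (n : ℝ) ^ (-(3 / 2) : ℝ) :=
    hs9.congr fun n => (hnorm' n).symm
  -- order of vanishing
  have hordF : ∀ s : ℂ, s.im ≠ 0 → analyticOrderAt F s = analyticOrderAt H s := by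
    intro s hs
    have e1 : H =ᶠ[𝓝 s] (fun z => z * (z - 1)) * F := by
      filter_upwards [eventually_im_ne hs] with z hz
      exact hHF z hz
    have ha : AnalyticAt ℂ (fun z : ℂ => z * (z - 1)) s := by fun_prop
    rw [analyticOrderAt_congr e1, analyticOrderAt_mul ha (hFan' s hs),
      ha.analyticOrderAt_eq_zero.mpr (mul_ne_zero (hs0 s hs) (hs1 s hs)), zero_add]
  refine ⟨max A₁ A₂, F, le_max_of_le_left hA₁, fun s hs => (hFan s hs).differentiableAt, hFL, ?_⟩
  refine
    { an := fun s hs => hFan' s hs.ne'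
      growth := ?_
      lower := ?_
      nzr := fun s h1 h2 => hnzF s h1 (by linarith)
      nzl := ?_
      symm := ?_
      ha1 := ?_
      has := hsum
      ha := ?_
      ld := ?_
      left := ?_ }
  · intro s h1 h2 h3
    refine (hGrow s h1 h2 h3).trans ?_
    have h5 : A₂ ≤ max A₁ A₂ := le_max_right _ _
    have hA20 : 0 ≤ A₂ := by linarith
    rw [one_mul]
    gcongr
  · intro t ht
    have h1 : (1 : ℝ) < ((⟨2, t⟩ : ℂ)).re := by norm_num
    rw [hFL _ h1]
    refine le_trans ?_ (hd6 (⟨2, t⟩ : ℂ) le_rfl)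
    have h5 : A₁ ≤ max A₁ A₂ := le_max_left _ _
    gcongr
  · intro s h1 h3 h0
    have hs : s.im ≠ 0 := by linarith
    have h4 := hfe s hs
    rw [hHF s hs, h0, mul_zero] at h4
    have h5 : refl H s = 0 := (mul_eq_zero.1 h4.symm).resolve_left (LX_ne hw0 hR0 e hs)
    unfold H370.DL.refl at h5
    rw [map_eq_zero] at h5
    exact hnzH _ (by rw [re_osc]; linarith) (by rw [im_osc]; exact hs) h5
  · intro s _ _ h3
    have hs : s.im ≠ 0 := by linarith
    have hs' : (1 - (starRingEnd ℂ) s).im ≠ 0 := by rwa [im_osc]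
    rw [hordF s hs, hordF _ hs']
    have ha : AnalyticAt ℂ H (1 - (starRingEnd ℂ) s) := hCZ.diff.analyticAt _
    have h1 : H =ᶠ[𝓝 s] (LX w R e) * refl H := by
      filter_upwards [eventually_im_ne hs] with z hz
      exact hfe z hz
    have hX := LX_an w hR0 e hs
    rw [analyticOrderAt_congr h1, analyticOrderAt_mul hX (analyticAt_refl ha),
      hX.analyticOrderAt_eq_zero.mpr (LX_ne hw0 hR0 e hs), zero_add, order_refl ha]
  · intro n hn
    interval_cases n
    · simp
    · simp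
  · refine le_trans (le_of_eq ?_) (hs10.trans (le_max_left _ _))
    exact tsum_congr hnorm'
  · intro s hs _
    have h1 : F =ᶠ[𝓝 s] LI (tr K) := by
      have : {s : ℂ | 1 < s.re} ∈ 𝓝 s :=
        (isOpen_lt continuous_const Complex.continuous_re).mem_nhds hs
      filter_upwards [this] with z hz using hFL z hz
    rw [h1.deriv_eq, hFL s hs, hd4 s hs]
  · intro s h1 h2 h3 h4
    have hs : s.im ≠ 0 := by linarith
    have hs' : (1 - (starRingEnd ℂ) s).im ≠ 0 := by rwa [im_osc]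
    set H₂ : ℂ → ℂ := fun s => H s * gs s with hH₂
    have hfed : FEd (R * (1 : ℝ) ^ Fintype.card (K →+* ℂ)) e H₂ := by
      rw [one_pow, mul_one]; exact hCZ.fed
    have hH₂s : H₂ s ≠ 0 := by
      rw [hH₂]
      simp only
      rw [hH2 s hs]
      exact mul_ne_zero (pz_ne hs) h4
    have h5 := F_left hC hR1 (le_refl (1 : ℝ)) hfed s h1 h2 h3 hH₂s
    have hF' : F (1 - (starRingEnd ℂ) s) ≠ 0 := by
      intro h0
      apply h4
      have h6 := hfe s hs
      have h7 : refl H s = 0 := by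
        unfold H370.DL.refl
        rw [hHF _ hs', h0, mul_zero, map_zero]
      rw [h7, mul_zero, hHF s hs] at h6
      exact (mul_eq_zero.1 h6).resolve_left (mul_ne_zero (hs0 s hs) (hs1 s hs))
    have hlog : ∀ z : ℂ, z.im ≠ 0 → F z ≠ 0 → deriv H₂ z / H₂ z = deriv pz z / pz z + deriv F z / F z := by
      intro z hz hFz
      have e1 : H₂ =ᶠ[𝓝 z] fun u => pz u * F u := by
        filter_upwards [eventually_im_ne hz] with u hu
        exact hH2 u hu
      have e2 : logDeriv H₂ z = logDeriv pz z + logDeriv F z := by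
        rw [(logDeriv_congr_nhds e1).eq_of_nhds]
        exact logDeriv_mul z (pz_ne hz) hFz (pz_deriv z).differentiableAt
          (hFan' z hz).differentiableAt
      exact e2
    rw [hlog s hs h4, hlog _ hs' hF', map_add] at h5
    have h6 := pz_refl hs
    have h7 : deriv pz s / pz s + deriv F s / F s + ((((Fintype.card (K →+* ℂ)) : ℝ) * Real.log (1 * s.im) : ℝ) : ℂ) +
        ((starRingEnd ℂ) (deriv pz (1 - (starRingEnd ℂ) s) / pz (1 - (starRingEnd ℂ) s)) +
          (starRingEnd ℂ) (deriv F (1 - (starRingEnd ℂ) s) / F (1 - (starRingEnd ℂ) s))) =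
        deriv F s / F s + ((((Fintype.card (K →+* ℂ)) : ℝ) * Real.log (1 * s.im) : ℝ) : ℂ) +
          (starRingEnd ℂ) (deriv F (1 - (starRingEnd ℂ) s) / F (1 - (starRingEnd ℂ) s)) := by
      linear_combination h6
    rw [h7, hcard] at h5
    have h8 : Real.log R + (Module.finrank ℚ K : ℝ) * C + (Module.finrank ℚ K : ℝ) * C ≤ max A₁ A₂ := by
      rw [← hcard]
      refine le_trans ?_ (le_max_right _ _)
      linarith
    exact h5.trans h8

end Pool.Agent.Y772.ND
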