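import Pool.Agent.Y772.ND.Cor4
import Pool.Agent.Y772.ND.Quo2
import Pool.Agent.Y772.ND.Nup
import Pool.Agent.Y772.ND.Pub
import Pool.Agent.Y772.ND.Pub2
import Pool.Agent.Y772.ND.Zet3
import Pool.Agent.Y772.ND.Stm3

/-!
# Dedekind zeta functions: linear independence of the divisors
-/

set_option autoImplicit false

open NumberField Complex Filter Topology

namespace Pool.Agent.Y772.ND.Pub

/-- `F` is the Dedekind zeta function of `K` (the term of the zero ideal is `0`) -/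
def IsZeta (K : Type) [Field K] [NumberField K] (F : ℂ → ℂ) : Prop :=
  (∀ s : ℂ, s ≠ 1 → DifferentiableAt ℂ F s) ∧ ∀ s : ℂ, 1 < s.re →
    F s = ∑' 𝔞 : Ideal (𝓞 K), ((Ideal.absNorm 𝔞 : ℕ) : ℂ) ^ (-s)

/-- the number of prime ideals of degree one of `K` above the prime number `p` -/
noncomputable def deg1 (K : Type) [Field K] [NumberField K] (p : ℕ) : ℕ :=
  Nat.card {𝔭 : Ideal (𝓞 K) // Ideal.absNorm 𝔭 = p}

/-- the product `∏ Z_i(z)^{n_i}` -/
noncomputable def prodZ {ι : Type} [Fintype ι] (Z : ι → ℂ → ℂ) (n : ι → ℤ) (z : ℂ) : ℂ :=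
  ∏ i, Z i z ^ n i

section

variable {K : Type} [Field K] [NumberField K]

lemma LI_tr {s : ℂ} (hs : 1 < s.re) :
    Pool.Agent.Y773.LI (tr K) s = ∑' 𝔞 : Ideal (𝓞 K), ((Ideal.absNorm 𝔞 : ℕ) : ℂ) ^ (-s) := by
  unfold Pool.Agent.Y773.LI
  refine tsum_congr fun 𝔞 => ?_
  by_cases h : 𝔞 = ⊥
  · have hs0 : -s ≠ 0 := by
      rw [Ne, neg_eq_zero]
      intro h0
      rw [h0, zero_re] at hs
      linarith
    rw [h, tr_bot, zero_mul, Ideal.absNorm_bot, Nat.cast_zero, zero_cpow hs0]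
  · rw [tr_apply h, one_mul]

lemma cc_tr {p : ℕ} (hp : p.Prime) : Pool.Agent.Y773.cc (tr K) p = (deg1 K p : ℂ) := by
  classical
  obtain ⟨A, hA, hdir⟩ := Pool.Agent.Y772.DK.t_dirK K
  rw [(hdir (tr K) tr_le).2.2.2.2.2.2.2.1 p hp]
  have hfin : {𝔭 : Ideal (𝓞 K) | Ideal.absNorm 𝔭 = p}.Finite := Ideal.finite_setOf_absNorm_eq p
  rw [finsum_mem_eq_finite_toFinset_sum _ hfin]
  have h1 : ∀ 𝔭 ∈ hfin.toFinset, tr K 𝔭 = 1 := by
    intro 𝔭 h𝔭
    rw [Set.Finite.mem_toFinset] at h𝔭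
    refine tr_apply ?_
    rintro rfl
    rw [Set.mem_setOf_eq, Ideal.absNorm_bot] at h𝔭
    exact hp.ne_zero h𝔭.symm
  rw [Finset.sum_congr rfl h1, Finset.sum_const, nsmul_eq_mul, mul_one]
  unfold deg1
  have h2 : Nat.card {𝔭 : Ideal (𝓞 K) // Ideal.absNorm 𝔭 = p} = hfin.toFinset.card := by
    rw [← Set.ncard_eq_toFinset_card _ hfin]
    rfl
  rw [h2]

lemma ord_prodZ {ι : Type} [Fintype ι] {Z : ι → ℂ → ℂ} {n : ι → ℤ}
    (hd : ∀ i, ∀ s : ℂ, s ≠ 1 → DifferentiableAt ℂ (Z i) s) (h0 : ∀ i, ∃ z, z ≠ 1 ∧ Z i z ≠ 0)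
    {s : ℂ} (hs : s ≠ 1) :
    (meromorphicOrderAt (prodZ Z n) s).untop₀ = netM Z n s := by
  classical
  have hdo : ∀ i, DifferentiableOn ℂ (Z i) {1}ᶜ := fun i z hz =>
    (hd i z hz).differentiableWithinAt
  have hanO : ∀ i, AnalyticOnNhd ℂ (Z i) {1}ᶜ := fun i =>
    (hdo i).analyticOnNhd isOpen_compl_singleton
  have han : ∀ i, AnalyticAt ℂ (Z i) s := fun i => hanO i s hs
  have hne : ∀ i, analyticOrderAt (Z i) s ≠ ⊤ := by
    intro i h
    obtain ⟨z, hz1, hz⟩ := h0 i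
    rw [analyticOrderAt_eq_top] at h
    have hpc : IsPreconnected ({1}ᶜ : Set ℂ) :=
      (isConnected_compl_singleton_of_one_lt_rank (by rw [Complex.rank_real_complex]; norm_num) 1).isPreconnected
    have h2 := AnalyticOnNhd.eqOn_zero_of_preconnected_of_eventuallyEq_zero (hanO i) hpc hs h
    exact hz (h2 hz1)
  have hm : ∀ i, meromorphicOrderAt (Z i ^ n i) s =
      ((n i * (H370.mult (Z i) s : ℤ) : ℤ) : WithTop ℤ) := by
    intro i
    rw [meromorphicOrderAt_zpow (han i).meromorphicAt, (han i).meromorphicOrderAt_eq]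
    have e : analyticOrderAt (Z i) s = ((H370.mult (Z i) s : ℕ) : ℕ∞) :=
      (ENat.natCast_toNat (hne i)).symm
    rw [e]
    simp
  have e1 : prodZ Z n = ∏ i, (Z i ^ n i) := by
    ext z
    unfold prodZ
    simp
  rw [e1, meromorphicOrderAt_prod fun i _ => (han i).meromorphicAt.zpow (n i)]
  rw [Finset.sum_congr rfl fun i _ => hm i]
  unfold netM
  rw [← WithTop.coe_sum]
  rfl

end

theorem main_zeta (hU : Pool.Agent.Y149.AR.S_UNR) (hM : P_MER) (hF : P_FRB) (hC : P_CNT)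
    (L : Type) [Field L] [NumberField L] (hG : IsGalois ℚ L) {ι : Type} [Fintype ι]
    (E : ι → IntermediateField ℚ L) :
    ∃ Z : ι → ℂ → ℂ, (∀ i, IsZeta (E i) (Z i)) ∧
      (∀ lam : ι → ℝ, {p : ℕ | p.Prime ∧ ∑ i, lam i * (deg1 (E i) p : ℝ) ≠ 0}.Infinite →
        ∃ c : ℝ, 0 < c ∧ ∀ᶠ T : ℝ in atTop, c * T * Real.log T ≤ ((unbalanced Z lam T).ncard : ℝ)) ∧
      (∀ n : ι → ℤ, {p : ℕ | p.Prime ∧ ∑ i, n i * (deg1 (E i) p : ℤ) ≠ 0}.Infinite →
        ∑ i, n i * (Module.finrank ℚ (E i) : ℤ) = 0 →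
        ∃ c : ℝ, 0 < c ∧ ∀ᶠ T : ℝ in atTop,
          c * T * Real.log T ≤ (zerosIn (prodZ Z n) (Box T) : ℝ) ∧
          c * T * Real.log T ≤ (polesIn (prodZ Z n) (Box T) : ℝ)) := by
  classical
  choose A Z hA hd hL hgood using fun i => good_zeta (K := E i) hU
  have hdeg : ∀ i, (1 : ℝ) ≤ (Module.finrank ℚ (E i) : ℝ) := fun i => by
    exact_mod_cast (Module.finrank_pos : 0 < Module.finrank ℚ (E i))
  have hcc : ∀ i n, ‖Pool.Agent.Y773.cc (tr (E i)) n‖ ≤ (Module.finrank ℚ (E i) : ℝ) := by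
    intro i n
    obtain ⟨A₁, hA₁, hdir⟩ := Pool.Agent.Y772.DK.t_dirK (E i)
    exact (hdir (tr (E i)) tr_le).2.2.2.2.2.2.1 n
  have part1 : ∀ lam : ι → ℝ, {p : ℕ | p.Prime ∧ ∑ i, lam i * (deg1 (E i) p : ℝ) ≠ 0}.Infinite →
      ∃ c : ℝ, 0 < c ∧ ∀ᶠ T : ℝ in atTop, c * T * Real.log T ≤ ((DD' Z lam T).ncard : ℝ) := by
    intro lam hlam
    have hinf : {p : ℕ | p.Prime ∧
        ∑ i, lam i * (Nat.card (𝓞 (E i) →+* ZMod p) : ℝ) ≠ 0}.Infinite := by
      refine hlam.mono ?_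
      rintro p ⟨hp, h⟩
      refine ⟨hp, ?_⟩
      have : ∀ i, (Nat.card (𝓞 (E i) →+* ZMod p) : ℝ) = (deg1 (E i) p : ℝ) := fun i => by
        unfold deg1
        rw [hC (E i) p hp]
      simp_rw [this]
      exact h
    obtain ⟨δ, η, hδ, hη, hev⟩ := hF L ι E lam hinf
    set S : Set ℕ := {p | η ≤ |∑ i, lam i * (Nat.card (𝓞 (E i) →+* ZMod p) : ℝ)|} with hS
    obtain ⟨c, hc, hm⟩ := hM S δ hδ (by
      filter_upwards [hev] with N hN
      refine hN.trans (le_of_eq ?_)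
      rfl)
    refine core (fun i => (Module.finrank ℚ (E i) : ℝ)) A (fun i => (Module.finrank ℚ (E i) : ℝ))
      (fun _ => 1) Z
      (fun i n => Pool.Agent.Y773.cc (tr (E i)) n * (ArithmeticFunction.vonMangoldt n : ℂ)) lam
      hdeg hA (fun i => by linarith [hdeg i]) (fun _ => le_rfl) hgood (fun i n => by
        rw [norm_mul, Complex.norm_real, Real.norm_of_nonneg ArithmeticFunction.vonMangoldt_nonneg]
        exact mul_le_mul_of_nonneg_right (hcc i n) ArithmeticFunction.vonMangoldt_nonneg)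
      (η ^ 2 * c) (by positivity) ?_
    filter_upwards [hm] with x hx
    have h1 : η ^ 2 * (c * Real.log x) ≤ η ^ 2 *
        ∑ p ∈ (Finset.Icc 1 ⌊x⌋₊).filter (fun p => p.Prime ∧ p ∈ S), Real.log p / p :=
      mul_le_mul_of_nonneg_left hx (by positivity)
    rw [← mul_assoc] at h1
    refine h1.trans ?_
    rw [Finset.mul_sum]
    have hsub : (Finset.Icc 1 ⌊x⌋₊).filter (fun p => p.Prime ∧ p ∈ S) ⊆
        (Finset.Icc 1 ⌊x⌋₊).filter Nat.Prime := by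
      intro p hp
      rw [Finset.mem_filter] at hp ⊢
      exact ⟨hp.1, hp.2.1⟩
    refine le_trans (Finset.sum_le_sum fun p hp => ?_)
      (Finset.sum_le_sum_of_subset_of_nonneg hsub fun p hp _ => by
        have : 0 ≤ Real.log p := Real.log_natCast_nonneg p
        positivity)
    obtain ⟨-, hpp, hpS⟩ := Finset.mem_filter.1 hp
    have hp2 : (2 : ℝ) ≤ p := by exact_mod_cast hpp.two_le
    have hlog : 0 < Real.log p := Real.log_pos (by linarith)
    have hval : ∑ i, (lam i : ℂ) * (Pool.Agent.Y773.cc (tr (E i)) p *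
        (ArithmeticFunction.vonMangoldt p : ℂ)) =
        (((∑ i, lam i * (Nat.card (𝓞 (E i) →+* ZMod p) : ℝ)) * Real.log p : ℝ) : ℂ) := by
      push_cast
      rw [Finset.sum_mul]
      refine Finset.sum_congr rfl fun i _ => ?_
      rw [cc_tr hpp, ArithmeticFunction.vonMangoldt_apply_prime hpp]
      unfold deg1
      rw [hC (E i) p hpp]
      push_cast
      ring
    rw [hval, Complex.norm_real, Real.norm_eq_abs, abs_mul, abs_of_pos hlog, mul_pow]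
    have hS' : η ≤ |∑ i, lam i * (Nat.card (𝓞 (E i) →+* ZMod p) : ℝ)| := hpS
    have h3 : η ^ 2 ≤ |∑ i, lam i * (Nat.card (𝓞 (E i) →+* ZMod p) : ℝ)| ^ 2 :=
      pow_le_pow_left₀ hη.le hS' 2
    have h4 : |∑ i, lam i * (Nat.card (𝓞 (E i) →+* ZMod p) : ℝ)| ^ 2 * Real.log p ^ 2 /
        (p * Real.log p) =
        |∑ i, lam i * (Nat.card (𝓞 (E i) →+* ZMod p) : ℝ)| ^ 2 * (Real.log p / p) := by
      field_simp
    rw [h4]
    exact mul_le_mul_of_nonneg_right h3 (by positivity)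
  refine ⟨Z, fun i => ⟨hd i, fun s hs => by rw [hL i s hs, LI_tr hs]⟩, part1, fun n hn hn0 => ?_⟩
  obtain ⟨c, hc, h1⟩ := part1 (fun i => (n i : ℝ)) (by
    refine hn.mono ?_
    rintro p ⟨hp, h⟩
    refine ⟨hp, fun h0 => h ?_⟩
    have : ((∑ i, n i * (deg1 (E i) p : ℤ) : ℤ) : ℝ) = 0 := by
      push_cast
      exact h0
    exact_mod_cast this)
  obtain ⟨c', hc', h2⟩ := quo2 hA hgood n (by exact_mod_cast hn0)
    (fun i => t_NASY _ (A i) _ _ (hdeg i) (hA i) (hgood i)) hc h1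
  refine ⟨c', hc', ?_⟩
  filter_upwards [h2, eventually_ge_atTop 1] with T hT hT1
  have h0 : ∀ i, ∃ z, z ≠ 1 ∧ Z i z ≠ 0 := fun i => by
    refine ⟨⟨2, 1⟩, ?_, (hgood i).nzr _ (by norm_num) le_rfl⟩
    intro h
    have := congrArg Complex.im h
    simp at this
  have hs1 : ∀ s ∈ Box T, s ≠ 1 := by
    rintro s ⟨-, h2, -, -⟩ rfl
    simp at h2
  have e1 : zerosIn (prodZ Z n) (Box T) = ∑ᶠ s ∈ box T, (netM Z n s).toNat := by
    unfold zerosIn
    refine finsum_mem_congr rfl fun s hs => ?_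
    rw [ord_prodZ hd h0 (hs1 s hs)]
  have e2 : polesIn (prodZ Z n) (Box T) = ∑ᶠ s ∈ box T, (-netM Z n s).toNat := by
    unfold polesIn
    refine finsum_mem_congr rfl fun s hs => ?_
    rw [ord_prodZ hd h0 (hs1 s hs)]
  rw [e1, e2]
  exact hT

end Pool.Agent.Y772.ND.Pub
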