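import Pool.Agent.Y772.HG.Res
import Pool.Agent.Y773.HG.Ent
import Pool.Agent.Y532.ND.Tau

/-!
# Orthogonality of ray class characters of a Galois number field which are not conjugate
-/

set_option autoImplicit false

open NumberField Complex Filter Topology Ideal
open scoped ArithmeticFunction.vonMangoldt Pointwise

namespace Pool.Agent.Y772.ND

open Pool.Agent.Y773.G
open Pool.Agent.Y773 (LI TPos cc rs gal VM exists_pow absNorm_span_nat)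
open Pool.Agent.Y772.NZ Pool.Agent.Y772.SK Pool.Agent.Y772.G
open Pool.Agent.Y772.SL hiding res_mod rs_mod reg_one sel_prime prim_norm_one prim_norm_le coprime_of_norm span_ne_top

section

variable {K : Type} [Field K] [NumberField K]

/-- `ψ(𝔞) conj(ψ'(σ 𝔞))` -/
noncomputable def rp (σ : Gal(K/ℚ)) (ψ ψ' : Ideal (𝓞 K) →*₀ ℂ) : Ideal (𝓞 K) →*₀ ℂ where
  toFun 𝔞 := ψ 𝔞 * (starRingEnd ℂ) (gal σ.toRingEquiv ψ' 𝔞)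
  map_zero' := by rw [map_zero, zero_mul]
  map_one' := by rw [map_one, map_one, map_one, one_mul]
  map_mul' 𝔞 𝔟 := by simp only [map_mul]; ring

lemma rp_apply (σ : Gal(K/ℚ)) (ψ ψ' : Ideal (𝓞 K) →*₀ ℂ) (I : Ideal (𝓞 K)) :
    rp σ ψ ψ' I = ψ I * (starRingEnd ℂ) (ψ' (σ • I)) := by
  rw [smul_eq_map]
  rfl

lemma rp_norm {ψ ψ' : Ideal (𝓞 K) →*₀ ℂ} (h : ∀ 𝔞, ‖ψ 𝔞‖ ≤ 1) (h' : ∀ 𝔞, ‖ψ' 𝔞‖ ≤ 1)
    (σ : Gal(K/ℚ)) (I : Ideal (𝓞 K)) : ‖rp σ ψ ψ' I‖ ≤ 1 := by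
  rw [rp_apply, norm_mul, RCLike.norm_conj]
  exact mul_le_one₀ (h I) (norm_nonneg _) (h' _)

lemma isCoprime_mul_iff (I J L : Ideal (𝓞 K)) : IsCoprime I (J * L) ↔ IsCoprime I J ∧ IsCoprime I L :=
  IsCoprime.mul_right_iff

lemma smul_coprime_iff (σ : Gal(K/ℚ)) (I J : Ideal (𝓞 K)) :
    IsCoprime (σ • I) J ↔ IsCoprime I (σ⁻¹ • J) := by
  constructor
  · intro h
    have := smul_isCoprime σ⁻¹ h
    rwa [inv_smul_smul] at this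
  · intro h
    have := smul_isCoprime σ h
    rwa [smul_inv_smul] at this

lemma smul_ne_bot (σ : Gal(K/ℚ)) {I : Ideal (𝓞 K)} (h : I ≠ ⊥) : σ • I ≠ ⊥ := by
  intro h1
  apply h
  have := congrArg (fun J => σ⁻¹ • J) h1
  simp only [inv_smul_smul] at this
  rw [this, ← Ideal.zero_eq_bot, smul_zero]

/-- the product is a character modulo the product of the conductors -/
lemma rp_mod {𝔣 𝔣' : Ideal (𝓞 K)} {ψ ψ' : Ideal (𝓞 K) →*₀ ℂ} (hψ : IsPrimChar K 𝔣 ψ)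
    (hψ' : IsPrimChar K 𝔣' ψ') (hf : 𝔣 ≠ ⊤) (σ : Gal(K/ℚ)) :
    ∃ e, IsModChar (𝔣 * σ⁻¹ • 𝔣') e (rp σ ψ ψ') := by
  refine exists_sig ?_ ?_ (fun 𝔞 ha => ?_) fun x hx0 hx hp => ?_
  · rw [← Ideal.zero_eq_bot]
    exact mul_ne_zero (by rw [Ideal.zero_eq_bot]; exact hψ.ne_bot)
      (by rw [Ideal.zero_eq_bot]; exact smul_ne_bot _ hψ'.ne_bot)
  · intro h
    apply hf
    have h1 : 𝔣 * σ⁻¹ • 𝔣' ≤ 𝔣 ⊓ σ⁻¹ • 𝔣' := Ideal.mul_le_inf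
    rw [h] at h1
    exact top_le_iff.1 (h1.trans inf_le_left)
  · rw [rp_apply, mul_ne_zero_iff, map_ne_zero (starRingEnd ℂ), hψ.supp 𝔞 ha,
      hψ'.supp _ (smul_ne_bot σ ha), isCoprime_mul_iff, smul_coprime_iff]
  · have h0 : 𝔣 * σ⁻¹ • 𝔣' ≤ 𝔣 ⊓ σ⁻¹ • 𝔣' := Ideal.mul_le_inf
    have hx1 : x - 1 ∈ 𝔣 := (h0 hx).1
    have h4 : x - 1 ∈ σ⁻¹ • 𝔣' := (h0 hx).2
    have h1 : σ • (Ideal.span {x}) =
        Ideal.span {RingOfIntegers.mapRingEquiv σ.toRingEquiv x} := by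
      rw [smul_eq_map, Ideal.map_span, Set.image_singleton]
      rfl
    have h3 : RingOfIntegers.mapRingEquiv σ.toRingEquiv x ≠ 0 := by
      rw [Ne, EmbeddingLike.map_eq_zero_iff]
      exact hx0
    have h2 : RingOfIntegers.mapRingEquiv σ.toRingEquiv x - 1 ∈ 𝔣' := by
      have h5 : RingOfIntegers.mapRingEquiv σ.toRingEquiv (x - 1) ∈ σ • (σ⁻¹ • 𝔣') := by
        rw [smul_eq_map]
        exact Ideal.mem_map_of_mem _ h4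
      rw [smul_inv_smul, map_sub, map_one] at h5
      exact h5
    have h6 : ψ (Ideal.span {x}) = 1 := hψ.ray x hx0 hx1 hp
    have h7 : TPos K (RingOfIntegers.mapRingEquiv σ.toRingEquiv x) := fun τ =>
      hp (τ.comp (σ.toRingEquiv : K →+* K))
    have h8 := hψ'.ray _ h3 h2 h7
    rw [rp_apply, h6, one_mul, h1, h8, map_one]

/-- the averages -/
lemma rp_av {𝔣 𝔣' : Ideal (𝓞 K)} {ψ ψ' : Ideal (𝓞 K) →*₀ ℂ} (hψ : IsPrimChar K 𝔣 ψ)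
    (hψ' : IsPrimChar K 𝔣' ψ') (hf : 𝔣 ≠ ⊤) (σ : Gal(K/ℚ))
    (hn : ∃ 𝔞, ψ 𝔞 ≠ 0 ∧ ψ' (σ • 𝔞) ≠ 0 ∧ ψ 𝔞 ≠ ψ' (σ • 𝔞)) :
    Tendsto (av fun n => (cc (rp σ ψ ψ') n).re) (𝓝[>] 0) (𝓝 0) := by
  obtain ⟨e, he⟩ := rp_mod hψ hψ' hf σ
  obtain ⟨𝔞, h1, h2, h3⟩ := hn
  have h0 : 𝔞 ≠ ⊥ := by
    rintro rfl
    exact h1 (by rw [← Ideal.zero_eq_bot, map_zero])
  have hc1 : IsCoprime 𝔞 𝔣 := (hψ.supp 𝔞 h0).1 h1
  have hc2 : IsCoprime (σ • 𝔞) 𝔣' := (hψ'.supp _ (smul_ne_bot σ h0)).1 h2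
  have hn2 : ‖ψ' (σ • 𝔞)‖ = 1 := prim_norm_one hψ' (smul_ne_bot σ h0) hc2
  obtain ⟨g, g1, g2, g3⟩ := reg_one t_ent he ⟨𝔞, (isCoprime_mul_iff _ _ _).2 ⟨hc1, (smul_coprime_iff _ _ _).1 hc2⟩, by
    rw [rp_apply]
    intro h4
    apply h3
    have h5 : (starRingEnd ℂ) (ψ' (σ • 𝔞)) * ψ' (σ • 𝔞) = 1 := by
      rw [mul_comm, Complex.mul_conj, Complex.normSq_eq_norm_sq, hn2]
      simp
    calc ψ 𝔞 = (ψ 𝔞 * (starRingEnd ℂ) (ψ' (σ • 𝔞))) * ψ' (σ • 𝔞) := by rw [mul_assoc, h5, mul_one]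
      _ = ψ' (σ • 𝔞) := by rw [h4, one_mul]⟩
  exact lim_av DK.t_dirK _ (rp_norm (prim_norm_le hψ) (prim_norm_le hψ') σ) g1 g2 g3

/-- in the other case the average is `1` -/
lemma rp_av_one {𝔣 𝔣' : Ideal (𝓞 K)} {ψ ψ' : Ideal (𝓞 K) →*₀ ℂ} (hψ : IsPrimChar K 𝔣 ψ)
    (hψ' : IsPrimChar K 𝔣' ψ') (σ : Gal(K/ℚ))
    (hn : ∀ 𝔞, ψ 𝔞 ≠ 0 → ψ' (σ • 𝔞) ≠ 0 → ψ 𝔞 = ψ' (σ • 𝔞)) :
    Tendsto (av fun n => (cc (rp σ ψ ψ') n).re) (𝓝[>] 0) (𝓝 1) := by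
  classical
  obtain ⟨A, hA, hDK⟩ := DK.t_dirK K
  have hle := rp_norm (prim_norm_le hψ) (prim_norm_le hψ') σ
  have hb := fun (φ : Ideal (𝓞 K) →*₀ ℂ) (hφ : ∀ 𝔞, ‖φ 𝔞‖ ≤ 1) => (hDK φ hφ).2.2.2.2.2.2.1
  have hv := fun (φ : Ideal (𝓞 K) →*₀ ℂ) (hφ : ∀ 𝔞, ‖φ 𝔞‖ ≤ 1) => (hDK φ hφ).2.2.2.2.2.2.2.1
  have hbad0 : (𝔣 * σ⁻¹ • 𝔣') ≠ 0 := by
    refine mul_ne_zero (by rw [Ideal.zero_eq_bot]; exact hψ.ne_bot)
      (by rw [Ideal.zero_eq_bot]; exact smul_ne_bot _ hψ'.ne_bot)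
  have hfb := finite_bad' K hbad0
  refine av_congr (fun n => (abs_re_le_norm _).trans (hb _ hle n))
    (fun n => (abs_re_le_norm _).trans (hb _ (one_norm K) n)) hfb.toFinset ?_ (lim_one DK.t_dirK K)
  intro p hp hS
  rw [Set.Finite.mem_toFinset] at hS
  rw [hv _ hle p hp, hv _ (one_norm K) p hp]
  congr 1
  refine finsum_mem_congr rfl fun P hP => ?_
  have hP' : absNorm P = p := hP
  have hPp := prime_of_norm hp hP'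
  have hP0 := ne_bot_of_norm hp hP'
  have hPm : P.IsMaximal := hPp.isMaximal hP0
  have hcop : ∀ J : Ideal (𝓞 K), ¬ P ∣ J → IsCoprime P J := by
    intro J hJ
    rw [Ideal.isCoprime_iff_sup_eq]
    by_contra hne
    have h9 := hPm.eq_of_le hne le_sup_left
    refine hJ (Ideal.dvd_iff_le.2 ?_)
    rw [h9]
    exact le_sup_right
  have c1 : IsCoprime P 𝔣 := hcop _ fun h => hS ⟨P, hP', h.mul_right _⟩
  have c2 : IsCoprime P (σ⁻¹ • 𝔣') := hcop _ fun h => hS ⟨P, hP', h.mul_left _⟩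
  have c3 : IsCoprime (σ • P) 𝔣' := (smul_coprime_iff _ _ _).2 c2
  have n1 : ψ P ≠ 0 := (hψ.supp P hP0).2 c1
  have n2 : ψ' (σ • P) ≠ 0 := (hψ'.supp _ (smul_ne_bot σ hP0)).2 c3
  rw [rp_apply, ← hn P n1 n2, Complex.mul_conj, Complex.normSq_eq_norm_sq, prim_norm_one hψ hP0 c1,
    one_ne K hP0]
  simp

end

end Pool.Agent.Y772.ND
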