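import Pool.Agent.W388.TW.PerChiE
import Pool.Agent.Y772.ND.Frm

/-! # One L-function: counting of zeros, explicit formula, mean square -/

set_option autoImplicit false

open Complex Filter Topology Set MeasureTheory
open scoped ComplexConjugate
open H370 (zset mult NN Nd Ns)
open W388 H385

namespace Pool.Agent.Y772.ND

open PerChi (zz_spec zz_refl zz_inj zz_re zz_im)
open PerChiD (zset_refl mult_refl)

/-- the zeros in the `z` variable -/
noncomputable def Zf {F : ℂ → ℂ} {V1 V2 : ℝ} (h : (zset F V1 V2).Finite) : Finset ℂ :=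
  h.toFinset.image zz

open Classical in
/-- their multiplicities -/
noncomputable def wf (F : ℂ → ℂ) (V1 V2 : ℝ) (z : ℂ) : ℝ :=
  if 1 / 2 + I * z ∈ zset F V1 V2 then (mult F (1 / 2 + I * z) : ℝ) else 0

lemma wf_nonneg (F : ℂ → ℂ) (V1 V2 : ℝ) (z : ℂ) : 0 ≤ wf F V1 V2 z := by
  unfold wf; split_ifs <;> positivity

lemma mem_Zf {F : ℂ → ℂ} {V1 V2 : ℝ} (h : (zset F V1 V2).Finite) {z : ℂ} :
    z ∈ Zf h ↔ 1 / 2 + I * z ∈ zset F V1 V2 := by
  unfold Zf
  rw [Finset.mem_image]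
  constructor
  · rintro ⟨s, hs, rfl⟩
    rw [zz_spec]
    exact h.mem_toFinset.1 hs
  · intro hz
    refine ⟨_, h.mem_toFinset.2 hz, ?_⟩
    apply_fun (fun w => 1 / 2 + I * w)
    · exact zz_spec _
    · intro x y hxy
      have h1 : I * x = I * y := by simpa using hxy
      exact mul_left_cancel₀ I_ne_zero h1

lemma wf_zz {F : ℂ → ℂ} {V1 V2 : ℝ} {s : ℂ} (hs : s ∈ zset F V1 V2) :
    wf F V1 V2 (zz s) = mult F s := by
  unfold wf
  rw [zz_spec, if_pos hs]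

lemma wf_notMem {F : ℂ → ℂ} {V1 V2 : ℝ} {z : ℂ} (hz : 1 / 2 + I * z ∉ zset F V1 V2) :
    wf F V1 V2 z = 0 := by
  unfold wf
  rw [if_neg hz]

lemma half_conj (z : ℂ) : 1 / 2 + I * conj z = 1 - conj (1 / 2 + I * z) := by
  simp only [map_add, map_mul, conj_I, map_div₀, map_one, Complex.conj_ofNat]
  ring

lemma Zf_conj {d A Q : ℝ} {F : ℂ → ℂ} {a : ℕ → ℂ} (hF : GoodE d A Q F a) {V1 V2 : ℝ} (hV : 1 ≤ V1)
    {z : ℂ} (hz : 1 / 2 + I * z ∈ zset F V1 V2) : 1 / 2 + I * conj z ∈ zset F V1 V2 := by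
  rw [half_conj]
  exact zset_refl hF hV hz

lemma wf_conj {d A Q : ℝ} {F : ℂ → ℂ} {a : ℕ → ℂ} (hF : GoodE d A Q F a) {V1 V2 : ℝ} (hV : 1 ≤ V1)
    (z : ℂ) : wf F V1 V2 (conj z) = wf F V1 V2 z := by
  by_cases hz : 1 / 2 + I * z ∈ zset F V1 V2
  · have h1 := Zf_conj hF hV hz
    unfold wf
    rw [if_pos hz, if_pos h1, half_conj]
    obtain ⟨h2, h3, h4, -, -⟩ := hz
    rw [mult_refl hF h2 h3 (by linarith)]
  · have h1 : 1 / 2 + I * conj z ∉ zset F V1 V2 := by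
      intro h
      have := Zf_conj hF hV h
      rw [Complex.conj_conj] at this
      exact hz this
    rw [wf_notMem hz, wf_notMem h1]

lemma sum_Zf {F : ℂ → ℂ} {V1 V2 : ℝ} (h : (zset F V1 V2).Finite) (g : ℂ → ℂ) :
    ∑ z ∈ Zf h, (wf F V1 V2 z : ℂ) * g z = ∑ s ∈ h.toFinset, (mult F s : ℂ) * g (zz s) := by
  unfold Zf
  rw [Finset.sum_image fun s _ s' _ h => zz_inj h]
  refine Finset.sum_congr rfl fun s hs => ?_
  rw [wf_zz (h.mem_toFinset.1 hs)]
  norm_cast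

lemma Az_Zf {F : ℂ → ℂ} {V1 V2 : ℝ} (h : (zset F V1 V2).Finite) (u t : ℝ) :
    Az (Zf h) (fun z => (wf F V1 V2 z : ℂ)) u t = A1 F V1 V2 u t := by
  unfold Az A1
  rw [sum_Zf h, finsum_mem_eq_finite_toFinset_sum _ h]

lemma sum_wf {F : ℂ → ℂ} {V1 V2 : ℝ} (h : (zset F V1 V2).Finite) :
    ∑ z ∈ Zf h, ‖(wf F V1 V2 z : ℂ)‖ = NN F V1 V2 := by
  unfold Zf NN
  rw [Finset.sum_image fun s _ s' _ h => zz_inj h, finsum_mem_eq_finite_toFinset_sum _ h]
  push_cast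
  refine Finset.sum_congr rfl fun s hs => ?_
  rw [wf_zz (h.mem_toFinset.1 hs)]
  simp

lemma sum_wf_le {F : ℂ → ℂ} {V1 V2 W1 W2 : ℝ} (h : (zset F V1 V2).Finite)
    (h' : (zset F W1 W2).Finite) (P : ℂ → Prop) [DecidablePred P]
    (hP : ∀ z, 1 / 2 + I * z ∈ zset F V1 V2 → P z → 1 / 2 + I * z ∈ zset F W1 W2) :
    ∑ z ∈ (Zf h).filter P, ‖(wf F V1 V2 z : ℂ)‖ ≤ NN F W1 W2 := by
  rw [← sum_wf h']
  refine (Finset.sum_le_sum fun z hz => ?_).trans (Finset.sum_le_sum_of_subset_of_nonneg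
    (f := fun z => ‖(wf F W1 W2 z : ℂ)‖) ?_ fun z _ _ => norm_nonneg _)
  · obtain ⟨h1, h2⟩ := Finset.mem_filter.1 hz
    rw [mem_Zf] at h1
    unfold wf
    rw [if_pos h1, if_pos (hP z h1 h2)]
  · intro z hz
    obtain ⟨h1, h2⟩ := Finset.mem_filter.1 hz
    rw [mem_Zf] at h1 ⊢
    exact hP z h1 h2

lemma ev_exp (K : ℝ) (n : ℕ) {c : ℝ} (hc : c < 1) : ∀ᶠ T : ℝ in atTop,
    K * (Real.log T) ^ n * Real.exp (c * Real.log T) ≤ T := by
  have h1 : Tendsto (fun x : ℝ => K * (x ^ n * Real.exp (-((1 - c) * x)))) atTop (𝓝 (K * 0)) := by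
    refine Tendsto.const_mul K ?_
    have h2 := (Real.tendsto_pow_mul_exp_neg_atTop_nhds_zero n).comp
      ((tendsto_id (α := ℝ) (x := atTop)).const_mul_atTop (show 0 < 1 - c by linarith))
    have h3 := h2.const_mul ((1 - c)⁻¹ ^ n)
    rw [mul_zero] at h3
    refine h3.congr fun x => ?_
    simp only [Function.comp, id]
    rw [mul_pow, ← mul_assoc, ← mul_assoc, ← mul_pow, inv_mul_cancel₀ (by linarith : (1 - c) ≠ 0),
      one_pow, one_mul]
  rw [mul_zero] at h1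
  have h4 := (h1.comp Real.tendsto_log_atTop).eventually_le_const (show (0:ℝ) < 1 by norm_num)
  filter_upwards [h4, eventually_gt_atTop 0] with T h5 h6
  simp only [Function.comp] at h5
  have h7 : Real.exp (c * Real.log T) = Real.exp (-((1 - c) * Real.log T)) * T := by
    nth_rw 3 [← Real.exp_log h6]
    rw [← Real.exp_add]
    congr 1; ring
  rw [h7]
  calc K * (Real.log T) ^ n * (Real.exp (-((1 - c) * Real.log T)) * T)
      = (K * ((Real.log T) ^ n * Real.exp (-((1 - c) * Real.log T)))) * T := by ring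
    _ ≤ 1 * T := mul_le_mul_of_nonneg_right h5 h6.le
    _ = T := one_mul T

end Pool.Agent.Y772.ND
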