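import Pool.Agent.Y772.ND.Sgl

/-! # One L-function: the package of facts at a large height -/

set_option autoImplicit false

open Complex Filter Topology Set MeasureTheory
open scoped ComplexConjugate
open H370 (zset mult NN Nd Ns)
open W388 H385

namespace Pool.Agent.Y772.ND

open PerChi (zz_spec zz_refl zz_inj zz_re zz_im)

/-- the facts about one L-function at height `T` -/
structure Fact (C L : ℝ) (F : ℂ → ℂ) (a : ℕ → ℂ) (T V1 V2 : ℝ) : Prop where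
  v1 : T - 3 * Real.log T ≤ V1
  v1' : V1 ≤ T - 3 * Real.log T + 1
  v2 : 2 * T + 3 * Real.log T - 1 ≤ V2
  v2' : V2 ≤ 2 * T + 3 * Real.log T
  v0 : 1 ≤ V1
  fin : (zset F V1 V2).Finite
  cnt : (NN F V1 V2 : ℝ) ≤ C * T * Real.log T
  cnt1 : (NN F V1 T : ℝ) ≤ C * (Real.log T) ^ 2
  cnt2 : (NN F (2 * T) V2 : ℝ) ≤ C * (Real.log T) ^ 2
  ex : ∀ (Λ : ℝ), 48 ≤ Λ → Λ ≤ Real.log T / 20 → ∀ N : ℕ, Real.exp (2 * Λ) < N + 1 →
      ∀ u m : ℝ, 0 ≤ u → u ≤ Λ → V1 + Real.log T ≤ m → m ≤ V2 - Real.log T →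
        ‖A1 F V1 V2 u m - Mz L N a u m‖ ≤ C * Real.exp (-u)
  ii : ∀ (Λ : ℝ), 48 ≤ Λ → Λ ≤ Real.log T / 20 → ∀ u : ℝ, 0 ≤ u → u ≤ Λ →
      Integrable (fun t : ℝ => ‖A1 F V1 V2 u t‖ ^ 2)
  ms : ∀ (Λ : ℝ), 48 ≤ Λ → Λ ≤ Real.log T / 20 → ∀ u : ℝ, 0 ≤ u → u ≤ Λ →
      ∫ t : ℝ, ‖A1 F V1 V2 u t‖ ^ 2 ≤ C * T * ((Real.log T) ^ 2 * Real.exp (-u ^ 2 / 2) + u + 1)

lemma Mz_le (L : ℝ) (hL : 0 ≤ L) (N : ℕ) (b : ℕ → ℂ) (u t : ℝ) : ‖Mz L N b u t‖ ≤
    L * Real.exp (-u ^ 2 / 4) + ‖∑ n ∈ Finset.Icc 1 N, b n * (Real.sqrt n : ℂ)⁻¹ *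
      cexp (I * t * (u - Real.log n)) * Real.exp (-(u - Real.log n) ^ 2 / 4)‖ := by
  have h9 : (1 / (2 * Real.sqrt Real.pi) : ℝ) ≤ 1 := by
    rw [div_le_one (by positivity)]
    have : 1 ≤ Real.sqrt Real.pi := by
      rw [Real.one_le_sqrt]
      linarith [Real.pi_gt_three]
    linarith
  unfold Mz
  rw [norm_mul, Complex.norm_real, Real.norm_of_nonneg (by positivity : (0:ℝ) ≤ 1 / (2 * Real.sqrt Real.pi))]
  have h1 : ‖(L : ℂ) * cexp (I * t * u) * Real.exp (-u ^ 2 / 4)‖ = L * Real.exp (-u ^ 2 / 4) := by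
    rw [norm_mul, norm_mul, Complex.norm_real, Real.norm_of_nonneg hL, Complex.norm_real,
      Real.norm_of_nonneg (Real.exp_pos _).le]
    have e : I * (t : ℂ) * (u : ℂ) = ((t * u : ℝ) : ℂ) * I := by push_cast; ring
    rw [e, Complex.norm_exp_ofReal_mul_I, mul_one]
  calc _ ≤ 1 * ‖(L : ℂ) * cexp (I * t * u) * Real.exp (-u ^ 2 / 4) -
      ∑ n ∈ Finset.Icc 1 N, b n * (Real.sqrt n : ℂ)⁻¹ * cexp (I * t * (u - Real.log n)) *
      Real.exp (-(u - Real.log n) ^ 2 / 4)‖ := mul_le_mul_of_nonneg_right h9 (norm_nonneg _)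
    _ ≤ _ := by
      rw [one_mul]
      refine (norm_sub_le _ _).trans ?_
      rw [h1]

theorem single (hMSQ : P_MSQ) (hFAR : P_FAR) (d A : ℝ) (hd : 1 ≤ d) (hA : 1 ≤ A) (D : ℝ) (hD : 0 ≤ D)
    (Q : ℝ) (F : ℂ → ℂ) (a : ℕ → ℂ) (hQ : 1 ≤ Q) (hF : GoodE d A Q F a)
    (ha : ∀ n, ‖a n‖ ≤ D * ArithmeticFunction.vonMangoldt n) :
    ∃ C : ℝ, 1 ≤ C ∧ ∀ᶠ T : ℝ in atTop, ∃ V1 V2 : ℝ, Fact C (d * Real.log (Q * T)) F a T V1 V2 := by
  obtain ⟨Cf, hCf, hform⟩ := form d A hd hA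
  obtain ⟨C0, hC0, hcount⟩ := zcount_long_D d A hd hA
  obtain ⟨Cm, hCm, hmsq⟩ := hMSQ
  obtain ⟨Ch, hCh, hfar⟩ := hFAR
  set C := 1 + Cf + 12 * C0 + 3 * (8 * d ^ 2 + 2 * Cf ^ 2 + 3 * Cm * D ^ 2) + 2 with hC
  have hC1 : 1 ≤ C := by rw [hC]; nlinarith [sq_nonneg d, sq_nonneg Cf, sq_nonneg D, mul_nonneg hCm.le (sq_nonneg D)]
  have hCf' : Cf ≤ C := by rw [hC]; nlinarith [sq_nonneg d, sq_nonneg Cf, sq_nonneg D, mul_nonneg hCm.le (sq_nonneg D)]
  have hC0' : 12 * C0 ≤ C := by rw [hC]; nlinarith [sq_nonneg d, sq_nonneg Cf, sq_nonneg D, mul_nonneg hCm.le (sq_nonneg D)]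
  refine ⟨C, hC1, ?_⟩
  have f1 := hform Q F a hQ hF
  have f2 : ∀ᶠ T : ℝ in atTop, Real.log Q ≤ Real.log T := Real.tendsto_log_atTop.eventually_ge_atTop _
  have f3 : ∀ᶠ T : ℝ in atTop, 64 ≤ Real.log T := Real.tendsto_log_atTop.eventually_ge_atTop 64
  have f4 := ev_exp 8 1 (show (0:ℝ) < 1 by norm_num)
  have f5 := ev_exp (144 * Ch * C0 ^ 2) 5 (show (1 / 20:ℝ) < 1 by norm_num)
  have f6 := ev_exp (36 * Ch * C0 ^ 2) 3 (show (1 / 20:ℝ) < 1 by norm_num)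
  filter_upwards [f1, f2, f3, f4, f5, f6, eventually_gt_atTop 1] with T f1 f2 f3 f4 f5 f6 hT1
  obtain ⟨V1, V2, ⟨h1, h2, h3, h4⟩, h5⟩ := f1
  set κ := Real.log T with hκ
  rw [zero_mul, Real.exp_zero, mul_one, pow_one] at f4
  have hT0 : 0 < T := by linarith
  have hV1 : 15 ≤ V1 := by linarith
  have hlQ : 0 ≤ Real.log Q := Real.log_nonneg hQ
  have hlQT : Real.log (Q * T) ≤ 2 * κ := by
    rw [Real.log_mul (by linarith) hT0.ne']; linarith
  have hlQT0 : 0 ≤ Real.log (Q * T) := by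
    rw [Real.log_mul (by linarith) hT0.ne']; linarith
  have hfin : (zset F V1 V2).Finite := zset_finite_D hA hQ hF V1 V2 (by linarith)
  have hlog : ∀ x : ℝ, 1 ≤ x → x ≤ 3 * T → 0 ≤ Real.log (Q * x) ∧ Real.log (Q * x) ≤ 3 * κ := by
    intro x hx1 hx
    rw [Real.log_mul (by linarith) (by linarith)]
    have e1 : Real.log x ≤ Real.log (3 * T) := Real.log_le_log (by linarith) hx
    rw [Real.log_mul (by norm_num) hT0.ne'] at e1
    have e2 : Real.log 3 ≤ 2 := by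
      have := Real.log_le_sub_one_of_pos (show (0:ℝ) < 3 by norm_num)
      linarith
    have e3 : 0 ≤ Real.log x := Real.log_nonneg hx1
    constructor <;> linarith
  have hcnt : ∀ x y z : ℝ, 3 ≤ x → x + 1 ≤ y → y ≤ 3 * T → y - x ≤ z →
      (NN F x y : ℝ) ≤ 3 * C0 * z * κ := by
    intro x y z hx hxy hy hz
    refine (hcount Q F a hQ hF x y hx hxy).trans ?_
    obtain ⟨g1, g2⟩ := hlog y (by linarith) hy
    have hz0 : 0 ≤ z := by linarith
    calc C0 * (y - x) * Real.log (Q * y) ≤ C0 * z * (3 * κ) := by gcongr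
      _ = _ := by ring
  have c1 : (NN F V1 V2 : ℝ) ≤ 6 * C0 * T * κ := by
    refine (hcnt V1 V2 (2 * T) (by linarith) (by linarith) (by linarith) (by linarith)).trans
      (le_of_eq (by ring))
  have c2 : (NN F V1 T : ℝ) ≤ 9 * C0 * κ ^ 2 := by
    refine (hcnt V1 T (3 * κ) (by linarith) (by linarith) (by linarith) (by linarith)).trans
      (le_of_eq (by ring))
  have c3 : (NN F (2 * T) V2 : ℝ) ≤ 9 * C0 * κ ^ 2 := by
    refine (hcnt (2 * T) V2 (3 * κ) (by linarith) (by linarith) (by linarith) (by linarith)).trans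
      (le_of_eq (by ring))
  have c4 : (NN F V1 (V1 + 3 * κ) : ℝ) ≤ 12 * C0 * κ ^ 2 := by
    refine (hcnt V1 (V1 + 3 * κ) (4 * κ) (by linarith) (by linarith) (by linarith)
      (by linarith)).trans (le_of_eq (by ring))
  have c5 : (NN F (V2 - 3 * κ - 1) V2 : ℝ) ≤ 12 * C0 * κ ^ 2 := by
    refine (hcnt (V2 - 3 * κ - 1) V2 (4 * κ) (by linarith) (by linarith) (by linarith)
      (by linarith)).trans (le_of_eq (by ring))
  -- the far part
  have hfar1 := fun u hu => hfar (Zf hfin) (fun z => (wf F V1 V2 z : ℂ)) V1 V2 κ (12 * C0 * κ ^ 2)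
    (6 * C0 * T * κ) u (by linarith) (by linarith) hu (by
      intro z hz
      rw [mem_Zf] at hz
      obtain ⟨g1, g2, g3, g4, -⟩ := hz
      simp only [add_re, mul_re, I_re, zero_mul, I_im, one_mul, zero_sub, add_im, mul_im,
        zero_add] at g1 g2 g3 g4
      norm_num at g1 g2 g3 g4
      refine ⟨?_, g3.le, g4⟩
      rw [abs_le]; constructor <;> linarith) (by rw [sum_wf hfin]; exact c1) (by
      refine (sum_wf_le hfin (zset_finite_D hA hQ hF V1 (V1 + 3 * κ) (by linarith)) _ ?_).trans c4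
      rintro z ⟨g1, g2, g3, g4, g5⟩ hP
      refine ⟨g1, g2, g3, ?_, g5⟩
      have e : (1 / 2 + I * z).im = z.re := by simp
      rw [e]; exact hP) (by
      refine (sum_wf_le hfin (zset_finite_D hA hQ hF (V2 - 3 * κ - 1) V2 (by linarith)) _ ?_).trans c5
      rintro z ⟨g1, g2, g3, g4, g5⟩ hP
      refine ⟨g1, g2, ?_, g4, g5⟩
      have e : (1 / 2 + I * z).im = z.re := by simp
      rw [e]; linarith)
  simp_rw [Az_Zf hfin] at hfar1
  refine ⟨V1, V2, ⟨h1, h2, h3, h4, by linarith, hfin, ?_, ?_, ?_, ?_, ?_, ?_⟩⟩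
  · refine c1.trans ?_
    have : 6 * C0 ≤ C := by linarith
    have h6 : 0 ≤ T * κ := by positivity
    nlinarith
  · refine c2.trans ?_
    have : 9 * C0 ≤ C := by linarith
    exact mul_le_mul_of_nonneg_right this (sq_nonneg _)
  · refine c3.trans ?_
    have : 9 * C0 ≤ C := by linarith
    exact mul_le_mul_of_nonneg_right this (sq_nonneg _)
  · intro Λ hΛ hΛT N hN u m hu0 hu hm1 hm2
    refine (h5 Λ hΛ (by linarith) N hN u m hu0 hu hm1 hm2).trans ?_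
    exact mul_le_mul_of_nonneg_right hCf' (Real.exp_pos _).le
  · intro Λ hΛ hΛT u hu0 hu
    exact (hfar1 u hu0).1
  · intro Λ hΛ hΛT u hu0 hu
    obtain ⟨i1, i2⟩ := hfar1 u hu0
    set J := Set.Icc (V1 + κ) (V2 - κ) with hJ
    rw [← integral_add_compl (measurableSet_Icc : MeasurableSet J) i1]
    -- the far part
    have hu' : Real.exp u ≤ Real.exp (1 / 20 * κ) := Real.exp_le_exp.2 (by linarith)
    have far2 : ∫ t in Jᶜ, ‖A1 F V1 V2 u t‖ ^ 2 ≤ 2 * T := by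
      refine i2.trans ?_
      have e1 : T ^ 2 * Real.exp (-κ ^ 2) ≤ 1 := by
        have : T ^ 2 = Real.exp (2 * κ) := by
          rw [mul_comm, Real.exp_mul, hκ, Real.exp_log hT0]; norm_num
        rw [this, ← Real.exp_add, Real.exp_le_one_iff]
        nlinarith
      calc Ch * Real.exp u * (κ * (12 * C0 * κ ^ 2) ^ 2 + κ * (6 * C0 * T * κ) ^ 2 * Real.exp (-κ ^ 2))
          = Real.exp u * (144 * Ch * C0 ^ 2 * κ ^ 5 + 36 * Ch * C0 ^ 2 * κ ^ 3 *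
              (T ^ 2 * Real.exp (-κ ^ 2))) := by ring
        _ ≤ Real.exp (1 / 20 * κ) * (144 * Ch * C0 ^ 2 * κ ^ 5 + 36 * Ch * C0 ^ 2 * κ ^ 3 * 1) := by
            gcongr
        _ = 144 * Ch * C0 ^ 2 * κ ^ 5 * Real.exp (1 / 20 * κ) +
            36 * Ch * C0 ^ 2 * κ ^ 3 * Real.exp (1 / 20 * κ) := by ring
        _ ≤ 2 * T := by linarith
    -- the near part
    set N : ℕ := ⌊Real.exp (2 * Λ)⌋₊ with hN
    have hN1 : Real.exp (2 * Λ) < N + 1 := Nat.lt_floor_add_one _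
    have hN2 : (N : ℝ) ≤ Real.exp (2 * Λ) := Nat.floor_le (Real.exp_pos _).le
    have hN3 : (N : ℝ) ^ 3 ≤ T := by
      calc (N : ℝ) ^ 3 ≤ (Real.exp (2 * Λ)) ^ 3 := by gcongr
        _ = Real.exp (6 * Λ) := by rw [← Real.exp_nat_mul]; congr 1; push_cast; ring
        _ ≤ Real.exp κ := Real.exp_le_exp.2 (by linarith)
        _ = T := Real.exp_log hT0
    have hN0 : 1 ≤ N := by
      rw [hN]
      exact Nat.floor_pos.2 (Real.one_le_exp (by linarith))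
    set L := d * Real.log (Q * T) with hL
    have hL0 : 0 ≤ L := by positivity
    have hL2 : L ≤ 2 * d * κ := by
      rw [hL]; nlinarith
    set Y : ℝ → ℝ := fun t => ‖∑ n ∈ Finset.Icc 1 N, a n * (Real.sqrt n : ℂ)⁻¹ *
      cexp (I * t * (u - Real.log n)) * Real.exp (-(u - Real.log n) ^ 2 / 4)‖ ^ 2 with hY
    have hYc : Continuous Y := by
      simp only [hY]
      fun_prop
    have hmsq2 : ∫ t in (V1 + κ)..(V2 - κ), Y t ≤ Cm * D ^ 2 * (3 * T) * (u + 1) := by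
      refine (hmsq D a hD ha N (V1 + κ) (V2 - κ) u hN0 (by linarith) hu0).trans ?_
      have : V2 - κ - (V1 + κ) + (N : ℝ) ^ 3 ≤ 3 * T := by linarith
      gcongr
    have hpt : ∀ t ∈ J, ‖A1 F V1 V2 u t‖ ^ 2 ≤
        3 * ((L * Real.exp (-u ^ 2 / 4)) ^ 2 + Cf ^ 2) + 3 * Y t := by
      intro t ht
      have g1 := h5 Λ hΛ (by linarith) N hN1 u t hu0 hu ht.1 ht.2
      have g2 := Mz_le L hL0 N a u t
      have g3 : ‖A1 F V1 V2 u t‖ ≤ ‖A1 F V1 V2 u t - Mz L N a u t‖ + ‖Mz L N a u t‖ := by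
        have := norm_add_le (A1 F V1 V2 u t - Mz L N a u t) (Mz L N a u t)
        rwa [sub_add_cancel] at this
      have g4 : Real.exp (-u) ≤ 1 := Real.exp_le_one_iff.2 (by linarith)
      have g5 : ‖A1 F V1 V2 u t‖ ≤ Cf + (L * Real.exp (-u ^ 2 / 4) +
          ‖∑ n ∈ Finset.Icc 1 N, a n * (Real.sqrt n : ℂ)⁻¹ *
          cexp (I * t * (u - Real.log n)) * Real.exp (-(u - Real.log n) ^ 2 / 4)‖) := by
        have : Cf * Real.exp (-u) ≤ Cf * 1 := mul_le_mul_of_nonneg_left g4 hCf.le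
        linarith
      have g6 := pow_le_pow_left₀ (norm_nonneg _) g5 2
      refine g6.trans ?_
      simp only [hY]
      set p := ‖∑ n ∈ Finset.Icc 1 N, a n * (Real.sqrt n : ℂ)⁻¹ *
          cexp (I * t * (u - Real.log n)) * Real.exp (-(u - Real.log n) ^ 2 / 4)‖
      set q := L * Real.exp (-u ^ 2 / 4)
      nlinarith [sq_nonneg (Cf - q), sq_nonneg (Cf - p), sq_nonneg (q - p)]
    have near2 : ∫ t in J, ‖A1 F V1 V2 u t‖ ^ 2 ≤
        3 * (8 * d ^ 2 * κ ^ 2 * Real.exp (-u ^ 2 / 2) * T + 2 * Cf ^ 2 * T +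
          3 * Cm * D ^ 2 * T * (u + 1)) := by
      have k1 : ∫ t in J, ‖A1 F V1 V2 u t‖ ^ 2 ≤ ∫ t in J,
          (3 * ((L * Real.exp (-u ^ 2 / 4)) ^ 2 + Cf ^ 2) + 3 * Y t) := by
        refine setIntegral_mono_on i1.integrableOn ?_ measurableSet_Icc hpt
        refine Continuous.integrableOn_Icc ?_
        fun_prop
      refine k1.trans ?_
      have k0 : ∫ t in (V1 + κ)..(V2 - κ), (3 * ((L * Real.exp (-u ^ 2 / 4)) ^ 2 + Cf ^ 2) + 3 * Y t) =
          (V2 - κ - (V1 + κ)) * (3 * ((L * Real.exp (-u ^ 2 / 4)) ^ 2 + Cf ^ 2)) +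
            3 * ∫ t in (V1 + κ)..(V2 - κ), Y t := by
        have hc : Continuous fun t : ℝ => 3 * Y t := continuous_const.mul hYc
        rw [intervalIntegral.integral_add intervalIntegrable_const (hc.intervalIntegrable _ _),
          intervalIntegral.integral_const, intervalIntegral.integral_const_mul, smul_eq_mul]
      rw [hJ, integral_Icc_eq_integral_Ioc, ← intervalIntegral.integral_of_le (by linarith), k0]
      have k2 : (L * Real.exp (-u ^ 2 / 4)) ^ 2 ≤ 4 * d ^ 2 * κ ^ 2 * Real.exp (-u ^ 2 / 2) := by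
        have e1 : (Real.exp (-u ^ 2 / 4)) ^ 2 = Real.exp (-u ^ 2 / 2) := by
          rw [← Real.exp_nat_mul]; congr 1; push_cast; ring
        rw [mul_pow, e1]
        have e2 : L ^ 2 ≤ (2 * d * κ) ^ 2 := pow_le_pow_left₀ hL0 hL2 2
        have e3 := mul_le_mul_of_nonneg_right e2 (Real.exp_pos (-u ^ 2 / 2)).le
        refine e3.trans (le_of_eq ?_)
        ring
      have k3 : (V2 - κ - (V1 + κ)) * (3 * ((L * Real.exp (-u ^ 2 / 4)) ^ 2 + Cf ^ 2)) ≤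
          (2 * T) * (3 * (4 * d ^ 2 * κ ^ 2 * Real.exp (-u ^ 2 / 2) + Cf ^ 2)) := by
        have e0 : 0 ≤ V2 - κ - (V1 + κ) := by linarith
        have e1 : V2 - κ - (V1 + κ) ≤ 2 * T := by linarith
        have e2 : 0 ≤ 3 * ((L * Real.exp (-u ^ 2 / 4)) ^ 2 + Cf ^ 2) := by positivity
        exact mul_le_mul e1 (by linarith) e2 (by linarith)
      linarith
    have hfin2 : 3 * (8 * d ^ 2 * κ ^ 2 * Real.exp (-u ^ 2 / 2) * T + 2 * Cf ^ 2 * T +
          3 * Cm * D ^ 2 * T * (u + 1)) + 2 * T ≤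
        C * T * (κ ^ 2 * Real.exp (-u ^ 2 / 2) + u + 1) := by
      have e0 : 0 ≤ κ ^ 2 * Real.exp (-u ^ 2 / 2) := by positivity
      set w := κ ^ 2 * Real.exp (-u ^ 2 / 2)
      have e1 : 3 * (8 * d ^ 2 * κ ^ 2 * Real.exp (-u ^ 2 / 2) * T + 2 * Cf ^ 2 * T +
          3 * Cm * D ^ 2 * T * (u + 1)) + 2 * T =
          T * (3 * (8 * d ^ 2 * w + 2 * Cf ^ 2 + 3 * Cm * D ^ 2 * (u + 1)) + 2) := by
        simp only [w]; ring
      have e2 : C * T * (κ ^ 2 * Real.exp (-u ^ 2 / 2) + u + 1) = T * (C * (w + u + 1)) := by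
        simp only [w]; ring
      rw [e1, e2]
      refine mul_le_mul_of_nonneg_left ?_ hT0.le
      have q1 : 0 ≤ d ^ 2 := sq_nonneg _
      have q2 : 0 ≤ Cf ^ 2 := sq_nonneg _
      have q3 : 0 ≤ Cm * D ^ 2 := by positivity
      have q4 : 0 ≤ (3 * (8 * d ^ 2)) * (u + 1) := by positivity
      have q5 : 0 ≤ (1 + Cf + 12 * C0 + 3 * (2 * Cf ^ 2 + 3 * Cm * D ^ 2) + 2) * w := by positivity
      have q6 : 0 ≤ (1 + Cf + 12 * C0) * (u + 1) := by positivity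
      have q7 : 0 ≤ (3 * (2 * Cf ^ 2) + 2) * u := by positivity
      rw [hC]
      nlinarith
    linarith

end Pool.Agent.Y772.ND
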