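import Pool.Agent.Y772.ND.Ray2
import Pool.Agent.Y772.NV.Main
import Pool.Agent.Y759.AR.Unr

/-!
# Dedekind zeta functions satisfy the analytic hypotheses
-/

set_option autoImplicit false

open NumberField Complex Filter Topology Ideal Set
open scoped ArithmeticFunction.vonMangoldt

namespace Pool.Agent.Y772.ND

open Pool.Agent.Y773.G (sg ex ex_le differentiable_gam gam_ne_zero gam_ne_zero' card_emb)
open Pool.Agent.Y773 (LI cc FEd GG)
open Pool.Agent.Y772.FE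
open H370.DL (refl hasDerivAt_refl analyticAt_refl im_osc re_osc eventually_im_ne order_refl
  logDeriv_Gammaℝ_bound)

variable (K : Type) [Field K] [NumberField K]

open Classical in
/-- the trivial character -/
noncomputable def tr : Ideal (𝓞 K) →*₀ ℂ where
  toFun 𝔞 := if 𝔞 = ⊥ then 0 else 1
  map_zero' := by simp
  map_one' := by
    rw [if_neg]
    rw [Ideal.one_eq_top]
    exact top_ne_bot
  map_mul' 𝔞 𝔟 := by
    by_cases ha : 𝔞 = ⊥
    · simp [ha]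
    by_cases hb : 𝔟 = ⊥
    · simp [hb]
    rw [if_neg ha, if_neg hb, if_neg, one_mul]
    intro h
    rcases Ideal.mul_eq_bot.1 h with h | h
    · exact ha h
    · exact hb h

variable {K}

lemma tr_apply {𝔞 : Ideal (𝓞 K)} (h : 𝔞 ≠ ⊥) : tr K 𝔞 = 1 := if_neg h

lemma tr_bot : tr K ⊥ = 0 := if_pos rfl

lemma tr_unit (𝔞 : Ideal (𝓞 K)) : tr K 𝔞 = 0 ∨ ‖tr K 𝔞‖ = 1 := by
  by_cases h : 𝔞 = ⊥
  · left; rw [h, tr_bot]
  · right; rw [tr_apply h, norm_one]

lemma tr_le (𝔞 : Ideal (𝓞 K)) : ‖tr K 𝔞‖ ≤ 1 := by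
  rcases tr_unit 𝔞 with h | h
  · rw [h, norm_zero]; exact zero_le_one
  · exact h.le

lemma tr_unr : Pool.Agent.Y149.AR.IsUnr (fun _ : InfinitePlace K => 0) (tr K) where
  sig_le _ := Nat.zero_le _
  cpx _ _ := rfl
  ne 𝔞 h := by rw [tr_apply h]; exact one_ne_zero
  sig x hx := by
    rw [tr_apply (by rwa [Ne, Ideal.span_singleton_eq_bot])]
    unfold sg
    exact (Finset.prod_eq_one fun w _ => pow_zero _).symm

lemma tr_ab : Pool.Agent.Y772.NV.ab (tr K) = tr K := by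
  ext 𝔞
  have h1 : Pool.Agent.Y772.NV.ab (tr K) 𝔞 = tr K 𝔞 * (starRingEnd ℂ) (tr K 𝔞) := rfl
  rw [h1]
  by_cases h : 𝔞 = ⊥
  · rw [h, tr_bot, zero_mul]
  · rw [tr_apply h, map_one, one_mul]

lemma tr_sq : Pool.Agent.Y772.NV.sq (tr K) = tr K := by
  ext 𝔞
  have h1 : Pool.Agent.Y772.NV.sq (tr K) 𝔞 = tr K 𝔞 * tr K 𝔞 := rfl
  rw [h1]
  by_cases h : 𝔞 = ⊥
  · rw [h, tr_bot, zero_mul]
  · rw [tr_apply h, one_mul]

/-- the Gaussian factor -/
noncomputable def gs (s : ℂ) : ℂ := cexp ((s - 1 / 2) ^ 2)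

lemma gs_ne (s : ℂ) : gs s ≠ 0 := Complex.exp_ne_zero _

lemma gs_diff : Differentiable ℂ gs := by unfold gs; fun_prop

lemma gs_refl (s : ℂ) : (starRingEnd ℂ) (gs (1 - (starRingEnd ℂ) s)) = gs s := by
  unfold gs
  rw [← Complex.exp_conj]
  congr 1
  simp only [map_pow, map_sub, map_one, Complex.conj_conj, map_div₀, map_ofNat]
  ring

lemma gs_norm (s : ℂ) : ‖gs s‖ = Real.exp ((s.re - 1 / 2) ^ 2 - s.im ^ 2) := by
  unfold gs
  rw [Complex.norm_exp]
  congr 1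
  have h1 : (s - 1 / 2).re = s.re - 1 / 2 := by simp
  have h2 : (s - 1 / 2).im = s.im := by simp
  rw [sq, Complex.mul_re, h1, h2]
  ring

/-- the completed function and its consequences -/
structure CZ (R : ℝ) (e : (K →+* ℂ) → ℕ) (H : ℂ → ℂ) : Prop where
  diff : Differentiable ℂ H
  fed : FEd R e (fun s => H s * gs s)
  bd : ∃ C : ℝ, 0 ≤ C ∧ ∀ s : ℂ, -1 / 2 ≤ s.re → s.re ≤ 3 / 2 → 1 ≤ |s.im| →
    ‖GG R e s * H s‖ ≤ C * (1 + ‖s‖) ^ 2
  right : ∀ s : ℂ, 1 < s.re → H s = s * (s - 1) * LI (tr K) s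
  z0 : H 0 = 0
  z2 : H (-2) = 0

theorem cz_exists (hU : Pool.Agent.Y149.AR.S_UNR) :
    ∃ H : ℂ → ℂ, CZ ((Ideal.absNorm (differentIdeal ℤ (𝓞 K)) : ℕ) : ℝ)
      (ex (fun _ : InfinitePlace K => 0)) H := by
  classical
  obtain ⟨Ξ, w, hΞ, hΞs, hfe, hbd⟩ := hU K (fun _ => 0) (tr K) tr_unr
  have h𝔡 : differentIdeal ℤ (𝓞 K) ≠ ⊥ := differentIdeal_ne_bot
  set R : ℝ := ((Ideal.absNorm (differentIdeal ℤ (𝓞 K)) : ℕ) : ℝ) with hR
  set e : (K →+* ℂ) → ℕ := ex (fun _ : InfinitePlace K => 0) with he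
  have hR1 : 1 ≤ R := by
    rw [hR]
    exact_mod_cast Nat.one_le_iff_ne_zero.mpr fun h1 => h𝔡 (Ideal.absNorm_eq_zero_iff.mp h1)
  have hR0 : 0 < R := by linarith
  have hRc : (R : ℂ) ≠ 0 := by exact_mod_cast hR0.ne'
  have hRp : ∀ z : ℂ, (R : ℂ) ^ z ≠ 0 := cpow_R_ne hR0
  set H : ℂ → ℂ := fun s => Ξ s * ((R : ℂ) ^ (-(s / 2))) * ∏ φ : K →+* ℂ, (Complex.Gammaℝ (s + e φ))⁻¹
    with hH
  have hHd : Differentiable ℂ H := by
    refine (hΞ.mul ?_).mul (differentiable_gam e)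
    intro z
    exact DifferentiableAt.const_cpow (by fun_prop) (Or.inl hRc)
  have hinv : ∀ s : ℂ, (R : ℂ) ^ (s / 2) * (R : ℂ) ^ (-(s / 2)) = 1 := by
    intro s
    rw [← Complex.cpow_add _ _ hRc, add_neg_cancel, Complex.cpow_zero]
  have hGH : ∀ s : ℂ, ∏ φ : K →+* ℂ, Complex.Gammaℝ (s + e φ) ≠ 0 → GG R e s * H s = Ξ s := by
    intro s hs
    rw [hH]
    unfold GG
    simp only
    rw [Finset.prod_inv_distrib]
    have h1 := hinv s
    calc (R : ℂ) ^ (s / 2) * (∏ φ : K →+* ℂ, Complex.Gammaℝ (s + e φ)) *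
          (Ξ s * (R : ℂ) ^ (-(s / 2)) * (∏ φ : K →+* ℂ, Complex.Gammaℝ (s + e φ))⁻¹)
        = Ξ s * ((R : ℂ) ^ (s / 2) * (R : ℂ) ^ (-(s / 2))) *
          ((∏ φ : K →+* ℂ, Complex.Gammaℝ (s + e φ)) * (∏ φ : K →+* ℂ, Complex.Gammaℝ (s + e φ))⁻¹) := by ring
      _ = Ξ s := by rw [h1, mul_inv_cancel₀ hs, mul_one, mul_one]
  have hGne : ∀ s : ℂ, ∏ φ : K →+* ℂ, Complex.Gammaℝ (s + e φ) ≠ 0 → GG R e s ≠ 0 := by
    intro s hs
    unfold GG
    exact mul_ne_zero (hRp _) hs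
  have hright : ∀ s : ℂ, 1 < s.re → H s = s * (s - 1) * LI (tr K) s := by
    intro s hs
    have h0 := gam_ne_zero e (s := s) (by linarith)
    have h1 := hGH s h0
    rw [hΞs s hs] at h1
    have h2 := hGne s h0
    have h3 : GG R e s * H s = GG R e s * (s * (s - 1) * LI (tr K) s) := by rw [h1]; ring
    exact mul_left_cancel₀ h2 h3
  obtain ⟨A', -, hdir⟩ := Pool.Agent.Y772.DK.t_dirK K
  have hw1 : ‖w‖ = 1 := by
    have hX2 : Ξ 2 ≠ 0 := by
      have h5 : (1 : ℝ) < (2 : ℂ).re := by norm_num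
      rw [hΞs 2 h5]
      have h6 := (hdir (tr K) tr_le).2.2.1 2 h5
      exact mul_ne_zero (by norm_num) (mul_ne_zero (hGne 2 (gam_ne_zero e (by norm_num))) h6)
    have h5 := hfe 2
    have h6 := hfe (1 - (starRingEnd ℂ) 2)
    rw [h6, map_mul] at h5
    have h7 : 1 - (starRingEnd ℂ) (1 - (starRingEnd ℂ) (2 : ℂ)) = 2 := by
      rw [map_sub, map_one, Complex.conj_conj]
      ring
    rw [h7, Complex.conj_conj] at h5
    have h8 : w * (starRingEnd ℂ) w = 1 := by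
      have : (w * (starRingEnd ℂ) w) * Ξ 2 = 1 * Ξ 2 := by linear_combination -h5
      exact mul_right_cancel₀ hX2 this
    rw [Complex.mul_conj, Complex.normSq_eq_norm_sq] at h8
    have h9 : ‖w‖ ^ 2 = 1 := by exact_mod_cast h8
    have := norm_nonneg w
    nlinarith
  have hzz : ∀ s : ℂ, (∃ k : ℕ, s = -(2 * k)) → H s = 0 := by
    rintro s ⟨k, hk⟩
    obtain ⟨v⟩ : Nonempty (InfinitePlace K) := inferInstance
    have h1 : ∏ φ : K →+* ℂ, (Complex.Gammaℝ (s + e φ))⁻¹ = 0 := by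
      refine Finset.prod_eq_zero (Finset.mem_univ v.embedding) ?_
      have h2 : e v.embedding = 0 := by
        rw [he]
        unfold ex
        rw [InfinitePlace.mk_embedding]
        split_ifs with h3 h4
        · rfl
        · rfl
        · exact absurd rfl h4
      rw [h2, Nat.cast_zero, add_zero, inv_eq_zero, Complex.Gammaℝ_eq_zero_iff]
      exact ⟨k, hk⟩
    rw [hH]
    simp only [h1, mul_zero]
  refine ⟨H, hHd, ⟨ex_le (fun _ => Nat.zero_le _), hHd.mul gs_diff, ⟨w, hw1, ?_⟩, ?_⟩, ?_, hright,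
    hzz 0 ⟨0, by simp⟩, hzz (-2) ⟨1, by norm_num⟩⟩
  · intro s hs
    have hs' : (1 - (starRingEnd ℂ) s).im ≠ 0 := by simpa using hs
    have h1 := hGH s (gam_ne_zero' e hs)
    have h2 := hGH _ (gam_ne_zero' e hs')
    rw [← mul_assoc, h1, ← mul_assoc, h2, map_mul, gs_refl, hfe s]
    ring
  · intro a b
    obtain ⟨C, hC⟩ := hbd a b
    set M : ℝ := |a| + |b| with hM
    have hC0 : 0 ≤ |C| := abs_nonneg _
    refine ⟨|C| * (4 * (1 + M) ^ 2 + 4) * Real.exp ((M + 1) ^ 2), fun s h1 h2 h3 => ?_⟩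
    have him : s.im ≠ 0 := by
      intro h0
      rw [h0, abs_zero] at h3
      linarith
    have e1 := hGH s (gam_ne_zero' e him)
    have e2 : GG R e s * (H s * gs s) = Ξ s * gs s := by rw [← mul_assoc, e1]
    rw [e2, norm_mul, gs_norm]
    have hre : |s.re| ≤ M := by
      rw [abs_le, hM]
      constructor
      · have := neg_abs_le a
        have := abs_nonneg b
        linarith
      · have := le_abs_self b
        have := abs_nonneg a
        linarith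
    have hM0 : 0 ≤ M := (abs_nonneg _).trans hre
    have hns : ‖s‖ ≤ M + |s.im| := (Complex.norm_le_abs_re_add_abs_im s).trans (by linarith)
    have e3 := hC s h1 h2
    have e4 : ‖Ξ s‖ ≤ |C| * (1 + M + |s.im|) ^ 2 := by
      refine e3.trans ?_
      have h5 : (1 + ‖s‖) ^ 2 ≤ (1 + M + |s.im|) ^ 2 :=
        pow_le_pow_left₀ (by positivity) (by linarith) 2
      exact (mul_le_mul_of_nonneg_right (le_abs_self C) (by positivity)).trans
        (mul_le_mul_of_nonneg_left h5 hC0)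
    have e5 : Real.exp ((s.re - 1 / 2) ^ 2 - s.im ^ 2) ≤
        Real.exp ((M + 1) ^ 2) * Real.exp (-s.im ^ 2) := by
      rw [← Real.exp_add]
      apply Real.exp_le_exp.2
      have h6 : (s.re - 1 / 2) ^ 2 ≤ (M + 1) ^ 2 := by
        rw [sq_le_sq, abs_of_nonneg (by linarith : 0 ≤ M + 1)]
        have := abs_sub s.re (1 / 2)
        have h7 : |(1 / 2 : ℝ)| = 1 / 2 := abs_of_pos (by norm_num)
        rw [h7] at this
        linarith
      linarith
    have e6 : (1 + M + |s.im|) ^ 2 * Real.exp (-s.im ^ 2) ≤ 4 * (1 + M) ^ 2 + 4 := by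
      have h8 : (1 + M + |s.im|) ^ 2 ≤ 2 * (1 + M) ^ 2 + 2 * s.im ^ 2 := by
        have : |s.im| ^ 2 = s.im ^ 2 := sq_abs _
        nlinarith [sq_nonneg (1 + M - |s.im|)]
      have h9 : s.im ^ 2 * Real.exp (-s.im ^ 2) ≤ 1 := by
        rw [Real.exp_neg, mul_inv_le_iff₀ (Real.exp_pos _), one_mul]
        linarith [Real.add_one_le_exp (s.im ^ 2)]
      have h10 : Real.exp (-s.im ^ 2) ≤ 1 := by
        rw [Real.exp_le_one_iff]
        nlinarith [sq_nonneg s.im]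
      have h11 : 0 ≤ (1 + M) ^ 2 := by positivity
      have h12 := Real.exp_pos (-s.im ^ 2)
      nlinarith [mul_le_mul_of_nonneg_right h8 h12.le]
    calc ‖Ξ s‖ * Real.exp ((s.re - 1 / 2) ^ 2 - s.im ^ 2)
        ≤ (|C| * (1 + M + |s.im|) ^ 2) * (Real.exp ((M + 1) ^ 2) * Real.exp (-s.im ^ 2)) := by
          gcongr
      _ = |C| * ((1 + M + |s.im|) ^ 2 * Real.exp (-s.im ^ 2)) * Real.exp ((M + 1) ^ 2) := by ring
      _ ≤ |C| * (4 * (1 + M) ^ 2 + 4) * Real.exp ((M + 1) ^ 2) := by gcongr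
  · obtain ⟨C, hC⟩ := hbd (-1 / 2) (3 / 2)
    refine ⟨|C|, abs_nonneg _, fun s h1 h2 h3 => ?_⟩
    have him : s.im ≠ 0 := by
      intro h0
      rw [h0, abs_zero] at h3
      linarith
    rw [hGH s (gam_ne_zero' e him)]
    exact (hC s h1 h2).trans (mul_le_mul_of_nonneg_right (le_abs_self C) (by positivity))

end Pool.Agent.Y772.ND
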