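import Pool.Agent.Y772.ND.Zet

/-!
# Dedekind zeta functions satisfy the analytic hypotheses, second part
-/

set_option autoImplicit false

open NumberField Complex Filter Topology Ideal Set Asymptotics
open scoped ArithmeticFunction.vonMangoldt

namespace Pool.Agent.Y772.ND

open Pool.Agent.Y773.G (sg ex ex_le differentiable_gam gam_ne_zero gam_ne_zero' card_emb)
open Pool.Agent.Y773 (LI cc FEd GG)
open Pool.Agent.Y772.FE
open H370.DL (refl hasDerivAt_refl analyticAt_refl im_osc re_osc eventually_im_ne order_refl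
  logDeriv_Gammaℝ_bound)

variable {K : Type} [Field K] [NumberField K]

lemma CZ.asym {R : ℝ} (hR : 0 < R) {e : (K →+* ℂ) → ℕ} {H : ℂ → ℂ} (h : CZ R e H) :
    ∃ w : ℂ, ‖w‖ = 1 ∧ ∀ z : ℂ, z.im ≠ 0 → H z = LX w R e z * refl H z := by
  obtain ⟨w, hw, hfe⟩ := fe_asym hR h.fed
  refine ⟨w, hw, fun z hz => ?_⟩
  have h1 := hfe z hz
  have h2 : refl (fun s => H s * gs s) z = refl H z * gs z := by
    unfold H370.DL.refl
    rw [map_mul, gs_refl]
  rw [h2] at h1
  exact mul_right_cancel₀ (gs_ne z) (by rw [h1]; ring)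

lemma norm_le_add_three {s : ℂ} (h : -1 ≤ s.re) : ‖s‖ ≤ ‖s + 3‖ ∧ ‖1 - s‖ ≤ ‖s + 3‖ ∧ 1 ≤ ‖s + 3‖ := by
  have h0 : (s + 3).re = s.re + 3 := by simp
  have h1 : (s + 3).im = s.im := by simp
  refine ⟨?_, ?_, ?_⟩
  · refine le_of_sq_le_sq ?_ (norm_nonneg _)
    rw [Complex.sq_norm, Complex.sq_norm, Complex.normSq_apply, Complex.normSq_apply, h0, h1]
    nlinarith
  · refine le_of_sq_le_sq ?_ (norm_nonneg _)
    rw [Complex.sq_norm, Complex.sq_norm, Complex.normSq_apply, Complex.normSq_apply, h0, h1]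
    simp only [sub_re, one_re, sub_im, one_im]
    nlinarith
  · have h5 := (le_abs_self _).trans (Complex.abs_re_le_norm (s + 3))
    rw [h0] at h5
    linarith

/-- the growth in the strip -/
theorem CZ.growth {R B : ℝ} (hR1 : 1 ≤ R) {e : (K →+* ℂ) → ℕ} {H : ℂ → ℂ} (h : CZ R e H)
    (hB0 : 0 ≤ B) (hB : ∀ s : ℂ, s.re = 3 / 2 → ‖H s‖ ≤ B * (‖s‖ * ‖1 - s‖)) (s : ℂ) (h1 : -1 / 2 ≤ s.re)
    (h2 : s.re ≤ 3 / 2) : ‖H s * ((s + 3) ^ (Fintype.card (K →+* ℂ) + 2))⁻¹‖ ≤ B * R := by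
  set d := Fintype.card (K →+* ℂ) with hd
  have hR : 0 < R := by linarith
  obtain ⟨w, hw, hfe⟩ := h.asym hR
  have hs3 : ∀ z : ℂ, ‖((z + 3) ^ (d + 2))⁻¹‖ = (‖z + 3‖ ^ (d + 2))⁻¹ := by
    intro z; rw [norm_inv, norm_pow]
  have hleft : ∀ z : ℂ, z.re = -1 / 2 → ‖H z‖ ≤ B * R * ‖z + 3‖ ^ (d + 2) := by
    have key : ∀ z : ℂ, z.re = -1 / 2 → z.im ≠ 0 → ‖H z‖ ≤ B * R * ‖z + 3‖ ^ (d + 2) := by
      intro z hz him
      rw [hfe z him, norm_mul]
      have e1 := norm_LX hw hR h.fed.he hz him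
      obtain ⟨n1, n2, n3⟩ := norm_le_add_three (s := z) (by rw [hz]; norm_num)
      have e2 : ‖refl H z‖ ≤ B * (‖z + 3‖ * ‖z + 3‖) := by
        unfold H370.DL.refl
        rw [RCLike.norm_conj]
        refine (hB _ (by rw [re_osc, hz]; norm_num)).trans ?_
        refine mul_le_mul_of_nonneg_left ?_ hB0
        have e3 : ‖1 - (starRingEnd ℂ) z‖ = ‖1 - z‖ := by
          rw [← RCLike.norm_conj (1 - (starRingEnd ℂ) z), map_sub, map_one, Complex.conj_conj]
        have e4 : ‖1 - (1 - (starRingEnd ℂ) z)‖ = ‖z‖ := by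
          rw [sub_sub_cancel, RCLike.norm_conj]
        rw [e3, e4]
        exact mul_le_mul n2 n1 (norm_nonneg _) (norm_nonneg _)
      calc ‖LX w R e z‖ * ‖refl H z‖ ≤ (R * ‖z + 3‖ ^ d) * (B * (‖z + 3‖ * ‖z + 3‖)) := by
            rw [← hd] at e1
            gcongr
        _ = _ := by ring
    intro s hs
    have hsv : s = ((-1 / 2 : ℝ) : ℂ) + (s.im : ℂ) * I := by
      apply Complex.ext
      · simp [hs]
      · simp
    have hcont : Continuous H := h.diff.continuous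
    have g1 : Continuous (fun t : ℝ => ‖H (((-1 / 2 : ℝ) : ℂ) + (t : ℂ) * I)‖) := by fun_prop
    have g2 : Continuous (fun t : ℝ => B * R *
        ‖((-1 / 2 : ℝ) : ℂ) + (t : ℂ) * I + 3‖ ^ (d + 2)) := by fun_prop
    have g3 : ∀ t ∈ closure ({0}ᶜ : Set ℝ), ‖H (((-1 / 2 : ℝ) : ℂ) + (t : ℂ) * I)‖ ≤
        B * R * ‖((-1 / 2 : ℝ) : ℂ) + (t : ℂ) * I + 3‖ ^ (d + 2) := by
      intro t ht
      refine closure_minimal ?_ (isClosed_le g1 g2) ht
      intro t ht
      have him : (((-1 / 2 : ℝ) : ℂ) + (t : ℂ) * I).im = t := by simp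
      have hre : (((-1 / 2 : ℝ) : ℂ) + (t : ℂ) * I).re = -1 / 2 := by simp
      exact key (((-1 / 2 : ℝ) : ℂ) + (t : ℂ) * I) hre (by rw [him]; exact ht)
    have g4 : closure ({0}ᶜ : Set ℝ) = univ := by
      rw [closure_compl_singleton]
    have g5 := g3 s.im (by rw [g4]; trivial)
    rwa [← hsv] at g5
  refine PhragmenLindelof.vertical_strip (f := fun s => H s * ((s + 3) ^ (d + 2))⁻¹)
    (a := -1 / 2) (b := 3 / 2) ?_ ?_ ?_ ?_ h1 h2
  · have hdd : DifferentiableOn ℂ (fun s => H s * ((s + 3) ^ (d + 2))⁻¹) {z : ℂ | -3 < z.re} := by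
      intro z hz
      have hz3 : (z + 3) ^ (d + 2) ≠ 0 := pow_ne_zero _ (sp3_ne hz)
      apply DifferentiableAt.differentiableWithinAt
      exact (h.diff z).mul (DifferentiableAt.inv (by fun_prop) hz3)
    apply DifferentiableOn.diffContOnCl
    apply hdd.mono
    refine (Complex.continuous_re.closure_preimage_subset _).trans ?_
    intro z hz
    have hz' : z.re ∈ closure (Ioo (-1 / 2 : ℝ) (3 / 2)) := hz
    rw [closure_Ioo (by norm_num)] at hz'
    have := hz'.1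
    change -3 < z.re
    linarith
  · obtain ⟨M, hM0, hM⟩ := inv_GG_le hR h.fed.he
    obtain ⟨C, hC0, hC'⟩ := h.bd
    refine ⟨1, ?_, d * Real.pi, ?_⟩
    · rw [show ((3 : ℝ) / 2 - -1 / 2) = 2 by norm_num]
      linarith [Real.pi_gt_three]
    refine IsBigO.of_bound (M * (C * 4)) ?_
    rw [eventually_inf_principal]
    have hev : ∀ᶠ z : ℂ in comap (abs ∘ Complex.im) atTop, 2 ≤ |z.im| :=
      (eventually_ge_atTop (2 : ℝ)).comap (abs ∘ Complex.im)
    filter_upwards [hev] with z hz1 hz2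
    have hz2' : z.re ∈ Ioo (-1 / 2 : ℝ) (3 / 2) := hz2
    have e1 := hM z hz2'.1.le hz2'.2.le hz1
    have e2 := hC' z hz2'.1.le hz2'.2.le (by linarith)
    have hz0 : z.im ≠ 0 := by
      intro h; rw [h, abs_zero] at hz1; linarith
    have hg := GG_ne hR e hz0
    obtain ⟨n1, n2, n3⟩ := norm_le_add_three (s := z) (by linarith [hz2'.1])
    have e5 : (1 + ‖z‖) ^ 2 * (‖z + 3‖ ^ (d + 2))⁻¹ ≤ 4 := by
      rw [mul_inv_le_iff₀ (by positivity)]
      have h5 : (1 + ‖z‖) ^ 2 ≤ (2 * ‖z + 3‖) ^ 2 := pow_le_pow_left₀ (by positivity) (by linarith) 2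
      have h6 : ‖z + 3‖ ^ 2 ≤ ‖z + 3‖ ^ (d + 2) := pow_le_pow_right₀ n3 (by omega)
      nlinarith
    have e7 : H z = (GG R e z)⁻¹ * (GG R e z * H z) := by
      rw [← mul_assoc, inv_mul_cancel₀ hg, one_mul]
    rw [norm_mul, hs3, e7, norm_mul, Real.norm_eq_abs, abs_of_pos (Real.exp_pos _)]
    have e6 : Real.exp (d * Real.pi * |z.im|) ≤ Real.exp (d * Real.pi * Real.exp (1 * |z.im|)) := by
      apply Real.exp_le_exp.mpr
      apply mul_le_mul_of_nonneg_left _ (by positivity)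
      rw [one_mul]
      linarith [Real.add_one_le_exp |z.im|]
    have hE := (Real.exp_pos (d * Real.pi * |z.im|)).le
    rw [← hd] at e1
    calc ‖(GG R e z)⁻¹‖ * ‖GG R e z * H z‖ * (‖z + 3‖ ^ (d + 2))⁻¹
        ≤ (M * Real.exp (d * Real.pi * |z.im|)) * (C * (1 + ‖z‖) ^ 2) * (‖z + 3‖ ^ (d + 2))⁻¹ := by
          gcongr
      _ = (M * Real.exp (d * Real.pi * |z.im|)) * (C * ((1 + ‖z‖) ^ 2 * (‖z + 3‖ ^ (d + 2))⁻¹)) := by ring
      _ ≤ (M * Real.exp (d * Real.pi * |z.im|)) * (C * 4) := by gcongr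
      _ = M * (C * 4) * Real.exp (d * Real.pi * |z.im|) := by ring
      _ ≤ M * (C * 4) * Real.exp (d * Real.pi * Real.exp (1 * |z.im|)) := by
          apply mul_le_mul_of_nonneg_left e6
          positivity
  · intro z hz
    have e1 := hleft z hz
    obtain ⟨-, -, n3⟩ := norm_le_add_three (s := z) (by rw [hz]; norm_num)
    rw [norm_mul, hs3, mul_inv_le_iff₀ (by positivity)]
    exact e1
  · intro z hz
    have e1 := hB z hz
    obtain ⟨n1, n2, n3⟩ := norm_le_add_three (s := z) (by rw [hz]; norm_num)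
    rw [norm_mul, hs3, mul_inv_le_iff₀ (by positivity)]
    have h5 : ‖z‖ * ‖1 - z‖ ≤ ‖z + 3‖ * ‖z + 3‖ := mul_le_mul n1 n2 (norm_nonneg _) (norm_nonneg _)
    have h6 : ‖z + 3‖ ^ 2 ≤ ‖z + 3‖ ^ (d + 2) := pow_le_pow_right₀ n3 (by omega)
    have h7 : B * (‖z‖ * ‖1 - z‖) ≤ B * ‖z + 3‖ ^ (d + 2) :=
      mul_le_mul_of_nonneg_left (by nlinarith) hB0
    have h8 : B * ‖z + 3‖ ^ (d + 2) ≤ B * R * ‖z + 3‖ ^ (d + 2) := by
      apply mul_le_mul_of_nonneg_right _ (by positivity)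
      nlinarith
    linarith

/-- the data of the zeta function -/
theorem zeta_data {R : ℝ} {e : (K →+* ℂ) → ℕ} {H : ℂ → ℂ} (h : CZ R e H) :
    ∃ G : ℂ → ℂ, Differentiable ℂ G ∧ (∀ s, H s = s * G s) ∧
      (∀ s : ℂ, 1 < s.re → G s = (s - 1) * LI (tr K) s) ∧
      ∀ s : ℂ, s.re = 1 → s.im ≠ 0 → G s ≠ 0 := by
  have hG : Differentiable ℂ (dslope H 0) := by
    rw [← differentiableOn_univ]
    rw [Complex.differentiableOn_dslope Filter.univ_mem, differentiableOn_univ]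
    exact h.diff
  have hHG : ∀ s, H s = s * dslope H 0 s := by
    intro s
    have := sub_smul_dslope H 0 s
    rw [sub_zero, smul_eq_mul, h.z0, sub_zero] at this
    exact this.symm
  have hGL : ∀ s : ℂ, 1 < s.re → dslope H 0 s = (s - 1) * LI (tr K) s := by
    intro s hs
    have hs0 : s ≠ 0 := by
      intro h0; rw [h0, zero_re] at hs; linarith
    have h1 := h.right s hs
    rw [hHG s, mul_assoc] at h1
    exact mul_left_cancel₀ hs0 h1
  have hG2 : dslope H 0 (-2) = 0 := by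
    have h1 := hHG (-2)
    rw [h.z2] at h1
    have h2 : (-2 : ℂ) ≠ 0 := by norm_num
    exact (mul_eq_zero.1 h1.symm).resolve_left h2
  have hNV : Pool.Agent.Y772.NV.NVData (tr K) :=
    { unit := tr_unit
      pab := ⟨_, hG, fun s hs => by rw [tr_ab]; exact hGL s hs, hG2⟩
      peta := ⟨_, hG, hGL⟩
      psq := ⟨_, hG, fun s hs => by rw [tr_sq]; exact hGL s hs⟩
      psq' := Or.inl fun 𝔞 => by rw [tr_sq, tr_ab] }
  refine ⟨dslope H 0, hG, hHG, hGL, fun s hs him h0 => ?_⟩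
  have hs1 : s - 1 ≠ 0 := by
    intro h1
    apply him
    have : s = 1 := by linear_combination h1
    rw [this, one_im]
  have := Pool.Agent.Y772.NV.nv Pool.Agent.Y772.DK.t_dirK hNV hs (F := fun z => dslope H 0 z / (z - 1))
    ((hG.analyticAt s).div (analyticAt_id.sub analyticAt_const) hs1) (by
      refine Eventually.of_forall fun z hz => ?_
      have hz1 : z - 1 ≠ 0 := by
        intro h1
        have : z = 1 := by linear_combination h1
        rw [this, one_re] at hz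
        linarith
      show dslope H 0 z / (z - 1) = _
      rw [hGL z hz, mul_div_cancel_left₀ _ hz1])
  apply this
  show dslope H 0 s / (s - 1) = 0
  rw [h0, zero_div]

end Pool.Agent.Y772.ND
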